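import Mathlib

/-!
# URW Q/Ent (package, 1.5 h): entropy of small families, choice of the parameters

PROOF of `ent`: for `#P ≤ K`: `2^#P ≤ (z⁻¹)^K (2 z)^#P` as `z ≤ 1`, and `∑_P (2 z)^#P = (1 + 2 z)^card`
(`Fintype.sum_pow_mul_eq_add_pow` with `b = 1`).

PROOF of `params`. `s > 0`. Choose `z ∈ (0, 1]` with `D log (1 + 2 z) ≤ 2 z D ≤ s / 4`, then `r0` with
`8 / r0 * log (1 / z) ≤ s / 4`; for `r ≥ r0`, `K ≤ 8 N / r`: `(z⁻¹)^K ≤ exp (N s / 4)`,
`(1 + 2 z)^(D N) ≤ exp (N s / 4)`. So the left side is at most `(w + 2) exp (- N s / 2)`, which is `≤ δ` for `N ≥ n0`.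
-/

set_option autoImplicit false

open Finset

namespace URW

open Classical in
theorem ent {ι : Type} [Fintype ι] (K : ℕ) (z : ℝ) (hz : 0 < z) (hz1 : z ≤ 1) :
    ∑ P ∈ (univ : Finset (Finset ι)).filter (fun P => P.card ≤ K), (2 : ℝ) ^ P.card ≤
      (z⁻¹) ^ K * (1 + 2 * z) ^ Fintype.card ι := by
  have hz' : 1 ≤ z⁻¹ := (one_le_inv₀ hz).2 hz1
  calc ∑ P ∈ (univ : Finset (Finset ι)).filter (fun P => P.card ≤ K), (2 : ℝ) ^ P.card
      ≤ ∑ P ∈ (univ : Finset (Finset ι)).filter (fun P => P.card ≤ K),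
          (z⁻¹) ^ K * (2 * z) ^ P.card := by
        refine sum_le_sum fun P hP => ?_
        have hK := (mem_filter.1 hP).2
        have h1 : (2 : ℝ) ^ P.card = (z⁻¹) ^ P.card * (2 * z) ^ P.card := by
          rw [← mul_pow]
          congr 1
          field_simp
        rw [h1]
        exact mul_le_mul_of_nonneg_right (pow_le_pow_right₀ hz' hK) (by positivity)
    _ ≤ ∑ P : Finset ι, (z⁻¹) ^ K * (2 * z) ^ P.card :=
        sum_le_sum_of_subset_of_nonneg (filter_subset _ _) fun _ _ _ => by positivity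
    _ = (z⁻¹) ^ K * (1 + 2 * z) ^ Fintype.card ι := by
        rw [← mul_sum]
        congr 1
        have h := Fintype.sum_pow_mul_eq_add_pow ι (2 * z) (1 : ℝ)
        simp only [one_pow, mul_one] at h
        rw [h, add_comm]

/-- Parameters: for all `r ≥ r0` and `N ≥ n0` (`n0` depends on `r`). -/
theorem params (D : ℕ) (w : ℕ) (s δ : ℝ) (hs : 0 < s) (hδ : 0 < δ) :
    ∃ z : ℝ, 0 < z ∧ z ≤ 1 ∧ ∃ r0 : ℕ, ∀ r : ℕ, r0 ≤ r → 1 ≤ r → ∃ n0 : ℕ, ∀ N K : ℕ, n0 ≤ N →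
      r * K ≤ 8 * N →
      ((w : ℝ) + 2) * Real.exp (-(s * N)) * ((z⁻¹) ^ K * (1 + 2 * z) ^ (D * N)) ≤ δ := by
  obtain ⟨z, hz⟩ : ∃ z : ℝ, z = min 1 (s / (8 * ((D : ℝ) + 1))) := ⟨_, rfl⟩
  have hD : (0 : ℝ) ≤ D := Nat.cast_nonneg D
  have hz0 : 0 < z := by
    rw [hz]
    exact lt_min one_pos (by positivity)
  have hz1 : z ≤ 1 := by
    rw [hz]
    exact min_le_left _ _
  have hz2 : 2 * z * D ≤ s / 4 := by
    have h1 : z ≤ s / (8 * ((D : ℝ) + 1)) := by
      rw [hz]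
      exact min_le_right _ _
    rw [le_div_iff₀ (by positivity)] at h1
    nlinarith
  have hl : 0 ≤ Real.log z⁻¹ := Real.log_nonneg ((one_le_inv₀ hz0).2 hz1)
  have hzi : 0 < z⁻¹ := inv_pos.2 hz0
  refine ⟨z, hz0, hz1, ⌈32 * Real.log z⁻¹ / s⌉₊, fun r hr hr1 =>
    ⟨⌈2 / s * Real.log (((w : ℝ) + 2) / δ)⌉₊, fun N K hN hK => ?_⟩⟩
  have hrr : (1 : ℝ) ≤ r := by exact_mod_cast hr1
  have hr2 : 32 * Real.log z⁻¹ / s ≤ r := (Nat.le_ceil _).trans (by exact_mod_cast hr)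
  have hN2 : 2 / s * Real.log (((w : ℝ) + 2) / δ) ≤ N :=
    (Nat.le_ceil _).trans (by exact_mod_cast hN)
  have hKr : (r : ℝ) * K ≤ 8 * N := by exact_mod_cast hK
  have hN0 : (0 : ℝ) ≤ N := Nat.cast_nonneg N
  have hK0 : (0 : ℝ) ≤ K := Nat.cast_nonneg K
  have e1 : (z⁻¹) ^ K ≤ Real.exp (s * N / 4) := by
    have h1 : (z⁻¹) ^ K = Real.exp (K * Real.log z⁻¹) := by
      rw [mul_comm, Real.exp_mul, Real.exp_log hzi, Real.rpow_natCast]
    rw [h1, Real.exp_le_exp]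
    rw [div_le_iff₀ hs] at hr2
    have h2 : (r : ℝ) * (K * Real.log z⁻¹) ≤ r * (s * N / 4) := by
      calc (r : ℝ) * (K * Real.log z⁻¹) = (r * K) * Real.log z⁻¹ := by ring
        _ ≤ (8 * N) * Real.log z⁻¹ := mul_le_mul_of_nonneg_right hKr hl
        _ = N / 4 * (32 * Real.log z⁻¹) := by ring
        _ ≤ N / 4 * (r * s) := mul_le_mul_of_nonneg_left hr2 (by positivity)
        _ = r * (s * N / 4) := by ring
    exact le_of_mul_le_mul_left h2 (by linarith)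
  have e2 : (1 + 2 * z) ^ (D * N) ≤ Real.exp (s * N / 4) := by
    have h1 : 1 + 2 * z ≤ Real.exp (2 * z) := by
      have := Real.add_one_le_exp (2 * z)
      linarith
    calc (1 + 2 * z) ^ (D * N) ≤ (Real.exp (2 * z)) ^ (D * N) :=
          pow_le_pow_left₀ (by positivity) h1 _
      _ = Real.exp (2 * z * D * N) := by
          rw [← Real.exp_nat_mul]
          congr 1
          push_cast
          ring
      _ ≤ Real.exp (s * N / 4) := by
          rw [Real.exp_le_exp]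
          have := mul_le_mul_of_nonneg_right hz2 hN0
          linarith
  have hw : (0 : ℝ) < (w : ℝ) + 2 := by positivity
  have e3 : Real.exp (-(s * N / 2)) ≤ δ / ((w : ℝ) + 2) := by
    have h1 : Real.log (((w : ℝ) + 2) / δ) ≤ s * N / 2 := by
      have h2 : 2 / s * Real.log (((w : ℝ) + 2) / δ) * s ≤ N * s :=
        mul_le_mul_of_nonneg_right hN2 hs.le
      have h3 : 2 / s * Real.log (((w : ℝ) + 2) / δ) * s = 2 * Real.log (((w : ℝ) + 2) / δ) := by
        field_simp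
      rw [h3] at h2
      linarith
    have h4 : ((w : ℝ) + 2) / δ ≤ Real.exp (s * N / 2) := by
      rw [← Real.exp_log (div_pos hw hδ), Real.exp_le_exp]
      exact h1
    rw [Real.exp_neg]
    have h5 : (Real.exp (s * N / 2))⁻¹ ≤ (((w : ℝ) + 2) / δ)⁻¹ :=
      inv_anti₀ (div_pos hw hδ) h4
    rwa [inv_div] at h5
  calc ((w : ℝ) + 2) * Real.exp (-(s * N)) * ((z⁻¹) ^ K * (1 + 2 * z) ^ (D * N))
      ≤ ((w : ℝ) + 2) * Real.exp (-(s * N)) * (Real.exp (s * N / 4) * Real.exp (s * N / 4)) :=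
        mul_le_mul_of_nonneg_left (mul_le_mul e1 e2 (by positivity) (by positivity))
          (by positivity)
    _ = ((w : ℝ) + 2) * Real.exp (-(s * N / 2)) := by
        rw [mul_assoc, ← Real.exp_add, ← Real.exp_add]
        congr 2
        ring
    _ ≤ ((w : ℝ) + 2) * (δ / ((w : ℝ) + 2)) := mul_le_mul_of_nonneg_left e3 hw.le
    _ = δ := by field_simp

end URW
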