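import Pool.Agent.URW.Q.Expl
import Pool.Agent.URW.Q.Ent

/-!
# URW Q: for most rotations the thick noncrossing sets of darts are small

INTERFACE theorem of part Q (section 7 of `UWneg_proof.txt`); architect helper17.

Union bound: `E1 P` = the `c` for which the family `P` has many bad vertices (`ld_count`), `E2 P A ρ0` = the `c` for
which no test of the exploration of `P` (first the pieces in `A`) with residue `ρ0` succeeds although the
conditional probabilities have a large sum (`blk_count`).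
-/

set_option autoImplicit false

open Finset

namespace URW

section

variable {m : ℕ} {V : Type} [Fintype V] [DecidableEq V]

open Classical in
/-- many bad vertices -/
noncomputable def E1 (nb : V → Lab m → V) (r x0 : ℕ) (d0 : V × Lab m) (P : Finset (V × Lab m)) :
    Finset (V → Rot m) :=
  univ.filter fun c => x0 ≤ (Vis (rv nb r fun i => P.toList.getD i d0) c (P.card * r)).card ∧
    (Vis (rv nb r fun i => P.toList.getD i d0) c (P.card * r)).card ≤
      2 * ((Vis (rv nb r fun i => P.toList.getD i d0) c (P.card * r)).filter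
        fun x => cd (c x).1 < 2 * m).card

open Classical in
/-- no test succeeds -/
noncomputable def E2 (nb : V → Lab m → V) (r w : ℕ) (d0 : V × Lab m) (s : ℝ)
    (P A : Finset (V × Lab m)) (ρ0 : ℕ) : Finset (V → Rot m) :=
  univ.filter fun c =>
    (∀ j < P.card * (r / (w + 1)), Tst nb r w (sq d0 P A) A.card c (ρ0 + j * (w + 1)) →
        ¬ Suc nb r w (sq d0 P A) A.card c (ρ0 + j * (w + 1))) ∧
      s ≤ ∑ j ∈ range (P.card * (r / (w + 1))),
        if Tst nb r w (sq d0 P A) A.card c (ρ0 + j * (w + 1)) then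
          qq nb r w (sq d0 P A) A.card c (ρ0 + j * (w + 1)) else 0

theorem vis_vts (nb : V → Lab m → V) {r : ℕ} (hr : 1 ≤ r) (c : V → Rot m)
    (P : Finset (V × Lab m)) (d0 : V × Lab m) :
    Vis (rv nb r fun i => P.toList.getD i d0) c (P.card * r) = vts nb c r P := by
  ext x
  rw [mem_vts, ← Finset.length_toList P, vis_list nb hr c P.toList d0 x]
  simp only [Finset.mem_toList]

/-- the alternatives for a bad `c` -/
theorem cases_c (hm : 100 ≤ m) {nb : V → Lab m → V} (hI : Invol nb) {n : ℕ} (hU : Uniq nb n)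
    {r w : ℕ} (hr : r ≤ n) (hr1 : 1 ≤ r) (hrw : w + 1 ∣ r) (hwn : w ≤ n) (d0 : V × Lab m)
    {ρ : ℝ} (hρ : 0 < ρ) (hw : (8 * m + 1 : ℝ) ≤ 33 * (w + 1) * ρ)
    (hrb : (106496 * w : ℝ) ≤ r) {c : V → Rot m} {P : Finset (V × Lab m)} (hF : Fam nb c r P)
    (hX : ρ * (Fintype.card V : ℝ) ≤ (vts nb c r P).card) (x0 : ℕ)
    (hx0 : (x0 : ℝ) ≤ ρ * (Fintype.card V : ℝ)) :
    c ∈ E1 nb r x0 d0 P ∨ ∃ A ∈ P.powerset, ∃ ρ0 ∈ range (w + 1),
      c ∈ E2 nb r w d0 (ρ / (13312 * (w + 1)) * (Fintype.card V : ℝ)) P A ρ0 := by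
  classical
  rcases le_or_gt ((vts nb c r P).card)
    (2 * ((vts nb c r P).filter fun x => cd (c x).1 < 2 * m).card) with hb | hg
  · left
    rw [E1, Finset.mem_filter]
    refine ⟨Finset.mem_univ _, ?_⟩
    rw [vis_vts nb hr1]
    refine ⟨?_, hb⟩
    have : (x0 : ℝ) ≤ ((vts nb c r P).card : ℝ) := hx0.trans hX
    exact_mod_cast this
  · right
    have hgood : 2 * ((vts nb c r P).filter fun x => cd (c x).1 < 2 * m).card ≤
        (vts nb c r P).card := hg.le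
    have hρ' : (8 * m + 1) * (Fintype.card V : ℝ) ≤ 33 * (w + 1) * (vts nb c r P).card := by
      have h1 : (0 : ℝ) ≤ Fintype.card V := Nat.cast_nonneg _
      calc (8 * m + 1) * (Fintype.card V : ℝ) ≤ 33 * (w + 1) * ρ * (Fintype.card V : ℝ) :=
            mul_le_mul_of_nonneg_right hw h1
        _ = 33 * (w + 1) * (ρ * (Fintype.card V : ℝ)) := by ring
        _ ≤ 33 * (w + 1) * (vts nb c r P).card := by
            refine mul_le_mul_of_nonneg_left hX (by positivity)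
    obtain ⟨A, hA, hflow⟩ := exists_split hm hI hU hr hwn hF hgood hρ'
    obtain ⟨ρ0, hρ0, hno, hsum⟩ := expl (by omega) hU hr hr1 hrw hF hA d0 _ hflow
    refine ⟨A, Finset.mem_powerset.2 hA, ρ0, Finset.mem_range.2 (by omega), ?_⟩
    rw [E2, Finset.mem_filter]
    refine ⟨Finset.mem_univ _, hno, le_trans ?_ hsum⟩
    -- the numerical inequality
    have hfc := fam_card (by omega : 3 ≤ m) hU hr hF
    have hfc' : (r : ℝ) * (P.card : ℝ) ≤ 8 * ((vts nb c r P).card : ℝ) := by exact_mod_cast hfc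
    have hwP : (w : ℝ) * (P.card : ℝ) ≤ ((vts nb c r P).card : ℝ) / 13312 := by
      have h2 : (106496 * w : ℝ) * (P.card : ℝ) ≤ (r : ℝ) * (P.card : ℝ) :=
        mul_le_mul_of_nonneg_right hrb (Nat.cast_nonneg _)
      have h3 : (106496 * w : ℝ) * (P.card : ℝ) ≤ 8 * ((vts nb c r P).card : ℝ) := h2.trans hfc'
      linarith
    have hm' : (100 : ℝ) ≤ m := by exact_mod_cast hm
    have hXn : (0 : ℝ) ≤ ((vts nb c r P).card : ℝ) := Nat.cast_nonneg _
    have hF1 : ((vts nb c r P).card : ℝ) / 6656 ≤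
        (m : ℝ) / 2 * (vts nb c r P).card / 2 ^ 9 / (6 * m + 2) := by
      rw [div_div, div_mul_eq_mul_div, div_div, div_le_div_iff₀ (by norm_num) (by positivity)]
      nlinarith
    rw [div_mul_eq_mul_div, div_le_div_iff₀ (by positivity) (by positivity)]
    have h5 : ρ * (Fintype.card V : ℝ) / 13312 ≤
        (m : ℝ) / 2 * (vts nb c r P).card / 2 ^ 9 / (6 * m + 2) - w * P.card := by
      have h6 : ρ * (Fintype.card V : ℝ) / 13312 ≤ ((vts nb c r P).card : ℝ) / 13312 := by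
        linarith
      linarith
    have h7 := mul_le_mul_of_nonneg_right h5 (by positivity : (0 : ℝ) ≤ 13312 * (w + 1))
    calc ρ * (Fintype.card V : ℝ) * (w + 1)
        = ρ * (Fintype.card V : ℝ) / 13312 * (13312 * (w + 1)) := by ring
      _ ≤ _ := h7

theorem E1_card (hm : 100 ≤ m) (nb : V → Lab m → V) {r : ℕ} (hr : 1 ≤ r) (x0 : ℕ)
    (d0 : V × Lab m) (P : Finset (V × Lab m)) :
    Real.sqrt ((9 / 8) ^ x0) * ((E1 nb r x0 d0 P).card : ℝ) ≤
      (Fintype.card (V → Rot m) : ℝ) := by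
  classical
  refine ld_count (by omega) nb hr (fun i => P.toList.getD i d0) (P.card * r) x0 _ ?_
  intro c hc
  rw [E1, Finset.mem_filter] at hc
  refine ⟨hc.2.1, ?_⟩
  convert hc.2.2

theorem E2_card (hm : 100 ≤ m) {nb : V → Lab m → V} {n : ℕ} (hU : Uniq nb n)
    {r w : ℕ} (hr1 : 1 ≤ r) (hwn : w ≤ n) (d0 : V × Lab m) (s : ℝ)
    (P A : Finset (V × Lab m)) (ρ0 : ℕ) :
    Real.exp s * ((E2 nb r w d0 s P A ρ0).card : ℝ) ≤ (Fintype.card (V → Rot m) : ℝ) := by
  classical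
  refine blk_count (by omega) nb hU hr1 hwn (sq d0 P A) A.card (P.card * (r / (w + 1))) ρ0 s _ ?_
  intro c hc
  rw [E2, Finset.mem_filter] at hc
  exact hc.2

end

theorem exp_le_sqrt {ρ s N : ℝ} (hs : s ≤ ρ / 18) (hN : 0 ≤ N) (x0 : ℕ)
    (hx0 : ρ * N < x0 + 1) : Real.exp (s * N) ≤ 2 * Real.sqrt ((9 / 8) ^ x0) := by
  have hlog : (1 : ℝ) / 9 ≤ Real.log (9 / 8) := by
    have h := Real.one_sub_inv_le_log_of_pos (by norm_num : (0 : ℝ) < 9 / 8)
    norm_num at h ⊢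
    linarith
  have h1 : Real.exp ((x0 : ℝ) * (1 / 18)) ≤ Real.sqrt ((9 / 8) ^ x0) := by
    refine Real.le_sqrt_of_sq_le ?_
    rw [← Real.exp_nat_mul, ← Real.exp_log (by norm_num : (0 : ℝ) < 9 / 8), ← Real.exp_nat_mul]
    refine Real.exp_le_exp.2 ?_
    have h3 : (0 : ℝ) ≤ x0 := Nat.cast_nonneg _
    push_cast
    nlinarith
  have h2 : s * N ≤ (x0 : ℝ) * (1 / 18) + 1 / 18 := by
    have h3 : s * N ≤ ρ / 18 * N := mul_le_mul_of_nonneg_right hs hN
    linarith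
  have h4 : Real.exp (1 / 18) ≤ 2 := by
    have h5 := Real.exp_one_lt_d9
    have h6 : Real.exp (1 / 18) ≤ Real.exp (1 / 2) := Real.exp_le_exp.2 (by norm_num)
    have h7 : Real.exp (1 / 2) * Real.exp (1 / 2) = Real.exp 1 := by
      rw [← Real.exp_add]
      norm_num
    have h8 := Real.exp_pos (1 / 2)
    nlinarith
  calc Real.exp (s * N) ≤ Real.exp ((x0 : ℝ) * (1 / 18) + 1 / 18) := Real.exp_le_exp.2 h2
    _ = Real.exp ((x0 : ℝ) * (1 / 18)) * Real.exp (1 / 18) := Real.exp_add _ _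
    _ ≤ Real.sqrt ((9 / 8) ^ x0) * 2 :=
        mul_le_mul h1 h4 (Real.exp_pos _).le (Real.sqrt_nonneg _)
    _ = 2 * Real.sqrt ((9 / 8) ^ x0) := mul_comm _ _

theorem lines_main (m : ℕ) (hm : 100 ≤ m) (η δ : ℝ) (hη : 0 < η) (hδ : 0 < δ) :
    ∃ r n : ℕ, 1 ≤ r ∧ ∀ (V : Type) [Fintype V] [Nonempty V] (nb : V → Lab m → V), Invol nb →
      Uniq nb n →
      (Nat.card {c : V → Rot m // ∃ S : Finset (V × Lab m), Thick nb c r S ∧ NonCr c S ∧
        η * (Fintype.card V : ℝ) < S.card} : ℝ) ≤ δ * (Nat.card (V → Rot m) : ℝ) := by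
  classical
  obtain ⟨ρ, hρe⟩ : ∃ ρ : ℝ, ρ = η / 24 := ⟨_, rfl⟩
  have hρ : 0 < ρ := by rw [hρe]; positivity
  obtain ⟨w, hw⟩ := exists_nat_ge ((8 * m + 1 : ℝ) / (33 * ρ))
  have hw' : (8 * m + 1 : ℝ) ≤ 33 * (w + 1) * ρ := by
    rw [div_le_iff₀ (by positivity)] at hw
    nlinarith
  obtain ⟨s, hse⟩ : ∃ s : ℝ, s = ρ / (13312 * (w + 1)) := ⟨_, rfl⟩
  have hs : 0 < s := by rw [hse]; positivity
  have hs18 : s ≤ ρ / 18 := by
    rw [hse]
    refine div_le_div_of_nonneg_left hρ.le (by norm_num) ?_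
    have : (0 : ℝ) ≤ w := Nat.cast_nonneg _
    nlinarith
  obtain ⟨z, hz, hz1, r0, hr0⟩ := params (8 * m + 1) (w + 1) s δ hs hδ
  obtain ⟨r, hre⟩ : ∃ r : ℕ, r = (w + 1) * (r0 + 106496 * w + 1) := ⟨_, rfl⟩
  have hr1 : 1 ≤ r := by rw [hre]; exact Nat.succ_le_of_lt (by positivity)
  have hbig : r0 + 106496 * w + 1 ≤ r := by
    rw [hre]
    exact Nat.le_mul_of_pos_left _ (Nat.succ_pos w)
  have hrw : w + 1 ∣ r := ⟨_, hre⟩
  obtain ⟨n0, hn0⟩ := hr0 r (by omega) hr1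
  refine ⟨r, r + w + n0, hr1, ?_⟩
  intro V _ _ nb hI hU
  obtain ⟨v0⟩ := (inferInstance : Nonempty V)
  obtain ⟨d0, -⟩ : ∃ d0 : V × Lab m, True := ⟨(v0, 0), trivial⟩
  obtain ⟨N, hN⟩ : ∃ N : ℕ, N = Fintype.card V := ⟨_, rfl⟩
  have hNn : n0 ≤ N := by
    have h := uniq_card (by omega : 3 ≤ m) hU
    omega
  obtain ⟨K, hK⟩ : ∃ K : ℕ, K = 8 * N / r := ⟨_, rfl⟩
  have hrK : r * K ≤ 8 * N := by
    rw [hK]
    exact Nat.mul_div_le _ _
  have hpar := hn0 N K hNn hrK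
  obtain ⟨x0, hx0⟩ : ∃ x0 : ℕ, x0 = ⌊ρ * (N : ℝ)⌋₊ := ⟨_, rfl⟩
  have hx0a : (x0 : ℝ) ≤ ρ * (N : ℝ) := by
    rw [hx0]
    exact Nat.floor_le (by positivity)
  have hx0b : ρ * (N : ℝ) < x0 + 1 := by
    rw [hx0]
    exact Nat.lt_floor_add_one _
  obtain ⟨PS, hPS⟩ : ∃ PS : Finset (Finset (V × Lab m)), PS = univ.filter (fun P => P.card ≤ K) :=
    ⟨_, rfl⟩
  obtain ⟨Ω, hΩ⟩ : ∃ Ω : ℝ, Ω = (Fintype.card (V → Rot m) : ℝ) := ⟨_, rfl⟩
  have hΩ0 : 0 ≤ Ω := by rw [hΩ]; exact Nat.cast_nonneg _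
  -- the inclusion
  have hsub : (univ.filter fun c : V → Rot m => ∃ S : Finset (V × Lab m), Thick nb c r S ∧
      NonCr c S ∧ η * (Fintype.card V : ℝ) < S.card) ⊆
      PS.biUnion fun P => E1 nb r x0 d0 P ∪ P.powerset.biUnion fun A =>
        (range (w + 1)).biUnion fun ρ0 => E2 nb r w d0 (s * (N : ℝ)) P A ρ0 := by
    intro c hc
    obtain ⟨-, S, hT, hNC, hS⟩ := Finset.mem_filter.1 hc
    obtain ⟨P, hF, hSP⟩ := fam_exists (by omega : 3 ≤ m) hI hr1 hT hNC
    have hfc := fam_card (by omega : 3 ≤ m) hU (by omega : r ≤ r + w + n0) hF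
    have hXV : (vts nb c r P).card ≤ N := by
      rw [hN]
      exact Finset.card_le_univ _
    have hPK : P.card ≤ K := by
      rw [hK, Nat.le_div_iff_mul_le (by omega)]
      calc P.card * r = r * P.card := mul_comm _ _
        _ ≤ 8 * (vts nb c r P).card := hfc
        _ ≤ 8 * N := by omega
    have hX : ρ * (Fintype.card V : ℝ) ≤ (vts nb c r P).card := by
      have h1 : (S.card : ℝ) ≤ 3 * ((r : ℝ) * P.card) := by
        have : S.card ≤ 3 * (r * P.card) := by rw [← mul_assoc]; exact hSP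
        exact_mod_cast this
      have h2 : (r : ℝ) * P.card ≤ 8 * (vts nb c r P).card := by exact_mod_cast hfc
      rw [hρe]
      linarith
    rw [Finset.mem_biUnion]
    refine ⟨P, ?_, ?_⟩
    · rw [hPS, Finset.mem_filter]
      exact ⟨Finset.mem_univ _, hPK⟩
    · have hrb : (106496 * w : ℝ) ≤ r := by
        have : 106496 * w ≤ r := by omega
        exact_mod_cast this
      rcases cases_c hm hI hU (by omega : r ≤ r + w + n0) hr1 hrw (by omega) d0 hρ hw' hrb hF hX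
        x0 (by rw [← hN]; exact hx0a) with h | ⟨A, hA, ρ0, hρ0, h⟩
      · exact Finset.mem_union_left _ h
      · refine Finset.mem_union_right _ ?_
        rw [Finset.mem_biUnion]
        refine ⟨A, hA, ?_⟩
        rw [Finset.mem_biUnion]
        refine ⟨ρ0, hρ0, ?_⟩
        rw [hse, hN]
        exact h
  -- the sizes
  have hexp : 0 < Real.exp (s * (N : ℝ)) := Real.exp_pos _
  have c1 : ∀ P, ((E1 nb r x0 d0 P).card : ℝ) ≤ 2 * Real.exp (-(s * N)) * Ω := by
    intro P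
    have h1 := E1_card hm nb hr1 x0 d0 P
    have h2 := exp_le_sqrt hs18 (Nat.cast_nonneg N : (0 : ℝ) ≤ N) x0 hx0b
    have h3 : Real.exp (s * N) * ((E1 nb r x0 d0 P).card : ℝ) ≤ 2 * Ω := by
      rw [hΩ]
      calc Real.exp (s * N) * ((E1 nb r x0 d0 P).card : ℝ)
          ≤ 2 * Real.sqrt ((9 / 8) ^ x0) * ((E1 nb r x0 d0 P).card : ℝ) :=
            mul_le_mul_of_nonneg_right h2 (Nat.cast_nonneg _)
        _ = 2 * (Real.sqrt ((9 / 8) ^ x0) * ((E1 nb r x0 d0 P).card : ℝ)) := by ring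
        _ ≤ 2 * (Fintype.card (V → Rot m) : ℝ) := mul_le_mul_of_nonneg_left h1 (by norm_num)
    rw [Real.exp_neg, mul_assoc, inv_mul_eq_div, mul_div_assoc', le_div_iff₀ hexp, mul_comm]
    exact h3
  have c2 : ∀ P A ρ0, ((E2 nb r w d0 (s * (N : ℝ)) P A ρ0).card : ℝ) ≤
      Real.exp (-(s * N)) * Ω := by
    intro P A ρ0
    have h1 := E2_card hm hU hr1 (by omega : w ≤ r + w + n0) d0 (s * (N : ℝ)) P A ρ0
    rw [Real.exp_neg, inv_mul_eq_div, le_div_iff₀ hexp, mul_comm, hΩ]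
    exact h1
  have hcard : ((univ.filter fun c : V → Rot m => ∃ S : Finset (V × Lab m), Thick nb c r S ∧
      NonCr c S ∧ η * (Fintype.card V : ℝ) < S.card).card : ℝ) ≤
      ∑ P ∈ PS, (2 : ℝ) ^ P.card * (((w : ℝ) + 1 + 2) * Real.exp (-(s * N)) * Ω) := by
    refine (Nat.cast_le.2 ((Finset.card_le_card hsub).trans Finset.card_biUnion_le)).trans ?_
    rw [Nat.cast_sum]
    refine Finset.sum_le_sum fun P _ => ?_
    refine (Nat.cast_le.2 (Finset.card_union_le _ _)).trans ?_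
    rw [Nat.cast_add]
    have h2 : (((P.powerset.biUnion fun A => (range (w + 1)).biUnion fun ρ0 =>
        E2 nb r w d0 (s * (N : ℝ)) P A ρ0).card : ℕ) : ℝ) ≤
        (2 : ℝ) ^ P.card * (((w : ℝ) + 1) * (Real.exp (-(s * N)) * Ω)) := by
      refine (Nat.cast_le.2 Finset.card_biUnion_le).trans ?_
      rw [Nat.cast_sum]
      have h3 : ∀ A ∈ P.powerset, ((((range (w + 1)).biUnion fun ρ0 =>
          E2 nb r w d0 (s * (N : ℝ)) P A ρ0).card : ℕ) : ℝ) ≤
          ((w : ℝ) + 1) * (Real.exp (-(s * N)) * Ω) := by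
        intro A _
        refine (Nat.cast_le.2 Finset.card_biUnion_le).trans ?_
        rw [Nat.cast_sum]
        refine (Finset.sum_le_sum fun ρ0 _ => c2 P A ρ0).trans ?_
        rw [Finset.sum_const, Finset.card_range, nsmul_eq_mul]
        push_cast
        exact le_refl _
      refine (Finset.sum_le_sum h3).trans ?_
      rw [Finset.sum_const, Finset.card_powerset, nsmul_eq_mul]
      push_cast
      exact le_refl _
    have h4 : (1 : ℝ) ≤ (2 : ℝ) ^ P.card := one_le_pow₀ (by norm_num)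
    have h5 : 0 ≤ 2 * Real.exp (-(s * N)) * Ω := by positivity
    have h6 : ((E1 nb r x0 d0 P).card : ℝ) ≤
        (2 : ℝ) ^ P.card * (2 * Real.exp (-(s * N)) * Ω) := by
      refine (c1 P).trans ?_
      nlinarith
    calc ((E1 nb r x0 d0 P).card : ℝ) + _
        ≤ (2 : ℝ) ^ P.card * (2 * Real.exp (-(s * N)) * Ω) +
          (2 : ℝ) ^ P.card * (((w : ℝ) + 1) * (Real.exp (-(s * N)) * Ω)) := add_le_add h6 h2
      _ = (2 : ℝ) ^ P.card * (((w : ℝ) + 1 + 2) * Real.exp (-(s * N)) * Ω) := by ring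
  have hent := ent (ι := V × Lab m) K z hz hz1
  have hcl : Fintype.card (V × Lab m) = (8 * m + 1) * N := by
    rw [Fintype.card_prod, card_lab, hN, mul_comm]
  rw [hcl] at hent
  rw [Nat.card_eq_fintype_card, Nat.card_eq_fintype_card, Fintype.card_subtype, ← hΩ]
  refine hcard.trans ?_
  rw [← Finset.sum_mul, hPS]
  have h7 : 0 ≤ ((w : ℝ) + 1 + 2) * Real.exp (-(s * N)) * Ω := by positivity
  refine (mul_le_mul_of_nonneg_right hent h7).trans ?_
  have h8 := mul_le_mul_of_nonneg_right hpar hΩ0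
  push_cast at h8 ⊢
  calc _ = ((w : ℝ) + 1 + 2) * Real.exp (-(s * N)) * (z⁻¹ ^ K * (1 + 2 * z) ^ ((8 * m + 1) * N)) *
        Ω := by ring
    _ ≤ δ * Ω := h8

end URW
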