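import Mathlib

/-!
# URW Q/Mart (package, 1.5 h): adapted readings of a random function; a product (martingale) bound

`c : V → C` is a uniformly random function. A READING is a map `pos c t ∈ V`; it is ADAPTED if `pos c t`
depends only on the values of `c` at `pos c 0, …, pos c (t - 1)`. `Vis pos c t` is the set of the vertices
read before `t`; `ov U c ω` is `c` on `U` and `ω` elsewhere; `Meas pos t f`: `f c` depends only on what
has been read before `t`.

PROOF of `resample`. The map `(c, ω) ↦ (ov (Vis c t) c ω, ov (Vis c t) ω c)` is an involution of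
`(V → C) × (V → C)`: with `c' = ov (Vis c t) c ω` the functions `c` and `c'` agree on `Vis c t`, so
`Vis c' t = Vis c t` (`vis_congr`). Hence `∑ c, ∑ ω, g (ov (Vis c t) c ω) = ∑ c, ∑ ω, g c`
(`Finset.sum_product'`, `Equiv.sum_comp` for `Function.Involutive.toPerm`).

PROOF of `mart_step`: by `resample` for `g c = f c * u c`,
`N * ∑ c, f c * u c = ∑ c, ∑ ω, f (c') * u (c') = ∑ c, f c * ∑ ω, u (c') ≤ ∑ c, f c * N`, `N = card (V → C) > 0`
(if `V → C` is empty everything is `0`).

PROOF of `mart`: induction on `M`: `∏ j ∈ range M, u j` is nonnegative and `Meas (τ M)` (each `u j` is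
`Meas (τ (j + 1))`, and `Meas` is monotone in the time, `τ` is monotone); apply `mart_step` with
`f = ∏ j ∈ range M, u j`, `u = u M`. For `M = 0`: `∑ c, 1 = card`.

PROOF of `mart_markov` (Markov): for `c` in the set, `K ≤ ∏ j ∈ range M, u j c`.
-/

set_option autoImplicit false

open Finset

namespace URW

variable {V C : Type} [Fintype V] [DecidableEq V] [Fintype C] [DecidableEq C]

/-- `pos c t` depends only on the values of `c` read before `t`. -/
def Adapt (pos : (V → C) → ℕ → V) : Prop :=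
  ∀ (c c' : V → C) (t : ℕ), (∀ s < t, c' (pos c s) = c (pos c s)) → pos c' t = pos c t

/-- The vertices read before `t`. -/
def Vis (pos : (V → C) → ℕ → V) (c : V → C) (t : ℕ) : Finset V := (range t).image (pos c)

/-- `c` on `U` and `ω` elsewhere. -/
def ov (U : Finset V) (c ω : V → C) : V → C := fun v => if v ∈ U then c v else ω v

/-- `f c` depends only on the values of `c` read before `t`. -/
def Meas {R : Type*} (pos : (V → C) → ℕ → V) (t : ℕ) (f : (V → C) → R) : Prop :=
  ∀ c c' : V → C, (∀ s < t, c' (pos c s) = c (pos c s)) → f c' = f c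

theorem meas_mono {R : Type*} {pos : (V → C) → ℕ → V} {t t' : ℕ} (h : t ≤ t') {f : (V → C) → R}
    (hf : Meas pos t f) : Meas pos t' f := by
  intro c c' hc
  exact hf c c' fun s hs => hc s (by omega)

theorem vis_mono (pos : (V → C) → ℕ → V) (c : V → C) {t t' : ℕ} (h : t ≤ t') :
    Vis pos c t ⊆ Vis pos c t' := by
  unfold Vis
  exact image_subset_image (range_mono h)

theorem ov_eq (pos : (V → C) → ℕ → V) (c ω : V → C) (t : ℕ) :
    ∀ s < t, ov (Vis pos c t) c ω (pos c s) = c (pos c s) := by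
  intro s hs
  unfold ov
  rw [if_pos]
  exact mem_image_of_mem _ (mem_range.2 hs)

theorem pos_congr {pos : (V → C) → ℕ → V} (hp : Adapt pos) {c c' : V → C} {t : ℕ}
    (h : ∀ s < t, c' (pos c s) = c (pos c s)) : ∀ s ≤ t, pos c' s = pos c s := by
  intro s hs
  exact hp c c' s fun r hr => h r (by omega)

theorem vis_congr {pos : (V → C) → ℕ → V} (hp : Adapt pos) {c c' : V → C} {t : ℕ}
    (h : ∀ s < t, c' (pos c s) = c (pos c s)) : ∀ s ≤ t + 1, Vis pos c' s = Vis pos c s := by
  intro s hs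
  unfold Vis
  refine image_congr fun r hr => ?_
  have hr' : r < s := by simpa using hr
  exact pos_congr hp h r (by omega)

theorem resample {pos : (V → C) → ℕ → V} (hp : Adapt pos) (t : ℕ) (g : (V → C) → ℝ) :
    ∑ c, ∑ ω, g (ov (Vis pos c t) c ω) = (Fintype.card (V → C) : ℝ) * ∑ c, g c := by
  have hvis : ∀ c ω : V → C, Vis pos (ov (Vis pos c t) c ω) t = Vis pos c t := fun c ω =>
    vis_congr hp (ov_eq pos c ω t) t (by omega)
  let Φ : (V → C) × (V → C) → (V → C) × (V → C) := fun p =>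
    (ov (Vis pos p.1 t) p.1 p.2, ov (Vis pos p.1 t) p.2 p.1)
  have hinv : Function.Involutive Φ := by
    rintro ⟨c, ω⟩
    have h1 := hvis c ω
    apply Prod.ext
    · funext v
      change ov (Vis pos (ov (Vis pos c t) c ω) t) (ov (Vis pos c t) c ω)
        (ov (Vis pos c t) ω c) v = c v
      rw [h1]
      unfold ov
      by_cases hv : v ∈ Vis pos c t
      · rw [if_pos hv, if_pos hv]
      · rw [if_neg hv, if_neg hv]
    · funext v
      change ov (Vis pos (ov (Vis pos c t) c ω) t) (ov (Vis pos c t) ω c)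
        (ov (Vis pos c t) c ω) v = ω v
      rw [h1]
      unfold ov
      by_cases hv : v ∈ Vis pos c t
      · rw [if_pos hv, if_pos hv]
      · rw [if_neg hv, if_neg hv]
  have h2 : ∑ p : (V → C) × (V → C), g (Φ p).1 = ∑ p : (V → C) × (V → C), g p.1 :=
    Equiv.sum_comp (hinv.toPerm) fun p : (V → C) × (V → C) => g p.1
  rw [Fintype.sum_prod_type, Fintype.sum_prod_type] at h2
  change ∑ c, ∑ ω, g (ov (Vis pos c t) c ω) = _ at h2
  rw [h2]
  simp only [sum_const, card_univ, nsmul_eq_mul]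
  rw [← mul_sum]

theorem mart_step {pos : (V → C) → ℕ → V} (hp : Adapt pos) (t : ℕ) (f u : (V → C) → ℝ)
    (hf : ∀ c, 0 ≤ f c) (hfm : Meas pos t f)
    (hu : ∀ c, ∑ ω, u (ov (Vis pos c t) c ω) ≤ (Fintype.card (V → C) : ℝ)) :
    ∑ c, f c * u c ≤ ∑ c, f c := by
  have h1 := resample hp t fun c => f c * u c
  have h2 : ∀ c ω : V → C, f (ov (Vis pos c t) c ω) = f c := fun c ω =>
    hfm c _ (ov_eq pos c ω t)
  have h3 : ∑ c, ∑ ω, f (ov (Vis pos c t) c ω) * u (ov (Vis pos c t) c ω)
      ≤ ∑ c, f c * (Fintype.card (V → C) : ℝ) := by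
    refine sum_le_sum fun c _ => ?_
    have h4 : ∑ ω, f (ov (Vis pos c t) c ω) * u (ov (Vis pos c t) c ω)
        = f c * ∑ ω, u (ov (Vis pos c t) c ω) := by
      rw [mul_sum]
      exact sum_congr rfl fun ω _ => by rw [h2]
    rw [h4]
    exact mul_le_mul_of_nonneg_left (hu c) (hf c)
  rw [h1, ← sum_mul, mul_comm] at h3
  rcases isEmpty_or_nonempty (V → C) with he | he
  · simp
  · have hN : 0 < (Fintype.card (V → C) : ℝ) := by exact_mod_cast Fintype.card_pos
    exact le_of_mul_le_mul_right h3 hN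

theorem mart {pos : (V → C) → ℕ → V} (hp : Adapt pos) (τ : ℕ → ℕ) (hτ : Monotone τ)
    (u : ℕ → (V → C) → ℝ) (h0 : ∀ j c, 0 ≤ u j c) (hm : ∀ j, Meas pos (τ (j + 1)) (u j))
    (hu : ∀ j c, ∑ ω, u j (ov (Vis pos c (τ j)) c ω) ≤ (Fintype.card (V → C) : ℝ)) (M : ℕ) :
    ∑ c, ∏ j ∈ range M, u j c ≤ (Fintype.card (V → C) : ℝ) := by
  induction M with
  | zero => simp
  | succ M ih =>
    simp only [prod_range_succ]
    refine (mart_step hp (τ M) (fun c => ∏ j ∈ range M, u j c) (u M) ?_ ?_ (hu M)).trans ih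
    · exact fun c => prod_nonneg fun j _ => h0 j c
    · intro c c' hc
      refine prod_congr rfl fun j hj => ?_
      exact meas_mono (hτ (Nat.succ_le_of_lt (mem_range.1 hj))) (hm j) c c' hc

open Classical in
theorem mart_markov {pos : (V → C) → ℕ → V} (hp : Adapt pos) (τ : ℕ → ℕ) (hτ : Monotone τ)
    (u : ℕ → (V → C) → ℝ) (h0 : ∀ j c, 0 ≤ u j c) (hm : ∀ j, Meas pos (τ (j + 1)) (u j))
    (hu : ∀ j c, ∑ ω, u j (ov (Vis pos c (τ j)) c ω) ≤ (Fintype.card (V → C) : ℝ)) (M : ℕ)
    (E : Finset (V → C)) (K : ℝ) (hE : ∀ c ∈ E, K ≤ ∏ j ∈ range M, u j c) :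
    K * (E.card : ℝ) ≤ (Fintype.card (V → C) : ℝ) := by
  have h1 : K * (E.card : ℝ) = ∑ _c ∈ E, K := by
    rw [sum_const, nsmul_eq_mul, mul_comm]
  have h2 : ∑ c ∈ E, ∏ j ∈ range M, u j c ≤ ∑ c, ∏ j ∈ range M, u j c :=
    sum_le_sum_of_subset_of_nonneg (subset_univ _) fun c _ _ => prod_nonneg fun j _ => h0 j c
  rw [h1]
  exact (sum_le_sum hE).trans (h2.trans (mart hp τ hτ u h0 hm hu M))

/-- Resampling the value at one vertex. -/
theorem sum_update (v : V) (g : (V → C) → ℝ) :
    (Fintype.card C : ℝ) * ∑ ω, g ω = ∑ t, ∑ ω, g (Function.update ω v t) := by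
  let Φ : C × (V → C) → C × (V → C) := fun p => (p.2 v, Function.update p.2 v p.1)
  have hinv : Function.Involutive Φ := by
    rintro ⟨t, ω⟩
    simp [Φ]
  have h2 : ∑ p : C × (V → C), g (Φ p).2 = ∑ p : C × (V → C), g p.2 :=
    Equiv.sum_comp (hinv.toPerm) fun p : C × (V → C) => g p.2
  rw [Fintype.sum_prod_type, Fintype.sum_prod_type] at h2
  change ∑ t, ∑ ω, g (Function.update ω v t) = _ at h2
  rw [h2]
  simp only [sum_const, card_univ, nsmul_eq_mul]

end URW
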