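import Pool.Agent.URW.Q.Lab

/-!
# URW Q/Run (package, 1.5 h): the runs of `c`, in terms of arrival darts

An ARRIVAL DART `(v, a)` stands for `arriving at v along a`; the run of `c` leaves `v` along `a + c v`
(`out`) and arrives at `nb v (a + c v)` along `a + c v` (`stp`). So `nxt (out p) = out (stp p)`.

PROOFS. A run is a walk with the labels `out`, consecutive labels differ by `c v ∈ Rot m` (`cd ≥ m ≥ 3`), so
it is nice.
* `stp_walk`: induction on `j` from the right, or show by induction on `j` for all `p`:
  with `L p 0 = []`, `L p (j + 1) = (out c p).2 :: L (stp p) j`: nice, `walk nb p.1 (L p j) = (stp^[j] p).1`,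
  `length = j`.
* `stp_walk_back`: the reversed word (`Invol`: `nb (nb v i) i = v`); its first label is the arrival label
  `(stp^[j] p).2`. Induction on `j` using `Function.iterate_succ_apply'`: the word of length `j + 1` is
  `(stp^[j+1] p).2 :: (the word for j)`; niceness: `(stp^[j+1] p).2 = (stp^[j] p).2 + c (..)`.
* `stp_inj_vertex`: for `j ≤ k`: with `q = stp^[j] p`, `walk q.1 [] = walk q.1 (L q (k - j))`, `Uniq`: the
  words have equal length.
* `uniq_card`: for `k ≤ n` take the nice word of length `k` of alternating labels `0, (m : Lab m), 0, …`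
  (`cd m = m ≥ 3`): the ends are distinct by `Uniq` (the lengths differ).
-/

set_option autoImplicit false

open Finset

namespace URW

variable {m : ℕ} {V : Type}

/-- The dart on which the run leaves. -/
def out (c : V → Rot m) (p : V × Lab m) : V × Lab m := (p.1, p.2 + (c p.1).1)

/-- The next arrival dart. -/
def stp (nb : V → Lab m → V) (c : V → Rot m) (p : V × Lab m) : V × Lab m :=
  (nb p.1 (p.2 + (c p.1).1), p.2 + (c p.1).1)

theorem nxt_out (nb : V → Lab m → V) (c : V → Rot m) (p : V × Lab m) :
    nxt nb c (out c p) = out c (stp nb c p) := rfl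

theorem nxt_iter_out (nb : V → Lab m → V) (c : V → Rot m) (p : V × Lab m) (j : ℕ) :
    (nxt nb c)^[j] (out c p) = out c ((stp nb c)^[j] p) := by
  induction j with
  | zero => rfl
  | succ j ih => rw [Function.iterate_succ_apply', Function.iterate_succ_apply', ih, nxt_out]

theorem out_inj (c : V → Rot m) : Function.Injective (out c) := by
  rintro ⟨v, i⟩ ⟨v', i'⟩ h
  have h1 : v = v' := congrArg Prod.fst h
  subst h1
  have h2 : i + (c v).1 = i' + (c v).1 := congrArg Prod.snd h
  rw [add_right_cancel h2]

theorem out_surj (c : V → Rot m) : Function.Surjective (out c) := by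
  rintro ⟨v, i⟩
  refine ⟨(v, i - (c v).1), ?_⟩
  change (v, i - (c v).1 + (c v).1) = (v, i)
  rw [sub_add_cancel]

theorem nxt_inj {nb : V → Lab m → V} (hI : Invol nb) (c : V → Rot m) :
    Function.Injective (nxt nb c) := by
  rintro ⟨v, i⟩ ⟨v', i'⟩ h
  have h1 : nb v i = nb v' i' := congrArg Prod.fst h
  have h2 : i + (c (nb v i)).1 = i' + (c (nb v' i')).1 := congrArg Prod.snd h
  rw [h1] at h2
  have h3 : i = i' := add_right_cancel h2
  subst h3
  have h4 : nb (nb v i) i = nb (nb v' i) i := congrArg (fun x => nb x i) h1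
  rw [hI, hI] at h4
  rw [h4]

theorem stp_inj {nb : V → Lab m → V} (hI : Invol nb) (c : V → Rot m) :
    Function.Injective (stp nb c) := by
  rintro ⟨v, i⟩ ⟨v', i'⟩ h
  have h1 : nb v (i + (c v).1) = nb v' (i' + (c v').1) := congrArg Prod.fst h
  have h2 : i + (c v).1 = i' + (c v').1 := congrArg Prod.snd h
  rw [← h2] at h1
  have h4 : nb (nb v (i + (c v).1)) (i + (c v).1) = nb (nb v' (i + (c v).1)) (i + (c v).1) :=
    congrArg (fun x => nb x (i + (c v).1)) h1
  rw [hI, hI] at h4
  subst h4
  rw [add_right_cancel h2]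

/-- The run of length `j` is a nice walk with first label `(out c p).2`. -/
theorem stp_walk (hm : 3 ≤ m) (nb : V → Lab m → V) (c : V → Rot m) (p : V × Lab m) (j : ℕ) :
    ∃ l : List (Lab m), NiceW l ∧ l.length = j ∧ walk nb p.1 l = ((stp nb c)^[j] p).1 ∧
      ∀ i ∈ l.head?, i = p.2 + (c p.1).1 := by
  induction j generalizing p with
  | zero =>
    refine ⟨[], List.isChain_nil, rfl, rfl, ?_⟩
    intro i hi
    simp at hi
  | succ j ih =>
    obtain ⟨l, h1, h2, h3, h4⟩ := ih (stp nb c p)
    refine ⟨(p.2 + (c p.1).1) :: l, ?_, ?_, ?_, ?_⟩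
    · refine List.isChain_cons.2 ⟨fun y hy => ?_, h1⟩
      rw [h4 y hy]
      have e : p.2 + (c p.1).1 - ((stp nb c p).2 + (c (stp nb c p).1).1) =
          -(c (stp nb c p).1).1 := by
        change p.2 + (c p.1).1 - (p.2 + (c p.1).1 + (c (stp nb c p).1).1) = _
        rw [sub_add_cancel_left]
      rw [e, cd_neg]
      exact hm.trans (c (stp nb c p).1).2
    · rw [List.length_cons, h2]
    · rw [Function.iterate_succ_apply]
      exact h3
    · intro i hi
      rw [List.head?_cons, Option.mem_some_iff] at hi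
      exact hi.symm

/-- The reversed run is a nice walk with first label the arrival label. -/
theorem stp_walk_back (hm : 3 ≤ m) {nb : V → Lab m → V} (hI : Invol nb) (c : V → Rot m)
    (p : V × Lab m) (j : ℕ) :
    ∃ l : List (Lab m), NiceW l ∧ l.length = j ∧ walk nb ((stp nb c)^[j] p).1 l = p.1 ∧
      ∀ i ∈ l.head?, i = ((stp nb c)^[j] p).2 := by
  induction j with
  | zero =>
    refine ⟨[], List.isChain_nil, rfl, rfl, ?_⟩
    intro i hi
    simp at hi
  | succ j ih =>
    obtain ⟨l, h1, h2, h3, h4⟩ := ih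
    rw [Function.iterate_succ_apply']
    set q := (stp nb c)^[j] p with hq
    refine ⟨(stp nb c q).2 :: l, ?_, ?_, ?_, ?_⟩
    · refine List.isChain_cons.2 ⟨fun y hy => ?_, h1⟩
      rw [h4 y hy]
      have e : (stp nb c q).2 - q.2 = (c q.1).1 := by
        change q.2 + (c q.1).1 - q.2 = _
        rw [add_sub_cancel_left]
      rw [e]
      exact hm.trans (c q.1).2
    · rw [List.length_cons, h2]
    · change walk nb (nb (nb q.1 (q.2 + (c q.1).1)) (q.2 + (c q.1).1)) l = p.1
      rw [hI]
      exact h3
    · intro i hi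
      rw [List.head?_cons, Option.mem_some_iff] at hi
      exact hi.symm

private theorem run_inj_aux (hm : 3 ≤ m) {nb : V → Lab m → V} {n : ℕ} (hU : Uniq nb n)
    (c : V → Rot m) (p : V × Lab m) {j k : ℕ} (hjk : j ≤ k) (hk : k ≤ n)
    (h : ((stp nb c)^[j] p).1 = ((stp nb c)^[k] p).1) : j = k := by
  obtain ⟨l, h1, h2, h3, -⟩ := stp_walk hm nb c ((stp nb c)^[j] p) (k - j)
  rw [← Function.iterate_add_apply, Nat.sub_add_cancel hjk, ← h] at h3
  have h4 := hU _ l [] h1 List.isChain_nil (by omega) (Nat.zero_le _) h3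
  rw [h4, List.length_nil] at h2
  omega

theorem stp_inj_vertex (hm : 3 ≤ m) {nb : V → Lab m → V} {n : ℕ} (hU : Uniq nb n)
    (c : V → Rot m) (p : V × Lab m) {j k : ℕ} (hj : j ≤ n) (hk : k ≤ n)
    (h : ((stp nb c)^[j] p).1 = ((stp nb c)^[k] p).1) : j = k := by
  rcases le_total j k with hjk | hjk
  · exact run_inj_aux hm hU c p hjk hk h
  · exact (run_inj_aux hm hU c p hjk hj h.symm).symm

/-- Two positions `j`, `k` of a run: there is a nice walk from the first to the second, which leaves
along one of the two labels used there. -/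
theorem run_walk (hm : 3 ≤ m) {nb : V → Lab m → V} (hI : Invol nb) (c : V → Rot m)
    (p : V × Lab m) (j k r : ℕ) (hj : j ≤ r) (hk : k ≤ r) :
    ∃ l : List (Lab m), NiceW l ∧ l.length ≤ r ∧
      walk nb ((stp nb c)^[j] p).1 l = ((stp nb c)^[k] p).1 ∧
      ∀ i ∈ l.head?, i = ((stp nb c)^[j] p).2 ∨
        i = ((stp nb c)^[j] p).2 + (c ((stp nb c)^[j] p).1).1 := by
  rcases le_total j k with hjk | hjk
  · obtain ⟨l, h1, h2, h3, h4⟩ := stp_walk hm nb c ((stp nb c)^[j] p) (k - j)
    rw [← Function.iterate_add_apply, Nat.sub_add_cancel hjk] at h3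
    exact ⟨l, h1, by omega, h3, fun i hi => Or.inr (h4 i hi)⟩
  · obtain ⟨l, h1, h2, h3, h4⟩ := stp_walk_back hm hI c ((stp nb c)^[k] p) (j - k)
    rw [← Function.iterate_add_apply, Nat.sub_add_cancel hjk] at h3 h4
    exact ⟨l, h1, by omega, h3, fun i hi => Or.inl (h4 i hi)⟩

theorem uniq_mono {nb : V → Lab m → V} {n n' : ℕ} (h : n ≤ n') (hU : Uniq nb n') : Uniq nb n := by
  intro v l l' h1 h2 h3 h4 h5
  exact hU v l l' h1 h2 (h3.trans h) (h4.trans h) h5

/-- the alternating labels -/
private def altL (m : ℕ) (k : ℕ) : Lab m := if k % 2 = 0 then 0 else ((m : ℕ) : Lab m)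

/-- the alternating words -/
private def altW (m : ℕ) : ℕ → List (Lab m)
  | 0 => []
  | k + 1 => altL m k :: altW m k

private theorem altW_length (k : ℕ) : (altW m k).length = k := by
  induction k with
  | zero => rfl
  | succ k ih => rw [altW, List.length_cons, ih]

private theorem altW_nice (hm : 3 ≤ m) (k : ℕ) : NiceW (altW m k) := by
  have hc : cd ((m : ℕ) : Lab m) = m := by
    have := cd_intCast (m := m) (m : ℤ) (by rw [Int.natAbs_natCast]; omega)
    rw [Int.cast_natCast, Int.natAbs_natCast] at this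
    exact this
  induction k with
  | zero => exact List.isChain_nil
  | succ k ih =>
    refine List.isChain_cons.2 ⟨fun y hy => ?_, ih⟩
    cases k with
    | zero => simp [altW] at hy
    | succ k =>
      rw [altW, List.head?_cons, Option.mem_some_iff] at hy
      rw [← hy]
      unfold altL
      rcases Nat.mod_two_eq_zero_or_one k with h | h
      · have h' : ¬ (k + 1) % 2 = 0 := by omega
        rw [if_neg h', if_pos h, sub_zero, hc]
        exact hm
      · have h' : (k + 1) % 2 = 0 := by omega
        have h'' : ¬ k % 2 = 0 := by omega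
        rw [if_pos h', if_neg h'', zero_sub, cd_neg, hc]
        exact hm

theorem uniq_card (hm : 3 ≤ m) [Fintype V] [Nonempty V] {nb : V → Lab m → V} {n : ℕ}
    (hU : Uniq nb n) : n + 1 ≤ Fintype.card V := by
  obtain ⟨v⟩ := (inferInstance : Nonempty V)
  have hinj : Function.Injective fun k : Fin (n + 1) => walk nb v (altW m k) := by
    intro k k' h
    have h1 := hU v _ _ (altW_nice hm k) (altW_nice hm k')
      (by rw [altW_length]; have := k.2; omega) (by rw [altW_length]; have := k'.2; omega) h
    have h2 := congrArg List.length h1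
    rw [altW_length, altW_length] at h2
    exact Fin.ext h2
  have := Fintype.card_le_of_injective _ hinj
  rwa [Fintype.card_fin] at this

end URW
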