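import Pool.Agent.URW.Q.Ker
import Pool.Agent.URW.Q.Run
import Pool.Agent.URW.Q.Mart

/-!
# URW Q/Hit (package, 1.5 h): a fresh run has the law of the nice walk until it hits the visited set

`Hits nb Y T c k p`: the run of `c` from the arrival dart `p` hits `Y` within `k` steps, and the first
arrival dart at `Y` is in `T`.

PROOF of `hit_count`. Show more generally, by induction on `k`, for all `U`, `c`, `x ∉ U`, `a`:
if `R : V → Prop`-free hypothesis
  (H) for every nice nonempty word `l` with `l.length ≤ k` whose first label is `a + t`, `t ∈ Rot m`: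
      `walk nb x l ∈ U → walk nb x l ∈ Y`
holds and `k ≤ n`, then
  `∑ ω, (if Hits nb Y T (ov U c ω) k (x, a) then 1 else 0) = card (V → Rot m) * avg (fun t => ret nb Y 1_T k (x, a + t))`.
`k = 0`: both sides `0`. Step: by `sum_update` at `v = x` (`card (Rot m) * ∑ ω, g ω = ∑ t, ∑ ω, g (update ω x t)`),
and `ov U c (update ω x t) = ov (insert x U) (update c x t) ω` (as `x ∉ U`); under this function the run goes
from `(x, a)` to `(y, a + t)`, `y = nb x (a + t)`. If `y ∈ Y`: the summand is `1_T (y, a + t)` for all `ω`.
If `y ∉ Y`: `y ∉ U` by (H) for `l = [a + t]`, and `y ≠ x` by `Uniq` (`[a + t]` and `[]`), so `y ∉ insert x U`, and (H)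
holds for `insert x U`, `y`, `a + t`, `k`: for a nice `l'` with first label `a + t + t'`, the word `(a + t) :: l'` is
nice (`cd t' ≥ m ≥ 3`, `cd_neg`), `walk x ((a + t) :: l') = walk y l'` and it is not `x` by `Uniq`
(`(a + t) :: l'` and `[]`), length `≤ k + 1 ≤ n`. Apply the induction hypothesis.
For `Y = insert x U` the hypothesis (H) is clear.
-/

set_option autoImplicit false

open Finset

namespace URW

variable {m : ℕ} {V : Type} [Fintype V] [DecidableEq V]

/-- The run of `c` from `p` hits `Y` within `k` steps and its first arrival dart at `Y` is in `T`. -/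
def Hits (nb : V → Lab m → V) (Y : Finset V) (T : Finset (V × Lab m)) (c : V → Rot m) :
    ℕ → V × Lab m → Prop
  | 0, _ => False
  | k + 1, p => ((stp nb c p).1 ∈ Y ∧ stp nb c p ∈ T) ∨
      ((stp nb c p).1 ∉ Y ∧ Hits nb Y T c k (stp nb c p))

/-- `Hits` depends only on the values of `c` at the first `k` vertices of the run. -/
theorem hits_congr (nb : V → Lab m → V) (Y : Finset V) (T : Finset (V × Lab m))
    (c c' : V → Rot m) (k : ℕ) (p : V × Lab m)
    (h : ∀ j < k, c' ((stp nb c)^[j] p).1 = c ((stp nb c)^[j] p).1) :
    Hits nb Y T c' k p ↔ Hits nb Y T c k p := by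
  induction k generalizing p with
  | zero => exact Iff.rfl
  | succ k ih =>
    have h0 : c' p.1 = c p.1 := by simpa using h 0 (Nat.succ_pos k)
    have hs : stp nb c' p = stp nb c p := by simp only [stp, h0]
    have ih' : Hits nb Y T c' k (stp nb c p) ↔ Hits nb Y T c k (stp nb c p) := by
      apply ih
      intro j hj
      have := h (j + 1) (Nat.succ_lt_succ hj)
      simpa only [Function.iterate_succ_apply] using this
    simp only [Hits, hs, ih']

theorem hits_iff (nb : V → Lab m → V) (Y : Finset V) (T : Finset (V × Lab m))
    (c : V → Rot m) (k : ℕ) (p : V × Lab m) (h : Hits nb Y T c k p) :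
    ∃ j, 1 ≤ j ∧ j ≤ k ∧ (stp nb c)^[j] p ∈ T ∧ ((stp nb c)^[j] p).1 ∈ Y := by
  induction k generalizing p with
  | zero => exact absurd h (by simp [Hits])
  | succ k ih =>
    rcases h with ⟨h1, h2⟩ | ⟨_, h2⟩
    · exact ⟨1, le_rfl, by omega, by simpa using h2, by simpa using h1⟩
    · obtain ⟨j, hj1, hj2, hj3, hj4⟩ := ih _ h2
      refine ⟨j + 1, by omega, by omega, ?_, ?_⟩
      · simpa only [Function.iterate_succ_apply] using hj3
      · simpa only [Function.iterate_succ_apply] using hj4

private theorem cd_neg_aux (i : Lab m) : cd (-i) = cd i := by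
  unfold cd
  exact ZMod.natAbs_valMinAbs_neg i

private theorem nice_cons (hm : 3 ≤ m) (b : Lab m) (t : Rot m) (l : List (Lab m))
    (h : NiceW ((b + t.1) :: l)) : NiceW (b :: (b + t.1) :: l) := by
  unfold NiceW at h ⊢
  refine List.IsChain.cons_cons ?_ h
  have h1 : b - (b + t.1) = -t.1 := by ring
  rw [h1, cd_neg_aux]
  exact hm.trans t.2

private theorem ov_update (U : Finset V) (c ω : V → Rot m) (x : V) (hx : x ∉ U) (t : Rot m) :
    ov U c (Function.update ω x t) = ov (insert x U) (Function.update c x t) ω := by
  funext v
  unfold ov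
  by_cases hv : v = x
  · subst hv
    simp [hx]
  · by_cases hvU : v ∈ U
    · simp [hv, hvU]
    · simp [hv, hvU]

private theorem card_rot_ne (hm : 1 ≤ m) : (Fintype.card (Rot m) : ℝ) ≠ 0 := by
  intro h
  have h1 := avg_const hm (1 : ℝ)
  unfold avg at h1
  rw [h] at h1
  simp at h1

open Classical in
private theorem hit_gen (hm : 3 ≤ m) (nb : V → Lab m → V) {n : ℕ} (hU : Uniq nb n)
    (Y : Finset V) (T : Finset (V × Lab m)) (k : ℕ) :
    ∀ (U : Finset V) (c : V → Rot m) (x : V), x ∉ U → ∀ (a : Lab m), k ≤ n →
      (∀ (t : Rot m) (l : List (Lab m)), NiceW ((a + t.1) :: l) →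
        ((a + t.1) :: l).length ≤ k → walk nb x ((a + t.1) :: l) ∈ U →
        walk nb x ((a + t.1) :: l) ∈ Y) →
      ∑ ω : V → Rot m, (if Hits nb Y T (ov U c ω) k (x, a) then (1 : ℝ) else 0) =
        (Fintype.card (V → Rot m) : ℝ) *
          avg fun t => ret nb Y (fun e => if e ∈ T then 1 else 0) k (x, a + t.1) := by
  induction k with
  | zero =>
    intro U c x hx a hk H
    simp [Hits, ret, avg]
  | succ k ih =>
    intro U c x hx a hk H
    have hR := card_rot_ne (m := m) (by omega)
    have key : (Fintype.card (Rot m) : ℝ) *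
        ∑ ω : V → Rot m, (if Hits nb Y T (ov U c ω) (k + 1) (x, a) then (1 : ℝ) else 0) =
        ∑ t : Rot m, (Fintype.card (V → Rot m) : ℝ) *
          ret nb Y (fun e => if e ∈ T then 1 else 0) (k + 1) (x, a + t.1) := by
      rw [sum_update x]
      refine Finset.sum_congr rfl fun t _ => ?_
      have hst : ∀ ω : V → Rot m,
          stp nb (ov (insert x U) (Function.update c x t) ω) (x, a) =
            (nb x (a + t.1), a + t.1) := by
        intro ω
        simp [stp, ov]
      by_cases hy : nb x (a + t.1) ∈ Y
      · have h1 : ∀ ω : V → Rot m, (Hits nb Y T (ov U c (Function.update ω x t)) (k + 1) (x, a) ↔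
            (nb x (a + t.1), a + t.1) ∈ T) := by
          intro ω
          rw [ov_update U c ω x hx t]
          simp only [Hits, hst, hy, true_and, not_true_eq_false, false_and, or_false]
        simp only [h1, ret, hy, if_true]
        rw [Finset.sum_const, Finset.card_univ, nsmul_eq_mul]
      · have h1 : ∀ ω : V → Rot m, (Hits nb Y T (ov U c (Function.update ω x t)) (k + 1) (x, a) ↔
            Hits nb Y T (ov (insert x U) (Function.update c x t) ω) k
              (nb x (a + t.1), a + t.1)) := by
          intro ω
          rw [ov_update U c ω x hx t]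
          simp only [Hits, hst, hy, false_and, not_false_eq_true, true_and, false_or]
        have hnice1 : NiceW [a + t.1] := by
          unfold NiceW
          simp
        have hw1 : walk nb x [a + t.1] = nb x (a + t.1) := rfl
        have hyU : nb x (a + t.1) ∉ U := by
          intro hmem
          exact hy (H t [] hnice1 (by simp) hmem)
        have hyx : nb x (a + t.1) ≠ x := by
          intro he
          have := hU x [a + t.1] [] hnice1 (by unfold NiceW; simp) (by simp; omega) (by simp)
            (by rw [hw1, he]; rfl)
          simp at this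
        have hyI : nb x (a + t.1) ∉ insert x U := by
          rw [Finset.mem_insert]
          push Not
          exact ⟨hyx, hyU⟩
        have hrec := ih (insert x U) (Function.update c x t) (nb x (a + t.1)) hyI (a + t.1)
          (by omega) (by
            intro t' l hn hl hmem
            have hn' := nice_cons hm (a + t.1) t' l hn
            have hlen : ((a + t.1) :: (a + t.1 + t'.1) :: l).length ≤ k + 1 := by
              simp only [List.length_cons] at hl ⊢
              omega
            have hww : walk nb (nb x (a + t.1)) ((a + t.1 + t'.1) :: l) =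
                walk nb x ((a + t.1) :: (a + t.1 + t'.1) :: l) := rfl
            rw [hww] at hmem ⊢
            rcases Finset.mem_insert.1 hmem with he | hmU
            · exfalso
              have := hU x ((a + t.1) :: (a + t.1 + t'.1) :: l) [] hn'
                (by unfold NiceW; simp) (by omega) (by simp) (by rw [he]; rfl)
              simp at this
            · exact H t _ hn' hlen hmU)
        simp only [h1, ret, hy, if_false]
        exact hrec
    have h2 : ∑ ω : V → Rot m, (if Hits nb Y T (ov U c ω) (k + 1) (x, a) then (1 : ℝ) else 0) =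
        (Fintype.card (Rot m) : ℝ)⁻¹ * ∑ t : Rot m, (Fintype.card (V → Rot m) : ℝ) *
          ret nb Y (fun e => if e ∈ T then 1 else 0) (k + 1) (x, a + t.1) := by
      rw [← key]
      field_simp
    rw [h2]
    unfold avg
    rw [← Finset.mul_sum]
    ring

open Classical in
theorem hit_count (hm : 3 ≤ m) (nb : V → Lab m → V) {n : ℕ} (hU : Uniq nb n) (U : Finset V)
    (c : V → Rot m) (x : V) (hx : x ∉ U) (a : Lab m) (T : Finset (V × Lab m)) (k : ℕ)
    (hk : k ≤ n) :
    ∑ ω : V → Rot m, (if Hits nb (insert x U) T (ov U c ω) k (x, a) then (1 : ℝ) else 0) =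
      (Fintype.card (V → Rot m) : ℝ) *
        avg fun t => ret nb (insert x U) (fun e => if e ∈ T then 1 else 0) k (x, a + t.1) := by
  refine hit_gen hm nb hU (insert x U) T k U c x hx a hk ?_
  intro t l _ _ hmem
  exact Finset.mem_insert_of_mem hmem

end URW
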