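import Pool.Agent.URW.Q.Read
import Pool.Agent.URW.Q.Hit

/-!
# URW Q/Blk (package, 2 h): the probability that no test succeeds

Pieces `P 0, P 1, …` of length `r` (a multiple of `w + 1`), the first `MA` of them are the A pieces.
`tgt`: the arrival darts `(y, a)` which cross an A piece at `y`. A TEST TIME `t` (`Tst`): all A pieces are read,
the next `w` steps stay in the piece, and the vertex at time `t` is FRESH. `qq` is the conditional probability
that the run hits the visited set within `w` steps and first in `tgt`.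

PROOF of `blk_count`. `τ j = ρ0 + j * (w + 1)`, and `u j c = if Tst c (τ j) then (if Hits … then 0 else
exp (qq c (τ j))) else 1`. `0 ≤ u`. MEASURABILITY: `Vis c t`, `rd c t`, `Tst c t`, `qq c t` and (for `MA * r ≤ t`)
`tgt c` depend only on what is read before `t` (`tgt_congr`: an A piece `i < MA`, `k < r` is read at the time
`i * r + k < MA * r`; for the value `c e.1` note that `e.1` itself is such a vertex), and `Hits nb Y T c w (rd c t)`
depends on `c` at `(stp)^[j] (rd c t) = rd c (t + j)`, `j < w` (`hits_congr`, `rd_add`), read before `t + w + 1`.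
RESAMPLING: for `c' = ov (Vis c t) c ω`, `t = τ j`, everything is the same for `c'` and `c` (previous sentence and
`ov_eq`), so if `Tst c t`: `∑ ω, u j c' = exp q * (card - ∑ ω, [Hits … (ov (Vis c t) c ω) …]) = exp q * card * (1 - q) ≤
card` by `hit_count` (`Vis c (t+1) = insert x (Vis c t)`) and `1 - q ≤ exp (-q)` (`Real.add_one_le_exp`).
`mart_markov` with `K = exp s`: for `c ∈ E`: `∏ j ∈ range M, u j c = exp (∑ …) ≥ exp s`.
-/

set_option autoImplicit false

open Finset

namespace URW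

variable {m : ℕ} {V : Type} [Fintype V] [DecidableEq V]

open Classical in
/-- The arrival darts which cross one of the first `MA` pieces. -/
noncomputable def tgt (nb : V → Lab m → V) (r : ℕ) (P : ℕ → V × Lab m) (MA : ℕ) (c : V → Rot m) :
    Finset (V × Lab m) :=
  univ.filter fun e => ∃ i < MA, ∃ k < r, ((stp nb c)^[k] (P i)).1 = e.1 ∧
    0 < cd (e.2 - ((stp nb c)^[k] (P i)).2) ∧ cd (e.2 - ((stp nb c)^[k] (P i)).2) < cd (c e.1).1

/-- Test times. -/
def Tst (nb : V → Lab m → V) (r w : ℕ) (P : ℕ → V × Lab m) (MA : ℕ) (c : V → Rot m) (t : ℕ) :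
    Prop :=
  MA * r ≤ t ∧ t % r + w < r ∧ rv nb r P c t ∉ Vis (rv nb r P) c t

/-- The test at the time `t` succeeds. -/
def Suc (nb : V → Lab m → V) (r w : ℕ) (P : ℕ → V × Lab m) (MA : ℕ) (c : V → Rot m) (t : ℕ) :
    Prop :=
  Hits nb (Vis (rv nb r P) c (t + 1)) (tgt nb r P MA c) c w (rd nb r P c t)

open Classical in
/-- The conditional probability of success. -/
noncomputable def qq (nb : V → Lab m → V) (r w : ℕ) (P : ℕ → V × Lab m) (MA : ℕ) (c : V → Rot m)
    (t : ℕ) : ℝ :=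
  avg fun s => ret nb (Vis (rv nb r P) c (t + 1))
    (fun e => if e ∈ tgt nb r P MA c then 1 else 0) w (rv nb r P c t, (rd nb r P c t).2 + s.1)

theorem tgt_congr (nb : V → Lab m → V) {r : ℕ} (hr : 1 ≤ r) (P : ℕ → V × Lab m) (MA : ℕ)
    (c c' : V → Rot m) (h : ∀ s < MA * r, c' (rv nb r P c s) = c (rv nb r P c s)) :
    tgt nb r P MA c' = tgt nb r P MA c := by
  classical
  have key : ∀ i < MA, ∀ k < r, (stp nb c')^[k] (P i) = (stp nb c)^[k] (P i) ∧
      c' ((stp nb c)^[k] (P i)).1 = c ((stp nb c)^[k] (P i)).1 := by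
    intro i hi k hk
    have hr0 : 0 < r := hr
    have hmod : (i * r + k) % r = k := by
      rw [Nat.add_comm, Nat.add_mul_mod_self_right, Nat.mod_eq_of_lt hk]
    have hdiv : (i * r + k) / r = i := by
      rw [Nat.mul_comm, Nat.mul_add_div hr0, Nat.div_eq_of_lt hk, Nat.add_zero]
    have hlt : i * r + k < MA * r := by
      calc i * r + k < i * r + r := by omega
        _ = (i + 1) * r := by ring
        _ ≤ MA * r := Nat.mul_le_mul_right r hi
    have h1 := adapt_rd nb hr P c c' (i * r + k) (fun s hs => h s (lt_trans hs hlt))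
    have h2 := h (i * r + k) hlt
    unfold rv at h2
    unfold rd at h1 h2
    rw [hmod, hdiv] at h1 h2
    exact ⟨h1, h2⟩
  unfold tgt
  refine Finset.filter_congr fun e _ => ?_
  constructor
  · rintro ⟨i, hi, k, hk, h1, h2, h3⟩
    obtain ⟨k1, k2⟩ := key i hi k hk
    rw [k1] at h1 h2 h3
    rw [h1] at k2
    rw [k2] at h3
    exact ⟨i, hi, k, hk, h1, h2, h3⟩
  · rintro ⟨i, hi, k, hk, h1, h2, h3⟩
    obtain ⟨k1, k2⟩ := key i hi k hk
    rw [h1] at k2
    refine ⟨i, hi, k, hk, ?_, ?_, ?_⟩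
    · rw [k1]; exact h1
    · rw [k1]; exact h2
    · rw [k1, k2]; exact h3

private theorem tst_congr (nb : V → Lab m → V) {r : ℕ} (hr : 1 ≤ r) (w : ℕ) (P : ℕ → V × Lab m)
    (MA : ℕ) (c c' : V → Rot m) (t : ℕ)
    (h : ∀ s < t, c' (rv nb r P c s) = c (rv nb r P c s)) :
    Tst nb r w P MA c' t ↔ Tst nb r w P MA c t := by
  have h1 : rv nb r P c' t = rv nb r P c t := adapt_rv nb hr P c c' t h
  have h2 : Vis (rv nb r P) c' t = Vis (rv nb r P) c t :=
    vis_congr (adapt_rv nb hr P) h t (Nat.le_succ t)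
  unfold Tst
  rw [h1, h2]

private theorem qq_congr (nb : V → Lab m → V) {r : ℕ} (hr : 1 ≤ r) (w : ℕ) (P : ℕ → V × Lab m)
    (MA : ℕ) (c c' : V → Rot m) (t : ℕ) (hMA : MA * r ≤ t)
    (h : ∀ s < t, c' (rv nb r P c s) = c (rv nb r P c s)) :
    qq nb r w P MA c' t = qq nb r w P MA c t := by
  have h1 : rv nb r P c' t = rv nb r P c t := adapt_rv nb hr P c c' t h
  have h1' : rd nb r P c' t = rd nb r P c t := adapt_rd nb hr P c c' t h
  have h2 : Vis (rv nb r P) c' (t + 1) = Vis (rv nb r P) c (t + 1) :=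
    vis_congr (adapt_rv nb hr P) h (t + 1) le_rfl
  have h3 := tgt_congr nb hr P MA c c' (fun s hs => h s (lt_of_lt_of_le hs hMA))
  unfold qq
  rw [h1, h1', h2, h3]

private theorem suc_congr (nb : V → Lab m → V) {r : ℕ} (hr : 1 ≤ r) (w : ℕ) (P : ℕ → V × Lab m)
    (MA : ℕ) (c c' : V → Rot m) (t : ℕ) (hMA : MA * r ≤ t) (hw : t % r + w < r)
    (h : ∀ s < t + w, c' (rv nb r P c s) = c (rv nb r P c s)) :
    Suc nb r w P MA c' t ↔ Suc nb r w P MA c t := by
  have h0 : ∀ s < t, c' (rv nb r P c s) = c (rv nb r P c s) := fun s hs => h s (by omega)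
  have h1' : rd nb r P c' t = rd nb r P c t := adapt_rd nb hr P c c' t h0
  have h2 : Vis (rv nb r P) c' (t + 1) = Vis (rv nb r P) c (t + 1) :=
    vis_congr (adapt_rv nb hr P) h0 (t + 1) le_rfl
  have h3 := tgt_congr nb hr P MA c c' (fun s hs => h0 s (lt_of_lt_of_le hs hMA))
  unfold Suc
  rw [h1', h2, h3]
  refine hits_congr nb _ _ c c' w _ fun j hj => ?_
  have h4 := rd_add nb r P c t j (by omega)
  rw [← h4]
  exact h (t + j) (by omega)

private theorem suc_ov (nb : V → Lab m → V) {r : ℕ} (hr : 1 ≤ r) (w : ℕ) (P : ℕ → V × Lab m)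
    (MA : ℕ) (c c' : V → Rot m) (t : ℕ) (hMA : MA * r ≤ t)
    (h : ∀ s < t, c' (rv nb r P c s) = c (rv nb r P c s)) :
    Suc nb r w P MA c' t ↔ Hits nb (insert (rv nb r P c t) (Vis (rv nb r P) c t))
      (tgt nb r P MA c) c' w (rv nb r P c t, (rd nb r P c t).2) := by
  have h1' : rd nb r P c' t = rd nb r P c t := adapt_rd nb hr P c c' t h
  have h2 : Vis (rv nb r P) c' (t + 1) = insert (rv nb r P c t) (Vis (rv nb r P) c t) := by
    rw [vis_congr (adapt_rv nb hr P) h (t + 1) le_rfl]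
    unfold Vis
    rw [Finset.range_add_one, Finset.image_insert]
  have h3 := tgt_congr nb hr P MA c c' (fun s hs => h s (lt_of_lt_of_le hs hMA))
  unfold Suc
  rw [h1', h2, h3]
  rfl

open Classical in
/-- The factors of the martingale. -/
private noncomputable def uu (nb : V → Lab m → V) (r w : ℕ) (P : ℕ → V × Lab m) (MA ρ0 : ℕ)
    (j : ℕ) (c : V → Rot m) : ℝ :=
  if Tst nb r w P MA c (ρ0 + j * (w + 1)) then
    (if Suc nb r w P MA c (ρ0 + j * (w + 1)) then 0
      else Real.exp (qq nb r w P MA c (ρ0 + j * (w + 1)))) else 1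

private theorem uu_nonneg (nb : V → Lab m → V) (r w : ℕ) (P : ℕ → V × Lab m) (MA ρ0 : ℕ)
    (j : ℕ) (c : V → Rot m) : 0 ≤ uu nb r w P MA ρ0 j c := by
  unfold uu
  split_ifs
  · exact le_rfl
  · exact (Real.exp_pos _).le
  · exact zero_le_one

private theorem uu_meas (nb : V → Lab m → V) {r : ℕ} (hr : 1 ≤ r) (w : ℕ) (P : ℕ → V × Lab m)
    (MA ρ0 : ℕ) (j : ℕ) :
    Meas (rv nb r P) (ρ0 + (j + 1) * (w + 1)) (uu nb r w P MA ρ0 j) := by
  intro c c' h
  have ht : ρ0 + (j + 1) * (w + 1) = (ρ0 + j * (w + 1)) + w + 1 := by ring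
  rw [ht] at h
  have h0 : ∀ s < ρ0 + j * (w + 1), c' (rv nb r P c s) = c (rv nb r P c s) :=
    fun s hs => h s (by omega)
  have h1 := tst_congr nb hr w P MA c c' (ρ0 + j * (w + 1)) h0
  unfold uu
  by_cases hT : Tst nb r w P MA c (ρ0 + j * (w + 1))
  · have hT' := h1.2 hT
    rw [if_pos hT, if_pos hT']
    have h2 := suc_congr nb hr w P MA c c' (ρ0 + j * (w + 1)) hT.1 hT.2.1
      (fun s hs => h s (by omega))
    have h3 := qq_congr nb hr w P MA c c' (ρ0 + j * (w + 1)) hT.1 h0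
    rw [h3]
    by_cases hS : Suc nb r w P MA c (ρ0 + j * (w + 1))
    · rw [if_pos hS, if_pos (h2.2 hS)]
    · rw [if_neg hS, if_neg (fun h' => hS (h2.1 h'))]
  · rw [if_neg hT, if_neg (fun h' => hT (h1.1 h'))]

private theorem uu_sum (hm : 3 ≤ m) (nb : V → Lab m → V) {n : ℕ} (hU : Uniq nb n) {r w : ℕ}
    (hr : 1 ≤ r) (hw : w ≤ n) (P : ℕ → V × Lab m) (MA ρ0 : ℕ) (j : ℕ) (c : V → Rot m) :
    ∑ ω, uu nb r w P MA ρ0 j (ov (Vis (rv nb r P) c (ρ0 + j * (w + 1))) c ω) ≤
      (Fintype.card (V → Rot m) : ℝ) := by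
  classical
  have hag : ∀ ω : V → Rot m, ∀ s < ρ0 + j * (w + 1),
      ov (Vis (rv nb r P) c (ρ0 + j * (w + 1))) c ω (rv nb r P c s) = c (rv nb r P c s) :=
    fun ω => ov_eq (rv nb r P) c ω (ρ0 + j * (w + 1))
  by_cases hT : Tst nb r w P MA c (ρ0 + j * (w + 1))
  · have e1 : ∀ ω : V → Rot m,
        uu nb r w P MA ρ0 j (ov (Vis (rv nb r P) c (ρ0 + j * (w + 1))) c ω) =
        Real.exp (qq nb r w P MA c (ρ0 + j * (w + 1))) -
          Real.exp (qq nb r w P MA c (ρ0 + j * (w + 1))) *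
          (if Hits nb (insert (rv nb r P c (ρ0 + j * (w + 1)))
              (Vis (rv nb r P) c (ρ0 + j * (w + 1))))
            (tgt nb r P MA c) (ov (Vis (rv nb r P) c (ρ0 + j * (w + 1))) c ω) w
            (rv nb r P c (ρ0 + j * (w + 1)), (rd nb r P c (ρ0 + j * (w + 1))).2)
            then (1 : ℝ) else 0) := by
      intro ω
      have h1 := (tst_congr nb hr w P MA c _ (ρ0 + j * (w + 1)) (hag ω)).2 hT
      have h2 := suc_ov nb hr w P MA c _ (ρ0 + j * (w + 1)) hT.1 (hag ω)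
      have h3 := qq_congr nb hr w P MA c _ (ρ0 + j * (w + 1)) hT.1 (hag ω)
      unfold uu
      rw [if_pos h1, h3]
      by_cases hS : Hits nb (insert (rv nb r P c (ρ0 + j * (w + 1)))
              (Vis (rv nb r P) c (ρ0 + j * (w + 1))))
            (tgt nb r P MA c) (ov (Vis (rv nb r P) c (ρ0 + j * (w + 1))) c ω) w
            (rv nb r P c (ρ0 + j * (w + 1)), (rd nb r P c (ρ0 + j * (w + 1))).2)
      · rw [if_pos (h2.2 hS), if_pos hS]; ring
      · rw [if_neg (fun h' => hS (h2.1 h')), if_neg hS]; ring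
    rw [Finset.sum_congr rfl fun ω _ => e1 ω, Finset.sum_sub_distrib, ← Finset.mul_sum,
      hit_count hm nb hU (Vis (rv nb r P) c (ρ0 + j * (w + 1))) c
        (rv nb r P c (ρ0 + j * (w + 1))) hT.2.2 (rd nb r P c (ρ0 + j * (w + 1))).2
        (tgt nb r P MA c) w hw]
    have e2 : (avg fun t : Rot m => ret nb (insert (rv nb r P c (ρ0 + j * (w + 1)))
        (Vis (rv nb r P) c (ρ0 + j * (w + 1))))
        (fun e => if e ∈ tgt nb r P MA c then 1 else 0) w
        (rv nb r P c (ρ0 + j * (w + 1)), (rd nb r P c (ρ0 + j * (w + 1))).2 + t.1)) =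
        qq nb r w P MA c (ρ0 + j * (w + 1)) := by
      have h2 : Vis (rv nb r P) c (ρ0 + j * (w + 1) + 1) =
          insert (rv nb r P c (ρ0 + j * (w + 1))) (Vis (rv nb r P) c (ρ0 + j * (w + 1))) := by
        unfold Vis
        rw [Finset.range_add_one, Finset.image_insert]
      unfold qq
      rw [h2]
    rw [e2, Finset.sum_const, Finset.card_univ, nsmul_eq_mul]
    set q := qq nb r w P MA c (ρ0 + j * (w + 1)) with hq
    have h3 : Real.exp q * (1 - q) ≤ 1 := by
      have h4 : -q + 1 ≤ Real.exp (-q) := Real.add_one_le_exp (-q)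
      calc Real.exp q * (1 - q) ≤ Real.exp q * Real.exp (-q) :=
            mul_le_mul_of_nonneg_left (by linarith) (Real.exp_pos q).le
        _ = 1 := by rw [← Real.exp_add]; simp
    have h5 : (0 : ℝ) ≤ (Fintype.card (V → Rot m) : ℝ) := Nat.cast_nonneg _
    calc (Fintype.card (V → Rot m) : ℝ) * Real.exp q -
          Real.exp q * ((Fintype.card (V → Rot m) : ℝ) * q)
        = (Fintype.card (V → Rot m) : ℝ) * (Real.exp q * (1 - q)) := by ring
      _ ≤ (Fintype.card (V → Rot m) : ℝ) * 1 := mul_le_mul_of_nonneg_left h3 h5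
      _ = _ := mul_one _
  · have e1 : ∀ ω : V → Rot m,
        uu nb r w P MA ρ0 j (ov (Vis (rv nb r P) c (ρ0 + j * (w + 1))) c ω) = 1 := by
      intro ω
      have h1 := tst_congr nb hr w P MA c _ (ρ0 + j * (w + 1)) (hag ω)
      unfold uu
      rw [if_neg (fun h' => hT (h1.1 h'))]
    rw [Finset.sum_congr rfl fun ω _ => e1 ω, Finset.sum_const, Finset.card_univ, nsmul_eq_mul,
      mul_one]

open Classical in
theorem blk_count (hm : 3 ≤ m) (nb : V → Lab m → V) {n : ℕ} (hU : Uniq nb n) {r w : ℕ}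
    (hr : 1 ≤ r) (hw : w ≤ n) (P : ℕ → V × Lab m) (MA M ρ0 : ℕ) (s : ℝ)
    (E : Finset (V → Rot m))
    (hE : ∀ c ∈ E, (∀ j < M, Tst nb r w P MA c (ρ0 + j * (w + 1)) →
        ¬ Suc nb r w P MA c (ρ0 + j * (w + 1))) ∧
      s ≤ ∑ j ∈ range M, if Tst nb r w P MA c (ρ0 + j * (w + 1)) then
        qq nb r w P MA c (ρ0 + j * (w + 1)) else 0) :
    Real.exp s * (E.card : ℝ) ≤ (Fintype.card (V → Rot m) : ℝ) := by
  refine mart_markov (adapt_rv nb hr P) (fun j => ρ0 + j * (w + 1))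
    (fun i j hij => Nat.add_le_add_left (Nat.mul_le_mul_right _ hij) _)
    (uu nb r w P MA ρ0) (uu_nonneg nb r w P MA ρ0) (uu_meas nb hr w P MA ρ0)
    (uu_sum hm nb hU hr hw P MA ρ0) M E (Real.exp s) ?_
  intro c hc
  obtain ⟨h1, h2⟩ := hE c hc
  have e1 : ∏ j ∈ range M, uu nb r w P MA ρ0 j c =
      Real.exp (∑ j ∈ range M, if Tst nb r w P MA c (ρ0 + j * (w + 1)) then
        qq nb r w P MA c (ρ0 + j * (w + 1)) else 0) := by
    rw [Real.exp_sum]
    refine Finset.prod_congr rfl fun j hj => ?_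
    have hj' : j < M := Finset.mem_range.1 hj
    unfold uu
    by_cases hT : Tst nb r w P MA c (ρ0 + j * (w + 1))
    · rw [if_pos hT, if_pos hT, if_neg (h1 j hj' hT)]
    · rw [if_neg hT, if_neg hT, Real.exp_zero]
  rw [e1]
  exact Real.exp_le_exp.2 h2

end URW
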