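import Pool.Agent.URW.Q.Flow
import Pool.Agent.URW.Q.Blk

/-!
# URW Q/Expl (package, 2.5 h): from the flow of a family to the conditional probabilities of its tests

The pieces of `P` are read in the order `ord P A`: first `A.toList`, then the pieces of `P.toList` not in `A`.

PROOF of `first_visit`. Let `p = fp nb c r P.toList x = fp nb c r (P.toList.filter (∉ A)) x` (`fp_filter`), let `i0` be
the index of `p` in `P.toList.filter (∉ A)` (`List.find?` returns the FIRST piece through `x`: no piece with a
smaller index passes through `x`, `List.find?_eq_some_iff_getElem` or `List.find?_eq_some_iff_append`), and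
`k = ps nb c p x < r` (`ps_eq`, `fp_spec`). Time: `t = (A.card + i0) * r + k`, so `t / r = A.card + i0`, `t % r = k`,
`rd c t = (stp)^[k] p = (x, la x)`. Fresh: a time `s < t` with `rv c s = x` would be on a piece with index
`< A.card + i0` (these do not pass through `x`; the A pieces by hypothesis), or on the same piece with a
smaller position (`stp_inj_vertex`).

PROOF of `src_le_qq`. `∑_{l : m ≤ cd (l - a)} g l = ∑_{s : Rot m} g (a + s) = card (Rot m) * avg (fun s => g (a + s))`, `a = la x`.
`ret_le_ret` with `Y = Vis c (t + 1) ⊆ X` (`vis` of the list, `mem_vts`): `φ = 1_{e ∈ trg ∧ fp e.1 ∈ A}`,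
`ψ = 1_{e ∈ tgt}`: if `fp y ∈ A` then `y` is on an A piece, so read before `A.card * r ≤ t` (`y ∈ Y`), and
`(y, a) ∈ trg` gives `(y, a) ∈ tgt` (the A piece `fp y` has an index `i < A.card` in the list, position `ps`,
arrival label `la y`).

PROOF of `expl_sum`. Split the `x` into those with `t % r + w < r` (then `Tst`, use `src_le_qq`; `x ↦ t` is injective
since `rv c t = x`) and the others: for these the inner sum is `≤ 6 m + 2` (`ret_le_one`, `card_rot`) and there are
at most `w * P.card` of them (`x ↦ (piece, position)`, position in `[r - w, r)`).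

PROOF of `no_suc`. `hits_iff`, `rd_add`; the arrival dart `(y, a)` at the time `t + j` (same piece, `j ≤ w`) crosses the A
piece at `y`: contradicts `Fam.ncr`.

PROOF of `expl`: `∑_{t < #P r} g t = ∑_{ρ0 < w + 1} ∑_{j < M} g (ρ0 + j (w + 1))`, `M = #P * (r / (w + 1))`
(`(w + 1) ∣ r`); some `ρ0` has at least the average.
-/

set_option autoImplicit false

open Finset

namespace URW

variable {m : ℕ} {V : Type} [Fintype V] [DecidableEq V]

open Classical in
/-- The order of the exploration: first `A`, then the other pieces of `P`. -/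
noncomputable def ord (P A : Finset (V × Lab m)) : List (V × Lab m) :=
  A.toList ++ P.toList.filter fun p => decide (p ∉ A)

theorem ord_length {P A : Finset (V × Lab m)} (h : A ⊆ P) : (ord P A).length = P.card := by
  classical
  have h1 : (P.toList.filter fun p => decide (p ∉ A)).length = (P \ A).card := by
    rw [← List.toFinset_card_of_nodup ((Finset.nodup_toList P).filter _)]
    congr 1
    ext p
    simp
  unfold ord
  rw [List.length_append, Finset.length_toList]
  have h2 := Finset.card_sdiff_add_card_eq_card h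
  have h3 : ((P.toList.filter fun p => decide (p ∉ A)).length) = (P \ A).card := h1
  omega

theorem mem_ord {P A : Finset (V × Lab m)} (h : A ⊆ P) (p : V × Lab m) : p ∈ ord P A ↔ p ∈ P := by
  classical
  unfold ord
  simp only [List.mem_append, Finset.mem_toList, List.mem_filter, decide_eq_true_eq]
  constructor
  · rintro (hp | hp)
    · exact h hp
    · exact hp.1
  · intro hp
    by_cases hA : p ∈ A
    · exact Or.inl hA
    · exact Or.inr ⟨hp, hA⟩

/-- The sequence of the pieces. -/
noncomputable def sq (d0 : V × Lab m) (P A : Finset (V × Lab m)) : ℕ → V × Lab m :=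
  fun i => (ord P A).getD i d0

private theorem sq_mem {P A : Finset (V × Lab m)} (hA : A ⊆ P) (d0 : V × Lab m) {i : ℕ}
    (hi : i < P.card) : sq d0 P A i ∈ P := by
  have hi' : i < (ord P A).length := by rw [ord_length hA]; exact hi
  have h : sq d0 P A i = (ord P A)[i] := by
    unfold sq
    rw [List.getD_eq_getElem _ _ hi']
  rw [h, ← mem_ord hA]
  exact List.getElem_mem hi'

private theorem sq_mem_A {P A : Finset (V × Lab m)} (d0 : V × Lab m) {i : ℕ}
    (hi : i < A.card) : sq d0 P A i ∈ A := by
  have hi' : i < A.toList.length := by rw [Finset.length_toList]; exact hi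
  have h : sq d0 P A i = A.toList[i] := by
    unfold sq ord
    rw [List.getD_append _ _ _ _ hi', List.getD_eq_getElem _ _ hi']
  rw [h, ← Finset.mem_toList]
  exact List.getElem_mem hi'

private theorem exists_sq_A {P A : Finset (V × Lab m)} (d0 : V × Lab m) {p : V × Lab m}
    (hp : p ∈ A) : ∃ i < A.card, sq d0 P A i = p := by
  have hp' : p ∈ A.toList := by simpa using hp
  obtain ⟨i, hi, h⟩ := List.getElem_of_mem hp'
  refine ⟨i, by rwa [Finset.length_toList] at hi, ?_⟩
  unfold sq ord
  rw [List.getD_append _ _ _ _ hi, List.getD_eq_getElem _ _ hi, h]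

private theorem sq_rest {P A : Finset (V × Lab m)} (d0 : V × Lab m) (i : ℕ) :
    sq d0 P A (A.card + i) =
      (P.toList.filter fun p => (@decide (p ∉ A) (Classical.propDecidable _))).getD i d0 := by
  classical
  unfold sq ord
  rw [List.getD_append_right _ _ _ _ (by rw [Finset.length_toList]; omega), Finset.length_toList]
  congr 1
  · congr 1
    funext p
    exact decide_eq_decide.mpr Iff.rfl
  · omega

private theorem rd_lt {nb : V → Lab m → V} {r : ℕ} (Q : ℕ → V × Lab m) (c : V → Rot m) {i k : ℕ}
    (hk : k < r) : rd nb r Q c (i * r + k) = (stp nb c)^[k] (Q i) := by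
  unfold rd
  have h1 : (i * r + k) % r = k := by
    rw [Nat.mul_add_mod_self_right]
    exact Nat.mod_eq_of_lt hk
  have h2 : (i * r + k) / r = i := by
    rw [Nat.mul_comm, Nat.mul_add_div (by omega), Nat.div_eq_of_lt hk, Nat.add_zero]
  rw [h1, h2]

private theorem lt_of_idx {i k r N : ℕ} (hi : i < N) (hk : k < r) : i * r + k < N * r := by
  calc i * r + k < i * r + r := by omega
    _ = (i + 1) * r := by ring
    _ ≤ N * r := Nat.mul_le_mul_right r hi

theorem first_visit (hm : 3 ≤ m) {nb : V → Lab m → V} {n : ℕ} (hU : Uniq nb n) {r : ℕ}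
    (hr : r ≤ n) (hr1 : 1 ≤ r) {c : V → Rot m} {P A : Finset (V × Lab m)} (hA : A ⊆ P)
    (d0 : V × Lab m) {x : V} (hx : x ∈ vts nb c r P) (hxA : ∀ p ∈ thr nb c r P x, p ∉ A) :
    ∃ t < P.card * r, A.card * r ≤ t ∧ rd nb r (sq d0 P A) c t = (x, la nb c r P x) ∧
      x ∉ Vis (rv nb r (sq d0 P A)) c t := by
  classical
  have hp := fp_spec nb c r P hx
  have hff := fp_filter nb c r P A hxA
  set p := fp nb c r P.toList x with hpdef
  have hp' : p ∈ P ∧ Thr nb c r x p := by
    unfold thr at hp
    simpa using hp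
  have hpA : p ∉ A := hxA p hp
  set L : List (V × Lab m) :=
    P.toList.filter fun p => (@decide (p ∉ A) (Classical.propDecidable _)) with hL
  have hfp : fp nb c r L x = p := by
    rw [← hff]
    congr 1
    rw [hL]
    congr 1
    funext p
    exact decide_eq_decide.mpr Iff.rfl
  have hpL : p ∈ L := by
    rw [hL, List.mem_filter]
    exact ⟨by simpa using hp'.1, by simpa using hpA⟩
  have hsome : (L.find? fun q => (@decide (Thr nb c r x q) (Classical.propDecidable _))) =
      some p := by
    have h1 : (L.find? fun q =>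
        (@decide (Thr nb c r x q) (Classical.propDecidable _))).isSome := by
      rw [List.find?_isSome]
      exact ⟨p, hpL, by simpa using hp'.2⟩
    obtain ⟨q, hq⟩ := Option.isSome_iff_exists.mp h1
    have h2 : fp nb c r L x = q := by
      unfold fp
      have h3 : (L.find? fun p => (@decide (Thr nb c r x p) (Classical.propDecidable _))) =
        some q := hq
      rw [h3]
      rfl
    rw [hq, ← h2, hfp]
  rw [List.find?_eq_some_iff_getElem] at hsome
  obtain ⟨_, i0, hi0, hi0p, hmin⟩ := hsome
  obtain ⟨j, hj, hjx⟩ := hp'.2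
  have hsq : sq d0 P A (A.card + i0) = p := by
    rw [sq_rest, List.getD_eq_getElem _ _ hi0]
    exact hi0p
  have hlen : A.card + i0 < P.card := by
    have h1 := ord_length hA
    have h2 : (ord P A).length = A.card + L.length := by
      unfold ord
      rw [List.length_append, Finset.length_toList]
      congr 2
      rw [hL]
      congr 1
      funext p
      exact decide_eq_decide.mpr Iff.rfl
    omega
  have hrd : rd nb r (sq d0 P A) c ((A.card + i0) * r + j) = (stp nb c)^[j] p := by
    rw [rd_lt _ _ hj, hsq]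
  have hal : al nb c p x = ((stp nb c)^[j] p).2 := by
    rw [← hjx]
    exact al_eq hm hU c p (by omega)
  refine ⟨(A.card + i0) * r + j, lt_of_idx hlen hj, ?_, ?_, ?_⟩
  · have : A.card * r ≤ (A.card + i0) * r := Nat.mul_le_mul_right r (by omega)
    omega
  · rw [hrd]
    refine Prod.ext hjx ?_
    show ((stp nb c)^[j] p).2 = la nb c r P x
    unfold la
    rw [← hal]
  · intro hmem
    unfold Vis at hmem
    rw [Finset.mem_image] at hmem
    obtain ⟨s, hs, hsx⟩ := hmem
    rw [Finset.mem_range] at hs
    have hrpos : 0 < r := hr1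
    have hsr : s % r < r := Nat.mod_lt _ hrpos
    have hdec : s / r * r + s % r = s := Nat.div_add_mod' s r
    have hrs : rd nb r (sq d0 P A) c s = (stp nb c)^[s % r] (sq d0 P A (s / r)) := rfl
    have hThr : Thr nb c r x (sq d0 P A (s / r)) := ⟨s % r, hsr, by
      rw [← hrs]; exact hsx⟩
    have hle : s / r ≤ A.card + i0 := by
      by_contra hcon
      have h1 : (A.card + i0 + 1) * r ≤ s / r * r := Nat.mul_le_mul_right r (by omega)
      have h2 : (A.card + i0 + 1) * r = (A.card + i0) * r + r := by ring
      omega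
    have hmemP : sq d0 P A (s / r) ∈ P := sq_mem hA d0 (by omega)
    have hthr : sq d0 P A (s / r) ∈ thr nb c r P x := by
      unfold thr
      rw [Finset.mem_filter]
      exact ⟨hmemP, hThr⟩
    rcases Nat.lt_or_ge (s / r) A.card with hlt | hge
    · exact hxA _ hthr (sq_mem_A d0 hlt)
    · obtain ⟨i1, hi1⟩ := Nat.exists_eq_add_of_le hge
      rcases Nat.lt_or_ge i1 i0 with hlt | hge'
      · have h2 := hmin i1 hlt
        have h3 : sq d0 P A (s / r) = L[i1]'(lt_trans hlt hi0) := by
          rw [hi1, sq_rest]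
          exact List.getD_eq_getElem _ _ (lt_trans hlt hi0)
        rw [← h3] at h2
        simp only [Bool.not_eq_eq_eq_not, Bool.not_true, decide_eq_false_iff_not] at h2
        exact h2 hThr
      · have hi : i1 = i0 := by omega
        have heq : s / r = A.card + i0 := by omega
        have h4 : ((stp nb c)^[s % r] p).1 = ((stp nb c)^[j] p).1 := by
          rw [hjx, ← hsq, ← heq]
          exact hsx
        have h5 := stp_inj_vertex hm hU c p (by omega) (by omega) h4
        rw [heq] at hdec
        omega

open Classical in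
theorem src_le_qq (hm : 3 ≤ m) {nb : V → Lab m → V} {n : ℕ} (hU : Uniq nb n) {r w : ℕ}
    (hr : r ≤ n) (hr1 : 1 ≤ r) {c : V → Rot m} {P A : Finset (V × Lab m)} (hF : Fam nb c r P)
    (hA : A ⊆ P) (d0 : V × Lab m) {x : V} {t : ℕ} (ht : t < P.card * r) (ht' : A.card * r ≤ t)
    (hx : rd nb r (sq d0 P A) c t = (x, la nb c r P x)) :
    ∑ l ∈ univ.filter (fun l => m ≤ cd (l - la nb c r P x)),
          ret nb (vts nb c r P)
            (fun e => if e ∈ trg nb c r P ∧ fp nb c r P.toList e.1 ∈ A then 1 else 0) w (x, l) ≤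
      (6 * m + 2) * qq nb r w (sq d0 P A) A.card c t := by
  set a := la nb c r P x with ha
  set X := vts nb c r P with hX
  set φ : V × Lab m → ℝ :=
    fun e => if e ∈ trg nb c r P ∧ fp nb c r P.toList e.1 ∈ A then 1 else 0 with hφ
  set Y := Vis (rv nb r (sq d0 P A)) c (t + 1) with hY
  set ψ : V × Lab m → ℝ := fun e => if e ∈ tgt nb r (sq d0 P A) A.card c then 1 else 0 with hψ
  have hm1 : 1 ≤ m := by omega
  have hqq : (6 * (m : ℝ) + 2) * qq nb r w (sq d0 P A) A.card c t =
      ∑ s : Rot m, ret nb Y ψ w (x, a + s.1) := by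
    unfold qq avg
    have hc : (Fintype.card (Rot m) : ℝ) = 6 * (m : ℝ) + 2 := by
      have := card_rot (m := m) hm1
      rw [this]
      push_cast
      ring
    rw [hc, ← mul_assoc, mul_inv_cancel₀ (by positivity), one_mul]
    refine Finset.sum_congr rfl fun s _ => ?_
    have hrvx : rv nb r (sq d0 P A) c t = x := by
      unfold rv
      rw [hx]
    rw [hrvx, hx]
  rw [hqq]
  have hYX : Y ⊆ X := by
    intro v hv
    rw [hY] at hv
    unfold Vis at hv
    rw [Finset.mem_image] at hv
    obtain ⟨s, hs, hsv⟩ := hv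
    rw [Finset.mem_range] at hs
    have hrpos : 0 < r := hr1
    rw [hX, mem_vts]
    refine ⟨sq d0 P A (s / r), sq_mem hA d0 ?_, s % r, Nat.mod_lt _ hrpos, hsv⟩
    rw [Nat.div_lt_iff_lt_mul hrpos]
    omega
  have key : ∀ v : V, v ∈ X → fp nb c r P.toList v ∈ A →
      ∃ i < A.card, ∃ k < r, sq d0 P A i = fp nb c r P.toList v ∧
        (stp nb c)^[k] (sq d0 P A i) = (v, la nb c r P v) ∧
        rv nb r (sq d0 P A) c (i * r + k) = v := by
    intro v hv hvA
    have h1 := fp_spec nb c r P hv
    unfold thr at h1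
    rw [Finset.mem_filter] at h1
    obtain ⟨_, k, hk, hkv⟩ := h1
    obtain ⟨i, hi, hiq⟩ := exists_sq_A (P := P) d0 hvA
    refine ⟨i, hi, k, hk, hiq, ?_, ?_⟩
    · rw [hiq]
      refine Prod.ext hkv ?_
      show ((stp nb c)^[k] (fp nb c r P.toList v)).2 = la nb c r P v
      unfold la
      have h2 := al_eq hm hU c (fp nb c r P.toList v) (j := k) (by omega)
      rw [hkv] at h2
      rw [h2]
    · unfold rv
      rw [rd_lt _ _ hk, hiq]
      exact hkv
  have hmain : ∀ d : V × Lab m, ret nb X φ w d ≤ ret nb Y ψ w d := by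
    intro d
    refine ret_le_ret nb hYX ?_ ?_ ?_ w d
    · intro d hd hd'
      rw [hφ]
      by_cases hA' : fp nb c r P.toList d.1 ∈ A
      · exfalso
        obtain ⟨i, hi, k, hk, _, _, hrv⟩ := key d.1 hd hA'
        apply hd'
        rw [hY]
        unfold Vis
        rw [Finset.mem_image]
        refine ⟨i * r + k, ?_, hrv⟩
        rw [Finset.mem_range]
        have := lt_of_idx hi hk
        omega
      · simp [hA']
    · intro d
      rw [hψ]
      dsimp only
      split_ifs
      · exact zero_le_one
      · exact le_refl _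
    · intro d hd
      rw [hφ, hψ]
      dsimp only
      by_cases hcond : d ∈ trg nb c r P ∧ fp nb c r P.toList d.1 ∈ A
      · have hmem : d ∈ tgt nb r (sq d0 P A) A.card c := by
          obtain ⟨i, hi, k, hk, _, hst, _⟩ := key d.1 (hYX hd) hcond.2
          have htr := hcond.1
          unfold trg at htr
          rw [Finset.mem_filter] at htr
          unfold tgt
          rw [Finset.mem_filter]
          refine ⟨Finset.mem_univ _, i, hi, k, hk, ?_, ?_, ?_⟩
          · rw [hst]
          · rw [hst]
            exact htr.2.1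
          · rw [hst]
            exact htr.2.2
        rw [if_pos hcond, if_pos hmem]
      · rw [if_neg hcond]
        split_ifs
        · exact zero_le_one
        · exact le_refl _
  calc ∑ l ∈ univ.filter (fun l => m ≤ cd (l - a)), ret nb X φ w (x, l)
      = ∑ s : Rot m, ret nb X φ w (x, a + s.1) := by
        symm
        refine Finset.sum_bij (fun s _ => a + s.1) ?_ ?_ ?_ ?_
        · intro s _
          rw [Finset.mem_filter]
          refine ⟨Finset.mem_univ _, ?_⟩
          rw [add_sub_cancel_left]
          exact s.2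
        · intro s _ s' _ h
          exact Subtype.ext (add_left_cancel h)
        · intro l hl
          rw [Finset.mem_filter] at hl
          exact ⟨⟨l - a, hl.2⟩, Finset.mem_univ _, by simp⟩
        · intro s _
          rfl
    _ ≤ ∑ s : Rot m, ret nb Y ψ w (x, a + s.1) := Finset.sum_le_sum fun s _ => hmain _

private theorem card_pos_sum (r w N : ℕ) :
    ∑ t ∈ range (N * r), (if r ≤ t % r + w then (1 : ℝ) else 0) ≤ w * N := by
  induction N with
  | zero => simp
  | succ N ih =>
    rw [Nat.succ_mul, Finset.sum_range_add]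
    have h2 : ∑ k ∈ range r, (if r ≤ (N * r + k) % r + w then (1 : ℝ) else 0) ≤ w := by
      rw [← Finset.sum_filter, Finset.sum_const, nsmul_eq_mul, mul_one]
      have h3 : ((range r).filter fun k => r ≤ (N * r + k) % r + w).card ≤ w := by
        have h4 : ((range r).filter fun k => r ≤ (N * r + k) % r + w) ⊆ Finset.Ico (r - w) r := by
          intro k hk
          rw [Finset.mem_filter, Finset.mem_range] at hk
          rw [Finset.mem_Ico]
          have h5 : (N * r + k) % r = k := by
            rw [Nat.mul_add_mod_self_right]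
            exact Nat.mod_eq_of_lt hk.1
          omega
        have h6 := Finset.card_le_card h4
        rw [Nat.card_Ico] at h6
        omega
      exact_mod_cast h3
    push_cast
    linarith

open Classical in
theorem expl_sum (hm : 3 ≤ m) {nb : V → Lab m → V} {n : ℕ} (hU : Uniq nb n) {r w : ℕ}
    (hr : r ≤ n) (hr1 : 1 ≤ r) {c : V → Rot m} {P A : Finset (V × Lab m)} (hF : Fam nb c r P)
    (hA : A ⊆ P) (d0 : V × Lab m) :
    ∑ x ∈ (vts nb c r P).filter (fun x => ∀ p ∈ thr nb c r P x, p ∉ A),
        ∑ l ∈ univ.filter (fun l => m ≤ cd (l - la nb c r P x)),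
          ret nb (vts nb c r P)
            (fun e => if e ∈ trg nb c r P ∧ fp nb c r P.toList e.1 ∈ A then 1 else 0) w (x, l) ≤
      (6 * m + 2) * ((∑ t ∈ range (P.card * r), if Tst nb r w (sq d0 P A) A.card c t then
        qq nb r w (sq d0 P A) A.card c t else 0) + w * P.card) := by
  set F := (vts nb c r P).filter (fun x => ∀ p ∈ thr nb c r P x, p ∉ A) with hFdef
  have hm1 : 1 ≤ m := by omega
  have hqq0 : ∀ t, 0 ≤ qq nb r w (sq d0 P A) A.card c t := by
    intro t
    unfold qq
    refine avg_nonneg fun s => ret_nonneg _ _ ?_ _ _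
    intro d
    split_ifs
    · exact zero_le_one
    · exact le_refl _
  have hvis : ∀ x ∈ F, ∃ t < P.card * r, A.card * r ≤ t ∧
      rd nb r (sq d0 P A) c t = (x, la nb c r P x) ∧ x ∉ Vis (rv nb r (sq d0 P A)) c t := by
    intro x hx
    rw [hFdef, Finset.mem_filter] at hx
    exact first_visit hm hU hr hr1 hA d0 hx.1 hx.2
  choose! T hT1 hT2 hT3 hT4 using hvis
  set h : ℕ → ℝ := fun t => (if Tst nb r w (sq d0 P A) A.card c t then
        qq nb r w (sq d0 P A) A.card c t else 0) + (if r ≤ t % r + w then (1 : ℝ) else 0) with hh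
  have hh0 : ∀ t, 0 ≤ h t := by
    intro t
    rw [hh]
    dsimp only
    have h1 := hqq0 t
    split_ifs <;> linarith
  have hpt : ∀ x ∈ F, ∑ l ∈ univ.filter (fun l => m ≤ cd (l - la nb c r P x)),
          ret nb (vts nb c r P)
            (fun e => if e ∈ trg nb c r P ∧ fp nb c r P.toList e.1 ∈ A then 1 else 0) w (x, l) ≤
      (6 * m + 2) * h (T x) := by
    intro x hx
    by_cases hpos : T x % r + w < r
    · have htst : Tst nb r w (sq d0 P A) A.card c (T x) := by
        refine ⟨hT2 x hx, hpos, ?_⟩
        have hrv : rv nb r (sq d0 P A) c (T x) = x := by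
          unfold rv
          rw [hT3 x hx]
        rw [hrv]
        exact hT4 x hx
      have h1 := src_le_qq (w := w) hm hU hr hr1 hF hA d0 (hT1 x hx) (hT2 x hx) (hT3 x hx)
      have h2 : h (T x) = qq nb r w (sq d0 P A) A.card c (T x) := by
        rw [hh]
        dsimp only
        rw [if_pos htst, if_neg (by omega), add_zero]
      rw [h2]
      exact h1
    · have h1 : (1 : ℝ) ≤ h (T x) := by
        rw [hh]
        dsimp only
        rw [if_pos (show r ≤ T x % r + w by omega)]
        have h3 := hqq0 (T x)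
        split_ifs <;> linarith
      have h2 : ∑ l ∈ univ.filter (fun l => m ≤ cd (l - la nb c r P x)),
          ret nb (vts nb c r P)
            (fun e => if e ∈ trg nb c r P ∧ fp nb c r P.toList e.1 ∈ A then 1 else 0) w (x, l) ≤
          ∑ l ∈ univ.filter (fun l => m ≤ cd (l - la nb c r P x)), (1 : ℝ) := by
        refine Finset.sum_le_sum fun l _ => ret_le_one hm1 _ _ ?_ _ _
        intro d
        split_ifs
        · exact le_refl _
        · exact zero_le_one
      have h3 : (univ.filter (fun l => m ≤ cd (l - la nb c r P x))).card =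
          Fintype.card (Rot m) := by
        rw [Fintype.card_subtype]
        refine Finset.card_bij (fun l _ => l - la nb c r P x) ?_ ?_ ?_
        · intro l hl
          rw [Finset.mem_filter] at hl ⊢
          exact ⟨Finset.mem_univ _, hl.2⟩
        · intro l _ l' _ hll
          exact sub_left_injective hll
        · intro l hl
          rw [Finset.mem_filter] at hl
          refine ⟨l + la nb c r P x, ?_, by simp⟩
          rw [Finset.mem_filter]
          refine ⟨Finset.mem_univ _, ?_⟩
          rw [add_sub_cancel_right]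
          exact hl.2
      rw [Finset.sum_const, nsmul_eq_mul, mul_one, h3, card_rot hm1] at h2
      push_cast at h2
      have h4 : (6 * (m : ℝ) + 2) ≤ (6 * m + 2) * h (T x) :=
        le_mul_of_one_le_right (by positivity) h1
      linarith
  have hinj : Set.InjOn T F := by
    intro x hx y hy hxy
    have h1 := hT3 x hx
    have h2 := hT3 y hy
    rw [hxy, h2] at h1
    exact (congrArg Prod.fst h1).symm
  have hsub : F.image T ⊆ range (P.card * r) := by
    intro t ht
    rw [Finset.mem_image] at ht
    obtain ⟨x, hx, rfl⟩ := ht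
    rw [Finset.mem_range]
    exact hT1 x hx
  calc _ ≤ ∑ x ∈ F, (6 * (m : ℝ) + 2) * h (T x) := Finset.sum_le_sum hpt
    _ = (6 * m + 2) * ∑ t ∈ F.image T, h t := by
        rw [← Finset.mul_sum, Finset.sum_image hinj]
    _ ≤ (6 * m + 2) * ∑ t ∈ range (P.card * r), h t := by
        refine mul_le_mul_of_nonneg_left ?_ (by positivity)
        exact Finset.sum_le_sum_of_subset_of_nonneg hsub fun t _ _ => hh0 t
    _ ≤ _ := by
        refine mul_le_mul_of_nonneg_left ?_ (by positivity)
        rw [hh, Finset.sum_add_distrib]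
        have := card_pos_sum r w P.card
        linarith

theorem no_suc {nb : V → Lab m → V} {r w : ℕ} (hr1 : 1 ≤ r) {c : V → Rot m}
    {P A : Finset (V × Lab m)} (hF : Fam nb c r P) (hA : A ⊆ P) (d0 : V × Lab m) {t : ℕ}
    (ht : t < P.card * r) (hT : Tst nb r w (sq d0 P A) A.card c t) :
    ¬ Suc nb r w (sq d0 P A) A.card c t := by
  intro hS
  obtain ⟨hT1, hT2, hT3⟩ := hT
  obtain ⟨j, hj1, hjw, hjT, _⟩ := hits_iff nb _ _ c w _ hS
  unfold tgt at hjT
  rw [Finset.mem_filter] at hjT
  obtain ⟨_, i, hi, k, hk, h1, h2, h3⟩ := hjT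
  have hrpos : 0 < r := hr1
  have hrd : (stp nb c)^[j] (rd nb r (sq d0 P A) c t) =
      (stp nb c)^[j + t % r] (sq d0 P A (t / r)) := by
    unfold rd
    rw [Function.iterate_add_apply]
  rw [hrd] at h1 h2 h3
  have hP1 : sq d0 P A (t / r) ∈ P := sq_mem hA d0 (by
    rw [Nat.div_lt_iff_lt_mul hrpos]
    exact ht)
  have hP2 : sq d0 P A i ∈ P := hA (sq_mem_A d0 hi)
  have h4 := hF.ncr _ hP1 _ hP2 (j + t % r) (by omega) k hk h1.symm (by
    intro heq
    rw [heq, sub_self, cd_zero] at h2
    exact lt_irrefl _ h2)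
  omega

theorem sum_residue (g : ℕ → ℝ) (w M : ℕ) :
    ∃ ρ0 ≤ w, (∑ t ∈ range (M * (w + 1)), g t) / (w + 1) ≤
      ∑ j ∈ range M, g (ρ0 + j * (w + 1)) := by
  have h1 : ∑ t ∈ range (M * (w + 1)), g t =
      ∑ ρ ∈ range (w + 1), ∑ j ∈ range M, g (ρ + j * (w + 1)) := by
    rw [Finset.sum_comm]
    induction M with
    | zero => simp
    | succ M ih =>
      rw [Nat.succ_mul, Finset.sum_range_add, Finset.sum_range_succ _ M, ih]
      congr 1
      refine Finset.sum_congr rfl fun k _ => ?_
      rw [Nat.add_comm]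
  have hw : (0 : ℝ) < (w : ℝ) + 1 := by positivity
  obtain ⟨ρ0, hρ, hle⟩ : ∃ ρ0 ∈ range (w + 1),
      (∑ t ∈ range (M * (w + 1)), g t) / (w + 1) ≤ ∑ j ∈ range M, g (ρ0 + j * (w + 1)) := by
    refine Finset.exists_le_of_sum_le ⟨0, by simp⟩ ?_
    rw [Finset.sum_const, Finset.card_range, nsmul_eq_mul, ← h1]
    push_cast
    rw [mul_div_cancel₀]
    exact hw.ne'
  rw [Finset.mem_range] at hρ
  exact ⟨ρ0, by omega, hle⟩

open Classical in
theorem expl (hm : 3 ≤ m) {nb : V → Lab m → V} {n : ℕ} (hU : Uniq nb n) {r w : ℕ}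
    (hr : r ≤ n) (hr1 : 1 ≤ r) (hrw : w + 1 ∣ r) {c : V → Rot m} {P A : Finset (V × Lab m)}
    (hF : Fam nb c r P) (hA : A ⊆ P) (d0 : V × Lab m) (F : ℝ)
    (h : F ≤ ∑ x ∈ (vts nb c r P).filter (fun x => ∀ p ∈ thr nb c r P x, p ∉ A),
        ∑ l ∈ univ.filter (fun l => m ≤ cd (l - la nb c r P x)),
          ret nb (vts nb c r P)
            (fun e => if e ∈ trg nb c r P ∧ fp nb c r P.toList e.1 ∈ A then 1 else 0) w (x, l)) :
    ∃ ρ0 ≤ w,
      (∀ j < P.card * (r / (w + 1)), Tst nb r w (sq d0 P A) A.card c (ρ0 + j * (w + 1)) →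
        ¬ Suc nb r w (sq d0 P A) A.card c (ρ0 + j * (w + 1))) ∧
      (F / (6 * m + 2) - w * P.card) / (w + 1) ≤ ∑ j ∈ range (P.card * (r / (w + 1))),
        if Tst nb r w (sq d0 P A) A.card c (ρ0 + j * (w + 1)) then
          qq nb r w (sq d0 P A) A.card c (ρ0 + j * (w + 1)) else 0 := by
  set g : ℕ → ℝ := fun t => if Tst nb r w (sq d0 P A) A.card c t then
        qq nb r w (sq d0 P A) A.card c t else 0 with hg
  have h1 := expl_sum (w := w) hm hU hr hr1 hF hA d0
  have hM : P.card * (r / (w + 1)) * (w + 1) = P.card * r := by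
    rw [mul_assoc, Nat.div_mul_cancel hrw]
  obtain ⟨ρ0, hρ0, hres⟩ := sum_residue g w (P.card * (r / (w + 1)))
  refine ⟨ρ0, hρ0, ?_, ?_⟩
  · intro j hj hT
    refine no_suc hr1 hF hA d0 ?_ hT
    have h2 : (j + 1) * (w + 1) ≤ P.card * (r / (w + 1)) * (w + 1) :=
      Nat.mul_le_mul_right _ hj
    have h3 : (j + 1) * (w + 1) = j * (w + 1) + (w + 1) := by ring
    omega
  · refine le_trans ?_ hres
    rw [hM]
    refine div_le_div_of_nonneg_right ?_ (by positivity)
    have h4 : F ≤ (6 * m + 2) * ((∑ t ∈ range (P.card * r), g t) + w * P.card) := le_trans h h1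
    have h5 : F / (6 * m + 2) ≤ (∑ t ∈ range (P.card * r), g t) + w * P.card := by
      rw [div_le_iff₀ (by positivity)]
      linarith
    linarith

end URW
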