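import Pool.Agent.URW.Q.Run

/-!
# URW Q/Fam (package, 2.5 h): families of pieces

`Fam nb c r P`: the runs of length `r` from the arrival darts in `P` are pairwise disjoint (`inj`) and
noncrossing (`ncr`). `vts`: their vertices; `thr … x`: the pieces through `x`.

PROOF of `fam_exists`. Call `p` good if `out c ((stp nb c)^[k] p) ∈ S` for all `k < r`. Among the sets `P` of
good arrival darts with property `inj` choose one of maximal cardinality (`Finset.exists_max_image` over
`univ.filter …`, nonempty: `∅`). `ncr` follows from `NonCr` (`out c` of the two arrival darts are darts of `S` at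
the same vertex; the difference of their labels is the difference of the arrival labels). COUNT: let `d ∈ S`. By
`Thick` and `out_surj` there are `e` and `j < r` with `(stp)^[j] e = d'`, `out c d' = d`, and `e` is good
(`nxt_iter_out`). By maximality `insert e P` fails `inj` (or `e ∈ P`), so there are `p ∈ P`, `i, i' < r` with
`(stp)^[i] e = (stp)^[i'] p` (`stp_inj` for the case of two equal pieces: `inj` for `e` with itself is trivial since
it only claims `p = p'`). Then `(stp)^[r-1] d' = (stp)^[z] p` with `z = r - 1 + j + i' - i ≤ 3 r - 3` (apply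
`stp^[r - 1 - i]` to both sides and then `stp^[j]`: `(stp)^[r-1-i+j] ((stp)^[i] e) = (stp)^[r-1] d'`). So the injective map
`d ↦ (stp)^[r-1] d'` sends `S` into the image of `P × range (3 r)` under `(p, z) ↦ (stp)^[z] p`:
`S.card ≤ 3 r * P.card`.

`thr_card`: the map `p ↦ arrival label of p at x` is injective on `thr … x` (same arrival dart: `inj`) and its
image is pairwise at cyclic distance `≥ cd (c x) ≥ m` (`ncr`, and `(c x).2`); `far_card`.

`fam_card`: the map `(p, j) ↦ vertex` from `P ×ˢ range r` onto `vts`; its fibre over `x` injects into `thr … x`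
by `(p, j) ↦ p` (`stp_inj_vertex`), so it has at most `8` elements (`Finset.card_le_mul_card_image`).

`al_eq`: `j` is the only index `≤ n` at which the run is at `x` (`stp_inj_vertex`), so `Nat.find`/`sInf` finds it.
-/

set_option autoImplicit false

open Finset

namespace URW

variable {m : ℕ} {V : Type}

/-- A family of pairwise disjoint, noncrossing pieces of length `r`. -/
structure Fam (nb : V → Lab m → V) (c : V → Rot m) (r : ℕ) (P : Finset (V × Lab m)) : Prop where
  inj : ∀ p ∈ P, ∀ p' ∈ P, ∀ j < r, ∀ k < r, (stp nb c)^[j] p = (stp nb c)^[k] p' → p = p'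
  ncr : ∀ p ∈ P, ∀ p' ∈ P, ∀ j < r, ∀ k < r,
    ((stp nb c)^[j] p).1 = ((stp nb c)^[k] p').1 →
    ((stp nb c)^[j] p).2 ≠ ((stp nb c)^[k] p').2 →
    cd (c ((stp nb c)^[j] p).1).1 ≤ cd (((stp nb c)^[j] p).2 - ((stp nb c)^[k] p').2)

/-- The piece `p` passes through `x`. -/
def Thr (nb : V → Lab m → V) (c : V → Rot m) (r : ℕ) (x : V) (p : V × Lab m) : Prop :=
  ∃ j < r, ((stp nb c)^[j] p).1 = x

open Classical in
/-- The vertices of a family. -/
noncomputable def vts (nb : V → Lab m → V) (c : V → Rot m) (r : ℕ) (P : Finset (V × Lab m)) :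
    Finset V := (P ×ˢ range r).image fun x => ((stp nb c)^[x.2] x.1).1

open Classical in
/-- The pieces through `x`. -/
noncomputable def thr (nb : V → Lab m → V) (c : V → Rot m) (r : ℕ) (P : Finset (V × Lab m))
    (x : V) : Finset (V × Lab m) := P.filter (Thr nb c r x)

/-- The position of the vertex `x` on the piece `p`. -/
noncomputable def ps (nb : V → Lab m → V) (c : V → Rot m) (p : V × Lab m) (x : V) : ℕ :=
  sInf {j : ℕ | ((stp nb c)^[j] p).1 = x}

/-- The arrival label of the piece `p` at `x`. -/
noncomputable def al (nb : V → Lab m → V) (c : V → Rot m) (p : V × Lab m) (x : V) : Lab m :=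
  ((stp nb c)^[ps nb c p x] p).2

open Classical in
/-- The first piece of the list `L` through `x`. -/
noncomputable def fp (nb : V → Lab m → V) (c : V → Rot m) (r : ℕ) (L : List (V × Lab m)) (x : V) :
    V × Lab m := (L.find? fun p => decide (Thr nb c r x p)).getD (x, 0)

theorem mem_vts (nb : V → Lab m → V) (c : V → Rot m) (r : ℕ) (P : Finset (V × Lab m)) (x : V) :
    x ∈ vts nb c r P ↔ ∃ p ∈ P, Thr nb c r x p := by
  classical
  unfold vts Thr
  rw [mem_image]
  constructor
  · rintro ⟨⟨p, j⟩, h1, h2⟩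
    rw [mem_product, mem_range] at h1
    exact ⟨p, h1.1, j, h1.2, h2⟩
  · rintro ⟨p, h1, j, h2, h3⟩
    exact ⟨(p, j), mem_product.2 ⟨h1, mem_range.2 h2⟩, h3⟩

theorem fam_exists (hm : 3 ≤ m) [Fintype V] {nb : V → Lab m → V} (hI : Invol nb)
    {r : ℕ} (hr : 1 ≤ r) {c : V → Rot m} {S : Finset (V × Lab m)}
    (hT : Thick nb c r S) (hN : NonCr c S) :
    ∃ P : Finset (V × Lab m), Fam nb c r P ∧ S.card ≤ 3 * r * P.card := by
  classical
  have hm1 : 1 ≤ m := by omega
  let good : Finset (V × Lab m) := univ.filter fun p => ∀ k < r, out c ((stp nb c)^[k] p) ∈ S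
  let F : Finset (Finset (V × Lab m)) := good.powerset.filter fun P =>
    ∀ p ∈ P, ∀ p' ∈ P, ∀ j < r, ∀ k < r, (stp nb c)^[j] p = (stp nb c)^[k] p' → p = p'
  have hne : F.Nonempty := ⟨∅, by simp [F]⟩
  obtain ⟨P, hP, hmax⟩ := F.exists_max_image card hne
  obtain ⟨hPg, hinj⟩ := mem_filter.1 hP
  rw [mem_powerset] at hPg
  have hgood : ∀ p ∈ P, ∀ k < r, out c ((stp nb c)^[k] p) ∈ S := fun p hp =>
    (mem_filter.1 (hPg hp)).2
  refine ⟨P, ⟨hinj, ?_⟩, ?_⟩
  · intro p hp p' hp' j hj k hk h1 h2
    have h3 := hgood p hp j hj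
    have h4 := hgood p' hp' k hk
    generalize (stp nb c)^[j] p = q at h1 h2 h3 ⊢
    generalize (stp nb c)^[k] p' = q' at h1 h2 h4 ⊢
    obtain ⟨v, a⟩ := q
    obtain ⟨v', a'⟩ := q'
    simp only at h1 h2
    subst h1
    have h5 := hN v (a + (c v).1) (a' + (c v).1) h3 h4 fun h => h2 (add_right_cancel h)
    rwa [add_sub_add_right_eq_sub] at h5
  · -- the count
    have key : ∀ e, (∀ k < r, out c ((stp nb c)^[k] e) ∈ S) →
        ∃ p ∈ P, ∃ i < r, ∃ i' < r, (stp nb c)^[i] e = (stp nb c)^[i'] p := by
      intro e he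
      by_cases heP : e ∈ P
      · exact ⟨e, heP, 0, by omega, 0, by omega, rfl⟩
      by_contra hcon
      push Not at hcon
      have h1 : insert e P ∈ F := by
        refine mem_filter.2 ⟨mem_powerset.2 ?_, ?_⟩
        · intro x hx
          rcases mem_insert.1 hx with rfl | hx
          · exact mem_filter.2 ⟨mem_univ _, he⟩
          · exact hPg hx
        · intro p hp p' hp' j hj k hk h
          rcases mem_insert.1 hp with h1 | h1
          · subst h1
            rcases mem_insert.1 hp' with h2 | h2
            · exact h2.symm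
            · exact absurd h (hcon p' h2 j hj k hk)
          · rcases mem_insert.1 hp' with h2 | h2
            · subst h2
              exact absurd h.symm (hcon p h1 k hk j hj)
            · exact hinj p h1 p' h2 j hj k hk h
      have h2 := hmax _ h1
      rw [card_insert_of_notMem heP] at h2
      omega
    let g : V × Lab m → V × Lab m := fun d => (stp nb c)^[r - 1] (d.1, d.2 - (c d.1).1)
    have hg : Function.Injective g := by
      intro d d' h
      have h1 := (stp_inj hI c).iterate (r - 1) h
      obtain ⟨v, a⟩ := d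
      obtain ⟨v', a'⟩ := d'
      have h2 : v = v' := congrArg Prod.fst h1
      subst h2
      have h3 : a - (c v).1 = a' - (c v).1 := congrArg Prod.snd h1
      rw [sub_left_inj] at h3
      rw [h3]
    have hsub : S.image g ⊆ (P ×ˢ range (3 * r)).image fun x => (stp nb c)^[x.2] x.1 := by
      intro y hy
      obtain ⟨d, hd, rfl⟩ := mem_image.1 hy
      obtain ⟨e0, ⟨j, hj, hjd⟩, he0⟩ := hT d hd
      obtain ⟨e, rfl⟩ := out_surj c e0
      have he : ∀ k < r, out c ((stp nb c)^[k] e) ∈ S := fun k hk => by
        rw [← nxt_iter_out]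
        exact he0 k hk
      rw [nxt_iter_out] at hjd
      obtain ⟨p, hp, i, hi, i', hi', h⟩ := key e he
      refine mem_image.2 ⟨(p, r - 1 - i + j + i'),
        mem_product.2 ⟨hp, mem_range.2 (show r - 1 - i + j + i' < 3 * r by omega)⟩, ?_⟩
      have h2 : (d.1, d.2 - (c d.1).1) = (stp nb c)^[j] e := by
        rw [← hjd]
        change (((stp nb c)^[j] e).1, ((stp nb c)^[j] e).2 + (c ((stp nb c)^[j] e).1).1 -
          (c ((stp nb c)^[j] e).1).1) = _
        rw [add_sub_cancel_right]
      change (stp nb c)^[r - 1 - i + j + i'] p = (stp nb c)^[r - 1] (d.1, d.2 - (c d.1).1)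
      rw [h2, Function.iterate_add_apply, ← h, ← Function.iterate_add_apply,
        ← Function.iterate_add_apply]
      congr 1
      omega
    calc S.card = (S.image g).card := (card_image_of_injective S hg).symm
      _ ≤ _ := card_le_card hsub
      _ ≤ (P ×ˢ range (3 * r)).card := card_image_le
      _ = 3 * r * P.card := by rw [card_product, card_range, mul_comm]

theorem thr_card (hm : 3 ≤ m) {nb : V → Lab m → V} {c : V → Rot m} {r : ℕ}
    {P : Finset (V × Lab m)} (hF : Fam nb c r P) (x : V) : (thr nb c r P x).card ≤ 8 := by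
  classical
  have hex : ∀ p ∈ thr nb c r P x, ∃ j < r, ((stp nb c)^[j] p).1 = x := fun p hp =>
    (mem_filter.1 hp).2
  let J : V × Lab m → ℕ := fun p => if h : ∃ j < r, ((stp nb c)^[j] p).1 = x then h.choose else 0
  have hJ : ∀ p ∈ thr nb c r P x, J p < r ∧ ((stp nb c)^[J p] p).1 = x := by
    intro p hp
    have h := hex p hp
    have h1 : J p = h.choose := dif_pos h
    rw [h1]
    exact h.choose_spec
  let f : V × Lab m → Lab m := fun p => ((stp nb c)^[J p] p).2
  have hP : ∀ p ∈ thr nb c r P x, p ∈ P := fun p hp => (mem_filter.1 hp).1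
  have hf : Set.InjOn f (thr nb c r P x : Set (V × Lab m)) := by
    intro p hp p' hp' h
    have hp := mem_coe.1 hp
    have hp' := mem_coe.1 hp'
    refine hF.inj p (hP p hp) p' (hP p' hp') (J p) (hJ p hp).1 (J p') (hJ p' hp').1 ?_
    exact Prod.ext ((hJ p hp).2.trans (hJ p' hp').2.symm) h
  rw [← card_image_of_injOn hf]
  refine far_card (by omega) _ ?_
  intro i hi j hj hij
  obtain ⟨p, hp, rfl⟩ := mem_image.1 hi
  obtain ⟨p', hp', rfl⟩ := mem_image.1 hj
  refine (c ((stp nb c)^[J p] p).1).2.trans ?_
  exact hF.ncr p (hP p hp) p' (hP p' hp') (J p) (hJ p hp).1 (J p') (hJ p' hp').1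
    ((hJ p hp).2.trans (hJ p' hp').2.symm) hij

theorem fam_card (hm : 3 ≤ m) {nb : V → Lab m → V} {n : ℕ} (hU : Uniq nb n) {r : ℕ}
    (hr : r ≤ n) {c : V → Rot m} {P : Finset (V × Lab m)} (hF : Fam nb c r P) :
    r * P.card ≤ 8 * (vts nb c r P).card := by
  classical
  have h1 : r * P.card = (P ×ˢ range r).card := by rw [card_product, card_range, mul_comm]
  rw [h1]
  have h2 : vts nb c r P = (P ×ˢ range r).image fun x => ((stp nb c)^[x.2] x.1).1 := by
    unfold vts
    congr
  rw [h2]
  refine card_le_mul_card_image _ 8 fun x _ => ?_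
  refine le_trans ?_ (thr_card hm hF x)
  refine card_le_card_of_injOn Prod.fst ?_ ?_
  · rintro ⟨p, j⟩ h
    obtain ⟨h3, h4⟩ := mem_filter.1 (mem_coe.1 h)
    rw [mem_product, mem_range] at h3
    exact mem_coe.2 (mem_filter.2 ⟨h3.1, j, h3.2, h4⟩)
  · rintro ⟨p, j⟩ h ⟨p', j'⟩ h' hpp
    obtain ⟨h3, h4⟩ := mem_filter.1 (mem_coe.1 h)
    obtain ⟨h3', h4'⟩ := mem_filter.1 (mem_coe.1 h')
    rw [mem_product, mem_range] at h3 h3'
    simp only at hpp h3 h3' h4 h4'
    subst hpp
    have h5 := stp_inj_vertex hm hU c p (j := j) (k := j') (by omega) (by omega)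
      (h4.trans h4'.symm)
    rw [h5]

theorem ps_eq (hm : 3 ≤ m) {nb : V → Lab m → V} {n : ℕ} (hU : Uniq nb n) (c : V → Rot m)
    (p : V × Lab m) {j : ℕ} (hj : j ≤ n) : ps nb c p ((stp nb c)^[j] p).1 = j := by
  unfold ps
  have hne : ({i : ℕ | ((stp nb c)^[i] p).1 = ((stp nb c)^[j] p).1}).Nonempty := ⟨j, rfl⟩
  have h1 := Nat.sInf_mem hne
  have h2 : sInf {i : ℕ | ((stp nb c)^[i] p).1 = ((stp nb c)^[j] p).1} ≤ j :=
    Nat.sInf_le (show ((stp nb c)^[j] p).1 = ((stp nb c)^[j] p).1 from rfl)
  exact stp_inj_vertex hm hU c p (h2.trans hj) hj h1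

theorem al_eq (hm : 3 ≤ m) {nb : V → Lab m → V} {n : ℕ} (hU : Uniq nb n) (c : V → Rot m)
    (p : V × Lab m) {j : ℕ} (hj : j ≤ n) :
    al nb c p ((stp nb c)^[j] p).1 = ((stp nb c)^[j] p).2 := by
  unfold al
  rw [ps_eq hm hU c p hj]

/-- The first piece through a vertex of the family. -/
theorem fp_spec (nb : V → Lab m → V) (c : V → Rot m) (r : ℕ) (P : Finset (V × Lab m)) {x : V}
    (hx : x ∈ vts nb c r P) : fp nb c r P.toList x ∈ thr nb c r P x := by
  classical
  obtain ⟨p, hp, hpx⟩ := (mem_vts nb c r P x).1 hx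
  have h1 : (P.toList.find? fun p => decide (Thr nb c r x p)).isSome := by
    rw [List.find?_isSome]
    exact ⟨p, mem_toList.2 hp, by simpa using hpx⟩
  obtain ⟨q, hq⟩ := Option.isSome_iff_exists.1 h1
  have h2 : fp nb c r P.toList x = q := by
    unfold fp
    have h3 : (P.toList.find? fun p => @decide (Thr nb c r x p) (Classical.propDecidable _)) =
        some q := by
      rw [← hq]
    rw [h3]
    rfl
  rw [h2]
  refine mem_filter.2 ⟨mem_toList.1 (List.mem_of_find?_eq_some hq), ?_⟩
  have h4 := List.find?_some hq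
  simpa using h4

open Classical in
/-- If no piece of `A` passes through `x`, then the first piece through `x` in the list
`P.toList.filter (· ∉ A)` is the one in `P.toList`. -/
theorem fp_filter (nb : V → Lab m → V) (c : V → Rot m) (r : ℕ) (P A : Finset (V × Lab m)) {x : V}
    (hx : ∀ p ∈ thr nb c r P x, p ∉ A) :
    fp nb c r (P.toList.filter fun p => decide (p ∉ A)) x = fp nb c r P.toList x := by
  have key : ∀ L : List (V × Lab m), (∀ p ∈ L, Thr nb c r x p → p ∉ A) →
      (L.filter fun p => decide (p ∉ A)).find? (fun p => decide (Thr nb c r x p)) =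
        L.find? fun p => decide (Thr nb c r x p) := by
    intro L
    induction L with
    | nil => intro _; rfl
    | cons a L ih =>
      intro h
      have ih' := ih fun p hp => h p (List.mem_cons_of_mem _ hp)
      by_cases hT : Thr nb c r x a
      · have ha : a ∉ A := h a List.mem_cons_self hT
        rw [List.filter_cons_of_pos (by simpa using ha),
          List.find?_cons_of_pos (by simpa using hT), List.find?_cons_of_pos (by simpa using hT)]
      · rw [List.find?_cons_of_neg (l := L) (by simpa using hT), ← ih']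
        by_cases ha : a ∈ A
        · rw [List.filter_cons_of_neg (by simpa using ha)]
        · rw [List.filter_cons_of_pos (by simpa using ha),
            List.find?_cons_of_neg (by simpa using hT)]
  unfold fp
  rw [key]
  intro p hp hT
  exact hx p (mem_filter.2 ⟨mem_toList.1 hp, hT⟩)

end URW
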