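import Pool.Agent.URW.Q.Lab

/-!
# URW Q/Ker (package, 2.5 h): first returns of the nice walk (symmetry and Kac's bound)

The NICE WALK leaves a vertex along a given label and turns at every later vertex by a uniformly random
element of `Rot m`. `ret nb X φ k (x, l)` is the expected value of `φ` at the arrival dart `(y, a)`
(arriving at `y` along `a`) of the FIRST RETURN to `X` within `k` steps, for the walk which leaves `x`
along `l` (`0` if there is no return).

PROOFS. The simple ones: induction on `k` (`generalizing d`), unfolding `ret` (`avg` is monotone, linear,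
`avg (fun _ => a) = a`).
* `ret_congr_walk`: the walk of the first `k` steps visits only ends of words `l :: l'` which are nice
  (turns are in `Rot m`, so of cyclic distance `≥ m ≥ 3`), of length `≤ k`, with first label `l`.
* `ret_le_ret`: `Y ⊆ X`. If `nb x l ∈ Y`: both sides are values at that dart. If it is in `X \ Y`: the left
  side is `φ (..) = 0`. Otherwise both recursions go on.
* `ret_adj` (symmetry). Put `J f (v, l) = f (nb v l, l)` (`J ∘ J = id` and `∑ J f = ∑ f`, by `Invol`) and
  `A f (v, l) = if v ∈ X then 0 else avg (fun t => f (v, l + t))`; `A` is self adjoint for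
  `⟨f, g⟩ = ∑ d, f d * g d`, since `Rot m` is closed under `-` (reindex `(l, t) ↦ (l + t, -t)`). Let
  `Q 0 f = J f`, `Q (k + 1) f = J (A (Q k f))`. By induction `Q k (A (J g)) = J (A (Q k g))`, so by
  induction `⟨Q k f, g⟩ = ⟨f, Q k g⟩` (`⟨J A Q k f, g⟩ = ⟨Q k f, A J g⟩ = ⟨f, Q k (A J g)⟩ = ⟨f, Q (k + 1) g⟩`).
  And `ret nb X φ k = ∑ j ∈ range k, Q j (φ 1_X)` where `φ 1_X` is `φ` on the darts at `X` and `0` elsewhere
  (both satisfy the same recursion in `k`: split off the first step).
  So `∑_{d at X} ψ d * ret X φ k d = ∑_{j<k} ⟨ψ 1_X, Q j (φ 1_X)⟩` is symmetric.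
* `kac`. Let `g k d = 1 - ret nb X 1 k d`: `g 0 = 1`, `g (k+1) (x,l) = if nb x l ∈ X then 0 else
  avg (fun t => g k (nb x l, l + t))`, `0 ≤ g (k+1) ≤ g k`. Put `S k = ∑ all d, g k d`, `G k = ∑_{d at X} g k d`.
  Reindexing by `J` and the shifts: `S (k+1) = S k - G k`. So `∑_{k ≤ w} G k = S 0 - S (w + 1) ≤ S 0 =
  card of all darts`, and `G k ≥ G w` for `k ≤ w`.
* `flow_lower`: write `1_T` for the indicator of `T`. `∑_{d ∈ Z} ret 1_T w d = ∑_{d at X} ret 1_T w d -
  ∑_{d at X, not in Z} ret 1_T w d ≥ ∑_{d at X} ret 1_T w d - #(XL \ Z)` (`ret ≤ 1`), and by `ret_adj` (`ψ = 1`)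
  `∑_{d at X} ret 1_T w d = ∑_{d ∈ T} ret 1 w d = #T - ∑_{d ∈ T} (1 - ret 1 w d) ≥ #T - ∑_{d at X} (…)`; then
  `kac`.
-/

set_option autoImplicit false

open Finset

namespace URW

variable {m : ℕ} {V : Type} [Fintype V] [DecidableEq V]

/-- The average over the rotations. -/
noncomputable def avg (f : Rot m → ℝ) : ℝ := (Fintype.card (Rot m) : ℝ)⁻¹ * ∑ t, f t

/-- Expected value of `φ` at the arrival dart of the first return to `X` within `k` steps. -/
noncomputable def ret (nb : V → Lab m → V) (X : Finset V) (φ : V × Lab m → ℝ) :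
    ℕ → V × Lab m → ℝ
  | 0, _ => 0
  | k + 1, d => if nb d.1 d.2 ∈ X then φ (nb d.1 d.2, d.2)
      else avg fun t => ret nb X φ k (nb d.1 d.2, d.2 + t.1)

theorem avg_const (hm : 1 ≤ m) (a : ℝ) : avg (fun _ : Rot m => a) = a := by
  unfold avg
  rw [Finset.sum_const, Finset.card_univ, nsmul_eq_mul, ← mul_assoc]
  have h : (Fintype.card (Rot m) : ℝ) ≠ 0 := by
    rw [card_rot hm]
    positivity
  rw [inv_mul_cancel₀ h, one_mul]

theorem avg_mono {f g : Rot m → ℝ} (h : ∀ t, f t ≤ g t) : avg f ≤ avg g := by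
  unfold avg
  exact mul_le_mul_of_nonneg_left (Finset.sum_le_sum fun t _ => h t) (by positivity)

theorem avg_nonneg {f : Rot m → ℝ} (h : ∀ t, 0 ≤ f t) : 0 ≤ avg f := by
  unfold avg
  exact mul_nonneg (by positivity) (Finset.sum_nonneg fun t _ => h t)

theorem avg_sum {ι : Type*} (s : Finset ι) (f : ι → Rot m → ℝ) :
    avg (fun t => ∑ i ∈ s, f i t) = ∑ i ∈ s, avg (f i) := by
  unfold avg
  rw [Finset.sum_comm, Finset.mul_sum]

private theorem avg_smul (a : ℝ) (f : Rot m → ℝ) : avg (fun t => a * f t) = a * avg f := by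
  unfold avg
  rw [← Finset.mul_sum]
  ring

private theorem avg_sub (f g : Rot m → ℝ) : avg (fun t => f t - g t) = avg f - avg g := by
  unfold avg
  rw [Finset.sum_sub_distrib]
  ring

private theorem ret_zero' (nb : V → Lab m → V) (X : Finset V) (φ : V × Lab m → ℝ)
    (d : V × Lab m) : ret nb X φ 0 d = 0 := rfl

private theorem ret_succ' (nb : V → Lab m → V) (X : Finset V) (φ : V × Lab m → ℝ) (k : ℕ)
    (d : V × Lab m) : ret nb X φ (k + 1) d = if nb d.1 d.2 ∈ X then φ (nb d.1 d.2, d.2)
      else avg fun t => ret nb X φ k (nb d.1 d.2, d.2 + t.1) := rfl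

theorem ret_nonneg (nb : V → Lab m → V) (X : Finset V) {φ : V × Lab m → ℝ} (h : ∀ d, 0 ≤ φ d)
    (k : ℕ) (d : V × Lab m) : 0 ≤ ret nb X φ k d := by
  induction k generalizing d with
  | zero => exact le_refl _
  | succ k ih =>
    rw [ret_succ']
    split_ifs
    · exact h _
    · exact avg_nonneg fun t => ih _

theorem ret_le_one (hm : 1 ≤ m) (nb : V → Lab m → V) (X : Finset V) {φ : V × Lab m → ℝ}
    (h : ∀ d, φ d ≤ 1) (k : ℕ) (d : V × Lab m) : ret nb X φ k d ≤ 1 := by
  induction k generalizing d with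
  | zero => rw [ret_zero']; exact zero_le_one
  | succ k ih =>
    rw [ret_succ']
    split_ifs
    · exact h _
    · calc _ ≤ avg (fun _ : Rot m => (1 : ℝ)) := avg_mono fun t => ih _
        _ = 1 := avg_const hm 1

theorem ret_sum {ι : Type*} (s : Finset ι) (nb : V → Lab m → V) (X : Finset V)
    (φ : ι → V × Lab m → ℝ) (k : ℕ) (d : V × Lab m) :
    ret nb X (fun e => ∑ i ∈ s, φ i e) k d = ∑ i ∈ s, ret nb X (φ i) k d := by
  induction k generalizing d with
  | zero => simp [ret_zero']
  | succ k ih =>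
    simp only [ret_succ']
    by_cases hX : nb d.1 d.2 ∈ X
    · simp only [if_pos hX]
    · simp only [if_neg hX]
      rw [← avg_sum]
      congr 1
      funext t
      exact ih _

theorem ret_smul (nb : V → Lab m → V) (X : Finset V) (a : ℝ) (φ : V × Lab m → ℝ) (k : ℕ)
    (d : V × Lab m) : ret nb X (fun e => a * φ e) k d = a * ret nb X φ k d := by
  induction k generalizing d with
  | zero => simp [ret_zero']
  | succ k ih =>
    simp only [ret_succ']
    by_cases hX : nb d.1 d.2 ∈ X
    · simp only [if_pos hX]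
    · simp only [if_neg hX]
      rw [← avg_smul]
      congr 1
      funext t
      exact ih _

theorem ret_mono (nb : V → Lab m → V) (X : Finset V) {φ ψ : V × Lab m → ℝ} (h : ∀ d, φ d ≤ ψ d)
    (k : ℕ) (d : V × Lab m) : ret nb X φ k d ≤ ret nb X ψ k d := by
  induction k generalizing d with
  | zero => exact le_refl _
  | succ k ih =>
    rw [ret_succ', ret_succ']
    split_ifs
    · exact h _
    · exact avg_mono fun t => ih _

/-- Only the ends of nice words with first label `d.2` matter. -/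
theorem ret_congr_walk (hm : 3 ≤ m) (nb : V → Lab m → V) (X : Finset V) {φ ψ : V × Lab m → ℝ}
    (k : ℕ) (d : V × Lab m)
    (h : ∀ l : List (Lab m), NiceW (d.2 :: l) → (d.2 :: l).length ≤ k →
      ∀ a, φ (walk nb d.1 (d.2 :: l), a) = ψ (walk nb d.1 (d.2 :: l), a)) :
    ret nb X φ k d = ret nb X ψ k d := by
  induction k generalizing d with
  | zero => rfl
  | succ k ih =>
    rw [ret_succ', ret_succ']
    by_cases hX : nb d.1 d.2 ∈ X
    · rw [if_pos hX, if_pos hX]
      have := h [] (List.isChain_singleton _) (by simp) d.2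
      simpa [walk] using this
    · rw [if_neg hX, if_neg hX]
      congr 1
      funext t
      refine ih (nb d.1 d.2, d.2 + t.1) ?_
      intro l hl hlen a
      have := h ((d.2 + t.1) :: l) ?_ ?_ a
      · simpa [walk] using this
      · refine List.IsChain.cons_cons ?_ hl
        have e : d.2 - (d.2 + t.1) = -t.1 := by ring
        rw [e, cd_neg]
        exact hm.trans t.2
      · simp only [List.length_cons] at hlen ⊢
        omega

/-- A smaller target set is hit more often. -/
theorem ret_le_ret (nb : V → Lab m → V) {X Y : Finset V} (hYX : Y ⊆ X) {φ ψ : V × Lab m → ℝ}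
    (h0 : ∀ d, d.1 ∈ X → d.1 ∉ Y → φ d = 0) (hψ : ∀ d, 0 ≤ ψ d) (h : ∀ d, d.1 ∈ Y → φ d ≤ ψ d)
    (k : ℕ) (d : V × Lab m) : ret nb X φ k d ≤ ret nb Y ψ k d := by
  induction k generalizing d with
  | zero => exact le_refl _
  | succ k ih =>
    rw [ret_succ', ret_succ']
    by_cases hY : nb d.1 d.2 ∈ Y
    · rw [if_pos hY, if_pos (hYX hY)]
      exact h _ hY
    · rw [if_neg hY]
      by_cases hX : nb d.1 d.2 ∈ X
      · rw [if_pos hX, h0 _ hX hY]
        exact avg_nonneg fun t => ret_nonneg nb Y hψ _ _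
      · rw [if_neg hX]
        exact avg_mono fun t => ih _

private def jop (nb : V → Lab m → V) (f : V × Lab m → ℝ) : V × Lab m → ℝ :=
  fun d => f (nb d.1 d.2, d.2)

private noncomputable def aop (X : Finset V) (f : V × Lab m → ℝ) : V × Lab m → ℝ :=
  fun d => if d.1 ∈ X then 0 else avg fun t => f (d.1, d.2 + t.1)

private noncomputable def qop (nb : V → Lab m → V) (X : Finset V) :
    ℕ → (V × Lab m → ℝ) → V × Lab m → ℝ
  | 0, f => jop nb f
  | k + 1, f => jop nb (aop X (qop nb X k f))

private theorem jop_inv (nb : V → Lab m → V) (hI : Invol nb) :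
    Function.Involutive (fun d : V × Lab m => ((nb d.1 d.2, d.2) : V × Lab m)) := by
  intro d
  simp only
  rw [hI]

private theorem sum_jop (nb : V → Lab m → V) (hI : Invol nb) (f g : V × Lab m → ℝ) :
    ∑ d, jop nb f d * g d = ∑ d, f d * jop nb g d := by
  have h := Equiv.sum_comp (jop_inv nb hI).toPerm (fun d => jop nb f d * g d)
  rw [← h]
  refine Finset.sum_congr rfl fun d _ => ?_
  simp only [Function.Involutive.coe_toPerm, jop]
  rw [hI]

private theorem sum_jop' (nb : V → Lab m → V) (hI : Invol nb) (f : V × Lab m → ℝ) :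
    ∑ d, jop nb f d = ∑ d, f d := by
  exact Equiv.sum_comp (jop_inv nb hI).toPerm f

private def negRot : Rot m ≃ Rot m where
  toFun t := ⟨-t.1, by rw [cd_neg]; exact t.2⟩
  invFun t := ⟨-t.1, by rw [cd_neg]; exact t.2⟩
  left_inv t := by simp
  right_inv t := by simp

private theorem sum_aop (X : Finset V) (f g : V × Lab m → ℝ) :
    ∑ d, aop X f d * g d = ∑ d, f d * aop X g d := by
  rw [Fintype.sum_prod_type, Fintype.sum_prod_type]
  refine Finset.sum_congr rfl fun v _ => ?_
  unfold aop avg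
  by_cases hv : v ∈ X
  · simp [hv]
  · simp only [hv, if_false]
    have e1 : ∑ l : Lab m, (((Fintype.card (Rot m) : ℝ)⁻¹ * ∑ t : Rot m, f (v, l + t.1)) *
        g (v, l)) = (Fintype.card (Rot m) : ℝ)⁻¹ * ∑ t : Rot m, ∑ l : Lab m,
          f (v, l + t.1) * g (v, l) := by
      rw [Finset.sum_comm, Finset.mul_sum]
      refine Finset.sum_congr rfl fun l _ => ?_
      rw [mul_assoc, Finset.sum_mul]
    have e2 : ∑ l : Lab m, (f (v, l) * ((Fintype.card (Rot m) : ℝ)⁻¹ *
        ∑ t : Rot m, g (v, l + t.1))) = (Fintype.card (Rot m) : ℝ)⁻¹ * ∑ t : Rot m, ∑ l : Lab m,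
          f (v, l) * g (v, l + t.1) := by
      rw [Finset.sum_comm, Finset.mul_sum]
      refine Finset.sum_congr rfl fun l _ => ?_
      rw [mul_left_comm, Finset.mul_sum]
    rw [e1, e2]
    congr 1
    have e3 := Equiv.sum_comp (negRot (m := m)) (fun t : Rot m => ∑ l : Lab m,
      f (v, l + t.1) * g (v, l))
    rw [← e3]
    refine Finset.sum_congr rfl fun t _ => ?_
    have e4 := Equiv.sum_comp (Equiv.addRight t.1) (fun l : Lab m =>
      f (v, l + (negRot t).1) * g (v, l))
    rw [← e4]
    refine Finset.sum_congr rfl fun l _ => ?_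
    simp [negRot]

private theorem qop_comm (nb : V → Lab m → V) (X : Finset V) (k : ℕ) (g : V × Lab m → ℝ) :
    qop nb X k (aop X (jop nb g)) = jop nb (aop X (qop nb X k g)) := by
  induction k with
  | zero => rfl
  | succ k ih =>
    change jop nb (aop X (qop nb X k (aop X (jop nb g)))) =
      jop nb (aop X (jop nb (aop X (qop nb X k g))))
    rw [ih]

private theorem sum_qop (nb : V → Lab m → V) (hI : Invol nb) (X : Finset V) (k : ℕ)
    (f g : V × Lab m → ℝ) : ∑ d, qop nb X k f d * g d = ∑ d, f d * qop nb X k g d := by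
  induction k generalizing f g with
  | zero => exact sum_jop nb hI f g
  | succ k ih =>
    change ∑ d, jop nb (aop X (qop nb X k f)) d * g d =
      ∑ d, f d * jop nb (aop X (qop nb X k g)) d
    rw [sum_jop nb hI, sum_aop, ih, qop_comm]

private theorem ret_eq_qop (nb : V → Lab m → V) (X : Finset V) (φ : V × Lab m → ℝ) (k : ℕ)
    (d : V × Lab m) : ret nb X φ k d =
      ∑ j ∈ range k, qop nb X j (fun e => if e.1 ∈ X then φ e else 0) d := by
  induction k generalizing d with
  | zero => simp [ret_zero']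
  | succ k ih =>
    rw [ret_succ', Finset.sum_range_succ']
    change _ = ∑ j ∈ range k, (if nb d.1 d.2 ∈ X then 0 else
      avg fun t => qop nb X j (fun e => if e.1 ∈ X then φ e else 0) (nb d.1 d.2, d.2 + t.1)) +
      (if nb d.1 d.2 ∈ X then φ (nb d.1 d.2, d.2) else 0)
    by_cases hX : nb d.1 d.2 ∈ X
    · simp [hX]
    · simp only [hX, if_false, add_zero]
      rw [← avg_sum]
      congr 1
      funext t
      exact ih _

private theorem sum_X (X : Finset V) (f : V × Lab m → ℝ) :
    ∑ d ∈ X ×ˢ (univ : Finset (Lab m)), f d = ∑ d, (if d.1 ∈ X then f d else 0) := by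
  rw [← Finset.sum_filter]
  refine Finset.sum_congr ?_ fun _ _ => rfl
  ext d
  simp

/-- Symmetry. -/
theorem ret_adj (nb : V → Lab m → V) (hI : Invol nb) (X : Finset V)
    (φ ψ : V × Lab m → ℝ) (k : ℕ) :
    ∑ d ∈ X ×ˢ (univ : Finset (Lab m)), ψ d * ret nb X φ k d =
      ∑ d ∈ X ×ˢ (univ : Finset (Lab m)), φ d * ret nb X ψ k d := by
  have key : ∀ φ ψ : V × Lab m → ℝ,
      ∑ d ∈ X ×ˢ (univ : Finset (Lab m)), ψ d * ret nb X φ k d =
      ∑ j ∈ range k, ∑ d, (if d.1 ∈ X then ψ d else 0) *
        qop nb X j (fun e => if e.1 ∈ X then φ e else 0) d := by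
    intro φ ψ
    rw [sum_X, Finset.sum_comm]
    refine Finset.sum_congr rfl fun d _ => ?_
    rw [← Finset.mul_sum, ← ret_eq_qop]
    split_ifs <;> simp
  rw [key, key]
  refine Finset.sum_congr rfl fun j _ => ?_
  rw [← sum_qop nb hI]
  refine Finset.sum_congr rfl fun d _ => ?_
  rw [mul_comm]

private theorem ret_le_succ (nb : V → Lab m → V) (X : Finset V) {φ : V × Lab m → ℝ}
    (h : ∀ d, 0 ≤ φ d) (k : ℕ) (d : V × Lab m) : ret nb X φ k d ≤ ret nb X φ (k + 1) d := by
  induction k generalizing d with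
  | zero => rw [ret_zero']; exact ret_nonneg nb X h _ _
  | succ k ih =>
    rw [ret_succ', ret_succ']
    split_ifs
    · exact le_refl _
    · exact avg_mono fun t => ih _

private theorem ret_le_of_le (nb : V → Lab m → V) (X : Finset V) {φ : V × Lab m → ℝ}
    (h : ∀ d, 0 ≤ φ d) (d : V × Lab m) : Monotone fun k => ret nb X φ k d :=
  monotone_nat_of_le_succ fun k => ret_le_succ nb X h k d

/-- Kac's bound. -/
theorem kac (hm : 1 ≤ m) (nb : V → Lab m → V) (hI : Invol nb) (X : Finset V) (w : ℕ) :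
    ((w : ℝ) + 1) * ∑ d ∈ X ×ˢ (univ : Finset (Lab m)), (1 - ret nb X (fun _ => 1) w d) ≤
      (8 * m + 1) * (Fintype.card V : ℝ) := by
  set G : ℕ → ℝ := fun k => ∑ d ∈ X ×ˢ (univ : Finset (Lab m)),
    (1 - ret nb X (fun _ => 1) k d) with hG
  set S : ℕ → ℝ := fun k => ∑ d : V × Lab m, (1 - ret nb X (fun _ => 1) k d) with hS
  have hrec : ∀ k, (fun d : V × Lab m => 1 - ret nb X (fun _ => 1) (k + 1) d) =
      jop nb (aop X fun d => 1 - ret nb X (fun _ => 1) k d) := by
    intro k
    funext d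
    simp only [jop, aop, ret_succ']
    split_ifs
    · ring
    · rw [avg_sub, avg_const hm]
  have hstep : ∀ k, S (k + 1) = S k - G k := by
    intro k
    simp only [hS, hG]
    rw [hrec k, sum_jop' nb hI, sum_X]
    have h1 := sum_aop X (fun d : V × Lab m => 1 - ret nb X (fun _ => 1) k d) (fun _ => 1)
    simp only [mul_one] at h1
    rw [h1, ← Finset.sum_sub_distrib]
    refine Finset.sum_congr rfl fun d _ => ?_
    simp only [aop, avg_const hm]
    split_ifs <;> ring
  have hsum : ∀ n, ∑ k ∈ range n, G k = S 0 - S n := by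
    intro n
    induction n with
    | zero => simp
    | succ n ih => rw [Finset.sum_range_succ, ih, hstep]; ring
  have hSn : ∀ n, 0 ≤ S n := fun n => Finset.sum_nonneg fun d _ =>
    sub_nonneg.2 (ret_le_one hm nb X (fun _ => le_refl _) n d)
  have hS0 : S 0 = (8 * m + 1) * (Fintype.card V : ℝ) := by
    simp only [hS, ret_zero', sub_zero, Finset.sum_const, Finset.card_univ, Fintype.card_prod,
      card_lab, nsmul_eq_mul, mul_one]
    push_cast
    ring
  have hGk : ∀ k ∈ range (w + 1), G w ≤ G k := by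
    intro k hk
    refine Finset.sum_le_sum fun d _ => ?_
    have := ret_le_of_le nb X (φ := fun _ => 1) (fun _ => zero_le_one) d
      (Nat.lt_succ_iff.1 (Finset.mem_range.1 hk))
    simp only at this
    linarith
  have h1 : ((w : ℝ) + 1) * G w ≤ ∑ k ∈ range (w + 1), G k := by
    have := Finset.card_nsmul_le_sum (range (w + 1)) G (G w) hGk
    rw [Finset.card_range, nsmul_eq_mul] at this
    push_cast at this
    exact this
  rw [hsum] at h1
  rw [← hS0]
  linarith [hSn (w + 1)]

theorem flow_lower (hm : 1 ≤ m) (nb : V → Lab m → V) (hI : Invol nb) (X : Finset V) (w : ℕ)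
    (T Z : Finset (V × Lab m)) (hT : T ⊆ X ×ˢ univ) (hZ : Z ⊆ X ×ˢ univ) :
    (T.card : ℝ) - ((X ×ˢ (univ : Finset (Lab m))) \ Z).card -
        (8 * m + 1) * (Fintype.card V : ℝ) / (w + 1) ≤
      ∑ d ∈ Z, ret nb X (fun e => if e ∈ T then 1 else 0) w d := by
  have h1 := Finset.sum_sdiff (f := fun d => ret nb X (fun e => if e ∈ T then 1 else 0) w d) hZ
  have h2 : ∑ d ∈ (X ×ˢ (univ : Finset (Lab m))) \ Z,
      ret nb X (fun e => if e ∈ T then 1 else 0) w d ≤
      ((X ×ˢ (univ : Finset (Lab m))) \ Z).card := by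
    have := Finset.sum_le_card_nsmul ((X ×ˢ (univ : Finset (Lab m))) \ Z)
      (fun d => ret nb X (fun e => if e ∈ T then 1 else 0) w d) 1
      (fun d _ => ret_le_one hm nb X (fun e => by split_ifs <;> norm_num) w d)
    rw [nsmul_eq_mul, mul_one] at this
    exact this
  have h3 := ret_adj nb hI X (fun e => if e ∈ T then 1 else 0) (fun _ => 1) w
  simp only [one_mul, ite_mul, zero_mul] at h3
  rw [← Finset.sum_filter] at h3
  have h4 : (X ×ˢ (univ : Finset (Lab m))).filter (fun d => d ∈ T) = T := by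
    ext d
    simp only [Finset.mem_filter]
    exact ⟨fun h => h.2, fun h => ⟨hT h, h⟩⟩
  rw [h4] at h3
  have h5 : ∑ d ∈ T, (1 - ret nb X (fun _ => 1) w d) ≤
      ∑ d ∈ X ×ˢ (univ : Finset (Lab m)), (1 - ret nb X (fun _ => 1) w d) :=
    Finset.sum_le_sum_of_subset_of_nonneg hT fun d _ _ =>
      sub_nonneg.2 (ret_le_one hm nb X (fun _ => le_refl _) w d)
  have h6 := kac hm nb hI X w
  have h7 : ∑ d ∈ X ×ˢ (univ : Finset (Lab m)), (1 - ret nb X (fun _ => 1) w d) ≤
      (8 * m + 1) * (Fintype.card V : ℝ) / (w + 1) := by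
    rw [le_div_iff₀ (by positivity)]
    linarith
  rw [Finset.sum_sub_distrib, Finset.sum_const, nsmul_eq_mul, mul_one] at h5
  linarith

end URW
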