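import Pool.Agent.URW.Q.Fam
import Pool.Agent.URW.Q.Ker

/-!
# URW Q/Flow (package, 2.5 h): the flow of excursions in a noncrossing family

Fix a family `P` with vertex set `X = vts nb c r P`. `la x` is the arrival label at `x` of the first piece through
`x` (in the list `P.toList`). Sources: the darts `(x, l)`, `x ∈ X`, `cd (l - la x) ≥ m`. Targets: `(y, a)` with
`0 < cd (a - la y) < cd (c y)`.

PROOF of `flow_all`. `Z` = the `(x, l)` with `x ∈ X`, `m ≤ cd (l - la x)`, `l` not used at `x` (`UsedQ`: arrival or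
departure label of a piece through `x`; at most `16` labels by `thr_card`, `al_eq`). `T` = targets:
`#T = ∑_{y ∈ X} 2 (cd (c y) - 1)` (`card_annulus'`, `cd_le`) `≥ (3 m - 2) #X`, as `cd (c y) ≥ 2 m` for at least half
of them (`hgood`) and `≥ m` for all. `#(X × Lab \ Z) ≤ (2 m - 1 + 16) #X` (`card_cd_lt'`). `flow_lower` gives
`∑_Z ret 1_T w ≥ (3 m - 2 - 2 m - 15) #X - (8 m + 1) #V / (w + 1) ≥ (m - 17 - 33) #X ≥ (m / 2) #X` with
`hρ : (8 m + 1) #V ≤ 33 (w + 1) #X` and `m ≥ 100`.

PROOF of `exists_split`. For `(x, l) ∈ Z`: by `ret_congr_walk`, `ret 1_T w (x, l) = ret 1_{T'} w (x, l)`, `T'` = the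
targets at the `y` which are on NO piece through `x`: a nice walk from `x` with first label `l`, length `≤ w ≤ n`,
which ends at a vertex `y` of a piece `p` through `x`, is by `Uniq` the word of `run_walk` (length `≤ r ≤ n`), whose
first label is used at `x` (or it is empty, but our word is not). Sum over all `A ⊆ P` the quantity
`F A = ∑_{(x,l) ∈ Z, no piece through x in A} ret 1_{T, first piece of y ∈ A} w (x, l)`: exchange the sums (`ret_sum`):
for fixed `(x, l)`, the number of the `A ⊆ P \ thr x` containing the first piece `p` of `y` is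
`2^(#P - #thr x - 1) ≥ 2^#P / 2^9` if `p ∉ thr x` (`y` on no piece through `x`). So
`∑_A F A ≥ 2^#P / 2^9 * ∑_Z ret 1_T w`, and one of the `2^#P` sets `A` has `F A ≥ 2^(-9) ∑_Z ret 1_T w`. Adding the
`(x, l)` with used `l` (`ret_nonneg`) gives the sum in the statement.
-/

set_option autoImplicit false

open Finset

namespace URW

variable {m : ℕ} {V : Type} [Fintype V] [DecidableEq V]

/-- Arrival label at `x` of the first piece through `x`. -/
noncomputable def la (nb : V → Lab m → V) (c : V → Rot m) (r : ℕ) (P : Finset (V × Lab m))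
    (x : V) : Lab m := al nb c (fp nb c r P.toList x) x

/-- `l` is an arrival or departure label at `x` of a piece through `x`. -/
def UsedQ (nb : V → Lab m → V) (c : V → Rot m) (r : ℕ) (P : Finset (V × Lab m)) (x : V)
    (l : Lab m) : Prop :=
  ∃ p ∈ P, Thr nb c r x p ∧ (l = al nb c p x ∨ l = al nb c p x + (c x).1)

open Classical in
/-- The targets. -/
noncomputable def trg (nb : V → Lab m → V) (c : V → Rot m) (r : ℕ) (P : Finset (V × Lab m)) :
    Finset (V × Lab m) :=
  (vts nb c r P ×ˢ univ).filter fun e =>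
    0 < cd (e.2 - la nb c r P e.1) ∧ cd (e.2 - la nb c r P e.1) < cd (c e.1).1

open Classical in
/-- The sources with unused labels. -/
noncomputable def src (nb : V → Lab m → V) (c : V → Rot m) (r : ℕ) (P : Finset (V × Lab m)) :
    Finset (V × Lab m) :=
  (vts nb c r P ×ˢ univ).filter fun e => m ≤ cd (e.2 - la nb c r P e.1) ∧ ¬ UsedQ nb c r P e.1 e.2

private theorem card_fp {α β : Type*} (s : Finset α) (t : Finset β) (p : α × β → Prop)
    [DecidablePred p] :
    ((s ×ˢ t).filter p).card = ∑ a ∈ s, (t.filter fun b => p (a, b)).card := by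
  simp only [card_filter]
  exact sum_product s t (fun x => if p x then 1 else 0)

open Classical in
theorem used_card (hm : 3 ≤ m) (nb : V → Lab m → V) {r : ℕ} {c : V → Rot m}
    {P : Finset (V × Lab m)} (hF : Fam nb c r P) (x : V) :
    (univ.filter fun l => UsedQ nb c r P x l).card ≤ 16 := by
  have h1 : (univ.filter fun l => UsedQ nb c r P x l) ⊆
      (thr nb c r P x).image (fun p => al nb c p x) ∪
        (thr nb c r P x).image (fun p => al nb c p x + (c x).1) := by
    intro l hl
    obtain ⟨p, hp, ht, h⟩ := (mem_filter.1 hl).2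
    have hpt : p ∈ thr nb c r P x := mem_filter.2 ⟨hp, ht⟩
    rcases h with rfl | rfl
    · exact mem_union_left _ (mem_image_of_mem _ hpt)
    · exact mem_union_right _ (mem_image_of_mem _ hpt)
  have h2 := thr_card hm hF x
  have h3 : ((thr nb c r P x).image (fun p => al nb c p x)).card ≤ (thr nb c r P x).card :=
    card_image_le
  have h4 : ((thr nb c r P x).image (fun p => al nb c p x + (c x).1)).card ≤
      (thr nb c r P x).card := card_image_le
  refine (card_le_card h1).trans ((card_union_le _ _).trans ?_)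
  omega

open Classical in
theorem trg_card (hm : 1 ≤ m) (nb : V → Lab m → V) {r : ℕ} {c : V → Rot m}
    {P : Finset (V × Lab m)}
    (hgood : 2 * ((vts nb c r P).filter fun x => cd (c x).1 < 2 * m).card ≤
      (vts nb c r P).card) :
    (3 * m - 2) * (vts nb c r P).card ≤ (trg nb c r P).card := by
  have key : (trg nb c r P).card = ∑ x ∈ vts nb c r P, 2 * (cd (c x).1 - 1) := by
    unfold trg
    rw [card_fp]
    refine sum_congr rfl fun x _ => ?_
    have h1 : 1 ≤ cd (c x).1 := hm.trans (c x).2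
    have h2 : cd (c x).1 ≤ 4 * m + 1 := (cd_le _).trans (Nat.le_succ _)
    exact card_annulus' (la nb c r P x) (cd (c x).1) h1 h2
  have h1 : ∑ x ∈ vts nb c r P, (4 * m - 2) ≤ ∑ x ∈ vts nb c r P, (2 * (cd (c x).1 - 1) +
      if cd (c x).1 < 2 * m then 2 * m else 0) := by
    refine sum_le_sum fun x _ => ?_
    have h1 : m ≤ cd (c x).1 := (c x).2
    split_ifs with h2 <;> omega
  rw [sum_add_distrib, ← key, ← sum_filter, sum_const, sum_const, smul_eq_mul, smul_eq_mul] at h1
  have h2 : ((vts nb c r P).filter fun x => cd (c x).1 < 2 * m).card * (2 * m) ≤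
      m * (vts nb c r P).card := by
    calc ((vts nb c r P).filter fun x => cd (c x).1 < 2 * m).card * (2 * m)
        = m * (2 * ((vts nb c r P).filter fun x => cd (c x).1 < 2 * m).card) := by ring
      _ ≤ m * (vts nb c r P).card := Nat.mul_le_mul_left m hgood
  have h3 : (3 * m - 2) * (vts nb c r P).card + m * (vts nb c r P).card =
      (vts nb c r P).card * (4 * m - 2) := by
    rw [← add_mul, mul_comm]
    congr 1
    omega
  omega

theorem src_card (hm : 3 ≤ m) (nb : V → Lab m → V) {r : ℕ} {c : V → Rot m}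
    {P : Finset (V × Lab m)} (hF : Fam nb c r P) :
    ((vts nb c r P ×ˢ (univ : Finset (Lab m))) \ src nb c r P).card ≤
      (2 * m + 15) * (vts nb c r P).card := by
  classical
  have h1 : ((vts nb c r P ×ˢ (univ : Finset (Lab m))) \ src nb c r P) ⊆
      (vts nb c r P ×ˢ (univ : Finset (Lab m))).filter
        (fun e => cd (e.2 - la nb c r P e.1) < m ∨ UsedQ nb c r P e.1 e.2) := by
    intro e he
    obtain ⟨h1, h2⟩ := mem_sdiff.1 he
    refine mem_filter.2 ⟨h1, ?_⟩
    by_contra h3
    push Not at h3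
    exact h2 (mem_filter.2 ⟨h1, h3⟩)
  refine (card_le_card h1).trans ?_
  rw [card_fp, mul_comm (2 * m + 15)]
  refine (sum_le_card_nsmul _ _ (2 * m + 15) fun x _ => ?_).trans (le_of_eq (smul_eq_mul _ _))
  have h2 : (univ.filter fun l : Lab m => cd (l - la nb c r P x) < m).card = 2 * m - 1 :=
    card_cd_lt' _ m (by omega) (by omega)
  have h3 := used_card hm nb hF x
  have h4 : (univ.filter fun b : Lab m => cd (b - la nb c r P x) < m ∨ UsedQ nb c r P x b) ⊆
      (univ.filter fun l : Lab m => cd (l - la nb c r P x) < m) ∪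
        univ.filter fun l => UsedQ nb c r P x l := by
    intro l hl
    rcases (mem_filter.1 hl).2 with h5 | h5
    · exact mem_union_left _ (mem_filter.2 ⟨mem_univ _, h5⟩)
    · exact mem_union_right _ (mem_filter.2 ⟨mem_univ _, h5⟩)
  refine (card_le_card h4).trans ((card_union_le _ _).trans ?_)
  omega

open Classical in
theorem flow_all (hm : 100 ≤ m) {nb : V → Lab m → V} (hI : Invol nb) {r w : ℕ} {c : V → Rot m}
    {P : Finset (V × Lab m)} (hF : Fam nb c r P)
    (hgood : 2 * ((vts nb c r P).filter fun x => cd (c x).1 < 2 * m).card ≤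
      (vts nb c r P).card)
    (hρ : (8 * m + 1) * (Fintype.card V : ℝ) ≤ 33 * (w + 1) * (vts nb c r P).card) :
    (m : ℝ) / 2 * (vts nb c r P).card ≤
      ∑ d ∈ src nb c r P, ret nb (vts nb c r P) (fun e => if e ∈ trg nb c r P then 1 else 0) w d := by
  have hT : trg nb c r P ⊆ vts nb c r P ×ˢ univ := filter_subset _ _
  have hZ : src nb c r P ⊆ vts nb c r P ×ˢ univ := filter_subset _ _
  have h1 := flow_lower (by omega) nb hI (vts nb c r P) w (trg nb c r P) (src nb c r P) hT hZ
  refine le_trans ?_ h1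
  have h2 := trg_card (by omega) nb hgood
  have h3 := src_card (by omega) nb hF
  have hm' : (100 : ℝ) ≤ m := by exact_mod_cast hm
  have h4 : ((3 : ℝ) * m - 2) * (vts nb c r P).card ≤ (trg nb c r P).card := by
    have h5 : ((3 * m - 2 : ℕ) : ℝ) = 3 * m - 2 := by
      rw [Nat.cast_sub (by omega)]
      push_cast
      ring
    rw [← h5]
    exact_mod_cast h2
  have h5 : (((vts nb c r P ×ˢ (univ : Finset (Lab m))) \ src nb c r P).card : ℝ) ≤
      (2 * m + 15) * (vts nb c r P).card := by exact_mod_cast h3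
  have h6 : (8 * m + 1) * (Fintype.card V : ℝ) / (w + 1) ≤ 33 * (vts nb c r P).card := by
    rw [div_le_iff₀ (by positivity)]
    linarith
  have hN : (0 : ℝ) ≤ (vts nb c r P).card := Nat.cast_nonneg _
  nlinarith

open Classical in
/-- An excursion from an unused label never meets a piece through its start. -/
theorem ret_src (hm : 3 ≤ m) {nb : V → Lab m → V} (hI : Invol nb) {n : ℕ} (hU : Uniq nb n)
    {r w : ℕ} (hr : r ≤ n) (hw : w ≤ n) {c : V → Rot m} {P : Finset (V × Lab m)}
    {d : V × Lab m} (hd : d ∈ src nb c r P) :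
    ret nb (vts nb c r P) (fun e => if e ∈ trg nb c r P then 1 else 0) w d =
      ret nb (vts nb c r P)
        (fun e => if e ∈ trg nb c r P ∧ fp nb c r P.toList e.1 ∉ thr nb c r P d.1 then 1 else 0)
        w d := by
  refine ret_congr_walk hm nb _ w d fun l hl hlen a => ?_
  have hiff : (walk nb d.1 (d.2 :: l), a) ∈ trg nb c r P ↔
      ((walk nb d.1 (d.2 :: l), a) ∈ trg nb c r P ∧
        fp nb c r P.toList (walk nb d.1 (d.2 :: l)) ∉ thr nb c r P d.1) := by
    refine ⟨fun h => ⟨h, fun h1 => ?_⟩, fun h => h.1⟩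
    have hy : walk nb d.1 (d.2 :: l) ∈ vts nb c r P := (mem_product.1 (mem_filter.1 h).1).1
    have h2 := fp_spec nb c r P hy
    generalize hp : fp nb c r P.toList (walk nb d.1 (d.2 :: l)) = p at h1 h2
    obtain ⟨hpP, j, hj, hjx⟩ := mem_filter.1 h1
    obtain ⟨-, k, hk, hky⟩ := mem_filter.1 h2
    obtain ⟨l', hl', hlen', hw', hhd⟩ := run_walk hm hI c p j k r hj.le hk.le
    rw [hjx, hky] at hw'
    have heq : l' = d.2 :: l := hU d.1 l' (d.2 :: l) hl' hl (hlen'.trans hr) (hlen.trans hw) hw'
    have h3 := hhd d.2 (by rw [heq]; rfl)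
    have h4 : al nb c p d.1 = ((stp nb c)^[j] p).2 := by
      have h5 := al_eq hm hU c p (hj.le.trans hr)
      rwa [hjx] at h5
    rw [hjx, ← h4] at h3
    exact (mem_filter.1 hd).2.2 ⟨p, hpP, ⟨j, hj, hjx⟩, h3⟩
  show (if (walk nb d.1 (d.2 :: l), a) ∈ trg nb c r P then (1 : ℝ) else 0) =
    if (walk nb d.1 (d.2 :: l), a) ∈ trg nb c r P ∧
        fp nb c r P.toList (walk nb d.1 (d.2 :: l)) ∉ thr nb c r P d.1 then 1 else 0
  by_cases h : (walk nb d.1 (d.2 :: l), a) ∈ trg nb c r P
  · rw [if_pos h, if_pos (hiff.1 h)]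
  · rw [if_neg h, if_neg fun h' => h h'.1]

open Classical in
/-- Counting subsets: `A ⊆ P` avoiding `Q` and containing `p ∉ Q`, `#Q ≤ 8`. -/
theorem split_card {ι : Type} (P Q : Finset ι) (hQ : Q ⊆ P) (h8 : Q.card ≤ 8) {p : ι}
    (hp : p ∈ P) (hpQ : p ∉ Q) :
    2 ^ P.card ≤ 2 ^ 9 * (P.powerset.filter fun A => (∀ q ∈ Q, q ∉ A) ∧ p ∈ A).card := by
  have h1 : ((P \ insert p Q).powerset).card ≤
      (P.powerset.filter fun A => (∀ q ∈ Q, q ∉ A) ∧ p ∈ A).card := by
    refine card_le_card_of_injOn (fun B => insert p B) ?_ ?_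
    · intro B hB
      have hB' := mem_powerset.1 (mem_coe.1 hB)
      refine mem_coe.2 (mem_filter.2 ⟨mem_powerset.2 ?_, ?_, mem_insert_self _ _⟩)
      · intro x hx
        rcases mem_insert.1 hx with rfl | hx
        · exact hp
        · exact (mem_sdiff.1 (hB' hx)).1
      · intro q hq hqB
        rcases mem_insert.1 hqB with rfl | hqB
        · exact hpQ hq
        · exact (mem_sdiff.1 (hB' hqB)).2 (mem_insert_of_mem hq)
    · intro B hB B' hB' h
      have h2 : ∀ C ∈ (P \ insert p Q).powerset, p ∉ C := fun C hC hpC =>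
        (mem_sdiff.1 (mem_powerset.1 hC hpC)).2 (mem_insert_self _ _)
      have h3 : (insert p B).erase p = (insert p B').erase p := congrArg (fun C => C.erase p) h
      rwa [erase_insert (h2 B hB), erase_insert (h2 B' hB')] at h3
  have hsub : insert p Q ⊆ P := by
    intro x hx
    rcases mem_insert.1 hx with rfl | hx
    · exact hp
    · exact hQ hx
  have h2 : (P \ insert p Q).card + (Q.card + 1) = P.card := by
    have h3 := card_sdiff_add_card_eq_card hsub
    rwa [card_insert_of_notMem hpQ] at h3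
  rw [card_powerset] at h1
  calc 2 ^ P.card = 2 ^ (Q.card + 1) * 2 ^ (P \ insert p Q).card := by
        rw [← pow_add, ← h2, add_comm]
    _ ≤ 2 ^ 9 * (P.powerset.filter fun A => (∀ q ∈ Q, q ∉ A) ∧ p ∈ A).card :=
        Nat.mul_le_mul (Nat.pow_le_pow_right (by norm_num) (by omega)) h1

open Classical in
theorem exists_split (hm : 100 ≤ m) {nb : V → Lab m → V} (hI : Invol nb) {n : ℕ}
    (hU : Uniq nb n) {r w : ℕ} (hr : r ≤ n) (hw : w ≤ n) {c : V → Rot m}
    {P : Finset (V × Lab m)} (hF : Fam nb c r P)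
    (hgood : 2 * ((vts nb c r P).filter fun x => cd (c x).1 < 2 * m).card ≤
      (vts nb c r P).card)
    (hρ : (8 * m + 1) * (Fintype.card V : ℝ) ≤ 33 * (w + 1) * (vts nb c r P).card) :
    ∃ A ⊆ P, (m : ℝ) / 2 * (vts nb c r P).card / 2 ^ 9 ≤
      ∑ x ∈ (vts nb c r P).filter (fun x => ∀ p ∈ thr nb c r P x, p ∉ A),
        ∑ l ∈ univ.filter (fun l => m ≤ cd (l - la nb c r P x)),
          ret nb (vts nb c r P)
            (fun e => if e ∈ trg nb c r P ∧ fp nb c r P.toList e.1 ∈ A then 1 else 0) w (x, l) := by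
  have hm3 : 3 ≤ m := by omega
  have hflow := flow_all (w := w) hm hI hF hgood hρ
  set X := vts nb c r P with hX
  let φ : Finset (V × Lab m) → V × Lab m → ℝ := fun A e =>
    if e ∈ trg nb c r P ∧ fp nb c r P.toList e.1 ∈ A then 1 else 0
  have hφ0 : ∀ A e, 0 ≤ φ A e := by
    intro A e
    show (0 : ℝ) ≤ if e ∈ trg nb c r P ∧ fp nb c r P.toList e.1 ∈ A then 1 else 0
    split_ifs <;> norm_num
  let F : Finset (V × Lab m) → ℝ := fun A =>
    ∑ d ∈ src nb c r P, (if ∀ p ∈ thr nb c r P d.1, p ∉ A then (1 : ℝ) else 0) *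
      ret nb X (φ A) w d
  have hsum : (2 : ℝ) ^ P.card / 2 ^ 9 * ((m : ℝ) / 2 * X.card) ≤ ∑ A ∈ P.powerset, F A := by
    have h1 : ∑ A ∈ P.powerset, F A = ∑ d ∈ src nb c r P,
        ret nb X (fun e => ∑ A ∈ P.powerset,
          (if ∀ p ∈ thr nb c r P d.1, p ∉ A then (1 : ℝ) else 0) * φ A e) w d := by
      show ∑ A ∈ P.powerset, ∑ d ∈ src nb c r P, _ = _
      rw [sum_comm]
      refine sum_congr rfl fun d _ => ?_
      rw [ret_sum]
      refine sum_congr rfl fun A _ => ?_
      rw [ret_smul]
    rw [h1]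
    calc (2 : ℝ) ^ P.card / 2 ^ 9 * ((m : ℝ) / 2 * X.card)
        ≤ (2 : ℝ) ^ P.card / 2 ^ 9 * ∑ d ∈ src nb c r P,
            ret nb X (fun e => if e ∈ trg nb c r P then 1 else 0) w d :=
          mul_le_mul_of_nonneg_left hflow (by positivity)
      _ = ∑ d ∈ src nb c r P, (2 : ℝ) ^ P.card / 2 ^ 9 *
            ret nb X (fun e => if e ∈ trg nb c r P then 1 else 0) w d := mul_sum _ _ _
      _ ≤ _ := by
          refine sum_le_sum fun d hd => ?_
          rw [ret_src hm3 hI hU hr hw hd, ← ret_smul]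
          refine ret_mono nb X (fun e => ?_) w d
          by_cases he : e ∈ trg nb c r P ∧ fp nb c r P.toList e.1 ∉ thr nb c r P d.1
          · rw [if_pos he, mul_one]
            have hev : e.1 ∈ vts nb c r P := (mem_product.1 (mem_filter.1 he.1).1).1
            have hp := fp_spec nb c r P hev
            have hpP : fp nb c r P.toList e.1 ∈ P := (mem_filter.1 hp).1
            have h2 : 2 ^ P.card ≤ 2 ^ 9 * (P.powerset.filter fun A =>
                (∀ q ∈ thr nb c r P d.1, q ∉ A) ∧ fp nb c r P.toList e.1 ∈ A).card := by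
              convert split_card P (thr nb c r P d.1) (filter_subset _ _) (thr_card hm3 hF d.1)
                hpP he.2
            have h3 : ∑ A ∈ P.powerset,
                (if ∀ p ∈ thr nb c r P d.1, p ∉ A then (1 : ℝ) else 0) * φ A e =
                ((P.powerset.filter fun A => (∀ q ∈ thr nb c r P d.1, q ∉ A) ∧
                  fp nb c r P.toList e.1 ∈ A).card : ℝ) := by
              rw [card_filter]
              push_cast
              refine sum_congr rfl fun A _ => ?_
              show (if ∀ p ∈ thr nb c r P d.1, p ∉ A then (1 : ℝ) else 0) *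
                (if e ∈ trg nb c r P ∧ fp nb c r P.toList e.1 ∈ A then 1 else 0) = _
              by_cases h4 : ∀ p ∈ thr nb c r P d.1, p ∉ A
              · by_cases h5 : fp nb c r P.toList e.1 ∈ A
                · rw [if_pos h4, if_pos ⟨he.1, h5⟩, if_pos ⟨h4, h5⟩, mul_one]
                · rw [if_pos h4, if_neg fun h => h5 h.2, if_neg fun h => h5 h.2, mul_zero]
              · rw [if_neg h4, zero_mul, if_neg fun h => h4 h.1]
            rw [h3, div_le_iff₀ (by positivity), mul_comm]
            exact_mod_cast h2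
          · rw [if_neg he, mul_zero]
            refine sum_nonneg fun A _ => mul_nonneg ?_ (hφ0 A e)
            split_ifs <;> norm_num
  have hex : ∃ A ∈ P.powerset, (m : ℝ) / 2 * X.card / 2 ^ 9 ≤ F A := by
    refine exists_le_of_sum_le ⟨∅, empty_mem_powerset _⟩ ?_
    rw [sum_const, card_powerset, nsmul_eq_mul]
    refine le_trans (le_of_eq ?_) hsum
    push_cast
    ring
  obtain ⟨A, hA, hFA⟩ := hex
  refine ⟨A, mem_powerset.1 hA, hFA.trans ?_⟩
  have hret0 : ∀ d, 0 ≤ ret nb X (φ A) w d := fun d => ret_nonneg nb X (hφ0 A) w d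
  calc F A ≤ ∑ d ∈ (X ×ˢ (univ : Finset (Lab m))).filter
          (fun d => (∀ p ∈ thr nb c r P d.1, p ∉ A) ∧ m ≤ cd (d.2 - la nb c r P d.1)),
          ret nb X (φ A) w d := by
        show ∑ d ∈ src nb c r P, (if ∀ p ∈ thr nb c r P d.1, p ∉ A then (1 : ℝ) else 0) *
          ret nb X (φ A) w d ≤ _
        have h1 : ∀ d, (if ∀ p ∈ thr nb c r P d.1, p ∉ A then (1 : ℝ) else 0) *
            ret nb X (φ A) w d = if ∀ p ∈ thr nb c r P d.1, p ∉ A then
              ret nb X (φ A) w d else 0 := by
          intro d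
          split_ifs
          · rw [one_mul]
          · rw [zero_mul]
        simp only [h1]
        rw [← sum_filter]
        refine sum_le_sum_of_subset_of_nonneg (fun d hd => ?_) fun d _ _ => hret0 d
        obtain ⟨h2, h3⟩ := mem_filter.1 hd
        obtain ⟨h4, h5, -⟩ := mem_filter.1 h2
        exact mem_filter.2 ⟨h4, h3, h5⟩
    _ = ∑ x ∈ X.filter (fun x => ∀ p ∈ thr nb c r P x, p ∉ A),
          ∑ l ∈ univ.filter (fun l => m ≤ cd (l - la nb c r P x)),
            ret nb X (φ A) w (x, l) := by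
        rw [sum_filter, sum_product, sum_filter]
        refine sum_congr rfl fun x _ => ?_
        by_cases h2 : ∀ p ∈ thr nb c r P x, p ∉ A
        · rw [if_pos h2, sum_filter]
          refine sum_congr rfl fun l _ => ?_
          by_cases h3 : m ≤ cd (l - la nb c r P x)
          · rw [if_pos ⟨h2, h3⟩, if_pos h3]
          · rw [if_neg fun h => h3 h.2, if_neg h3]
        · rw [if_neg h2]
          exact sum_eq_zero fun l _ => if_neg fun h => h2 h.1

end URW
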