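import Pool.Agent.URW.Base

/-!
# URW Q/Lab (package, 1 h): cyclic distance in `ZMod (8 m + 1)`

`cd i = |i|` (`ZMod.valMinAbs`). Useful: `ZMod.valMinAbs_mem_Ioc`, `ZMod.natAbs_valMinAbs_le`,
`ZMod.natAbs_valMinAbs_neg`, `ZMod.natAbs_valMinAbs_add_le`, `ZMod.coe_valMinAbs`,
`ZMod.valMinAbs_spec`.

* `cd_intCast`: the residue of a small integer has its absolute value (`ZMod.valMinAbs_spec`).
* `card_cd_lt`: the set `{i | cd i < k}` is the image of `Finset.Ioo (-k : ℤ) k` (`2 k - 1`
elements)
  under the (injective on this set, as `2 k ≤ 8 m + 1`) cast `ℤ → ZMod (8 m + 1)`. Similarly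
`card_annulus`.
* `far_card`: the sets `{i, i + 1, …, i + m - 1}`, `i ∈ s`, are pairwise disjoint (if
`i + a = j + b`
  with `0 ≤ a, b < m` then `i - j = b - a` and `cd (i - j) ≤ |b - a| < m`), so
`m * s.card ≤ 8 m + 1`,
  and `m ≥ 2` gives `s.card ≤ 8` (`9 m > 8 m + 1`).
-/

set_option autoImplicit false

namespace URW

variable {m : ℕ}

@[simp] theorem cd_zero : cd (0 : Lab m) = 0 := by
  unfold cd
  rw [ZMod.valMinAbs_zero]
  rfl

theorem cd_eq_zero {i : Lab m} : cd i = 0 ↔ i = 0 := by
  unfold cd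
  rw [Int.natAbs_eq_zero, ZMod.valMinAbs_eq_zero]

@[simp] theorem cd_neg (i : Lab m) : cd (-i) = cd i := by
  exact ZMod.natAbs_valMinAbs_neg i

theorem cd_sub_comm (i j : Lab m) : cd (i - j) = cd (j - i) := by
  rw [← cd_neg (j - i), neg_sub]

theorem cd_le (i : Lab m) : cd i ≤ 4 * m := by
  have h := ZMod.natAbs_valMinAbs_le i
  unfold cd
  omega

theorem cd_add_le (i j : Lab m) : cd (i + j) ≤ cd i + cd j := by
  exact (ZMod.natAbs_valMinAbs_add_le i j).trans (Int.natAbs_add_le _ _)

private theorem vm_intCast (z : ℤ) (hz : z.natAbs ≤ 4 * m) :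
    ((z : ℤ) : Lab m).valMinAbs = z := by
  rw [ZMod.valMinAbs_spec]
  refine ⟨rfl, ?_, ?_⟩
  · push_cast
    omega
  · push_cast
    omega

theorem cd_intCast (z : ℤ) (hz : z.natAbs ≤ 4 * m) : cd ((z : ℤ) : Lab m) = z.natAbs := by
  unfold cd
  rw [vm_intCast z hz]

theorem cd_natCast_le (k : ℕ) : cd ((k : ℕ) : Lab m) ≤ k := by
  by_cases h : k ≤ 4 * m
  · have h1 := cd_intCast (m := m) (k : ℤ) (by rw [Int.natAbs_natCast]; exact h)
    rw [Int.cast_natCast, Int.natAbs_natCast] at h1
    exact h1.le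
  · have h1 := cd_le ((k : ℕ) : Lab m)
    omega

theorem card_cd_lt (k : ℕ) (hk : 1 ≤ k) (hk' : k ≤ 4 * m + 1) :
    (Finset.univ.filter fun i : Lab m => cd i < k).card = 2 * k - 1 := by
  classical
  have h1 : (Finset.univ.filter fun i : Lab m => cd i < k) =
      (Finset.Ioo (-(k : ℤ)) k).image (fun z : ℤ => ((z : ℤ) : Lab m)) := by
    ext i
    rw [Finset.mem_filter, Finset.mem_image]
    constructor
    · rintro ⟨-, hi⟩
      refine ⟨i.valMinAbs, ?_, ZMod.coe_valMinAbs i⟩
      unfold cd at hi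
      rw [Finset.mem_Ioo]
      omega
    · rintro ⟨z, hz, rfl⟩
      rw [Finset.mem_Ioo] at hz
      refine ⟨Finset.mem_univ _, ?_⟩
      rw [cd_intCast z (by omega)]
      omega
  rw [h1, Finset.card_image_of_injOn, Int.card_Ioo]
  · omega
  · intro z hz z' hz' h
    rw [Finset.coe_Ioo, Set.mem_Ioo] at hz hz'
    have h2 : ((z : ℤ) : Lab m) = ((z' : ℤ) : Lab m) := h
    rw [← vm_intCast (m := m) z (by omega), ← vm_intCast (m := m) z' (by omega), h2]

/-- `0 < cd i < k`, `k ≤ 4 m` (this is the case for `k = cd j`). -/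
theorem card_annulus (k : ℕ) (hk : 1 ≤ k) (hk' : k ≤ 4 * m + 1) :
    (Finset.univ.filter fun i : Lab m => 0 < cd i ∧ cd i < k).card = 2 * (k - 1) := by
  classical
  have h1 : (Finset.univ.filter fun i : Lab m => 0 < cd i ∧ cd i < k) =
      (Finset.univ.filter fun i : Lab m => cd i < k).erase 0 := by
    ext i
    rw [Finset.mem_filter, Finset.mem_erase, Finset.mem_filter, Nat.pos_iff_ne_zero, Ne,
      cd_eq_zero]
    tauto
  rw [h1, Finset.card_erase_of_mem, card_cd_lt k hk hk']
  · omega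
  · rw [Finset.mem_filter, cd_zero]
    exact ⟨Finset.mem_univ _, hk⟩

private theorem card_shift (a : Lab m) (P : Lab m → Prop) [DecidablePred P] :
    (Finset.univ.filter fun i : Lab m => P (i - a)).card = (Finset.univ.filter P).card := by
  refine Finset.card_bij (fun i _ => i - a) ?_ ?_ ?_
  · intro i hi
    rw [Finset.mem_filter] at hi ⊢
    exact ⟨Finset.mem_univ _, hi.2⟩
  · intro i _ j _ h
    exact sub_left_injective h
  · intro j hj
    rw [Finset.mem_filter] at hj
    refine ⟨j + a, ?_, add_sub_cancel_right j a⟩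
    rw [Finset.mem_filter, add_sub_cancel_right]
    exact ⟨Finset.mem_univ _, hj.2⟩

/-- The same around `a`. -/
theorem card_annulus' (a : Lab m) (k : ℕ) (hk : 1 ≤ k) (hk' : k ≤ 4 * m + 1) :
    (Finset.univ.filter fun i : Lab m => 0 < cd (i - a) ∧ cd (i - a) < k).card = 2 * (k - 1) := by
  exact (card_shift a fun i => 0 < cd i ∧ cd i < k).trans (card_annulus k hk hk')

theorem card_cd_lt' (a : Lab m) (k : ℕ) (hk : 1 ≤ k) (hk' : k ≤ 4 * m + 1) :
    (Finset.univ.filter fun i : Lab m => cd (i - a) < k).card = 2 * k - 1 := by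
  exact (card_shift a fun i => cd i < k).trans (card_cd_lt k hk hk')

theorem card_lab : Fintype.card (Lab m) = 8 * m + 1 := by
  exact ZMod.card (8 * m + 1)

theorem card_rot (hm : 1 ≤ m) : Fintype.card (Rot m) = 6 * m + 2 := by
  have h1 : Fintype.card (Rot m) = (Finset.univ.filter fun i : Lab m => ¬ cd i < m).card := by
    rw [Fintype.card_subtype]
    congr 1
    ext i
    rw [Finset.mem_filter, Finset.mem_filter, not_lt]
  have h2 := Finset.card_filter_add_card_filter_not (s := (Finset.univ : Finset (Lab m)))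
    (fun i => cd i < m)
  rw [card_cd_lt m hm (by omega), Finset.card_univ, card_lab] at h2
  rw [h1]
  omega

/-- Less than one third of the rotations are bad. -/
theorem card_rot_bad (hm : 1 ≤ m) :
    (Finset.univ.filter fun t : Rot m => cd t.1 < 2 * m).card = 2 * m := by
  classical
  have h1 : (Finset.univ.filter fun t : Rot m => cd t.1 < 2 * m).map
      (Function.Embedding.subtype _) = (Finset.univ.filter fun i : Lab m => cd i < 2 * m) \
        (Finset.univ.filter fun i : Lab m => cd i < m) := by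
    ext i
    simp only [Finset.mem_map, Finset.mem_filter, Finset.mem_univ, true_and, Finset.mem_sdiff,
      Function.Embedding.subtype_apply, not_lt]
    constructor
    · rintro ⟨t, ht, rfl⟩
      exact ⟨ht, t.2⟩
    · rintro ⟨h2, h3⟩
      exact ⟨⟨i, h3⟩, h2, rfl⟩
  have h2 := congrArg Finset.card h1
  rw [Finset.card_map, Finset.card_sdiff_of_subset, card_cd_lt (2 * m) (by omega) (by omega),
    card_cd_lt m hm (by omega)] at h2
  · omega
  · intro i hi
    rw [Finset.mem_filter] at hi ⊢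
    exact ⟨hi.1, by omega⟩

theorem far_card (hm : 2 ≤ m) (s : Finset (Lab m))
    (hs : ∀ i ∈ s, ∀ j ∈ s, i ≠ j → m ≤ cd (i - j)) : s.card ≤ 8 := by
  classical
  have h1 : (s ×ˢ Finset.range m).card ≤ (Finset.univ : Finset (Lab m)).card := by
    refine Finset.card_le_card_of_injOn (fun p => p.1 + ((p.2 : ℕ) : Lab m))
      (fun _ _ => Finset.mem_univ _) ?_
    rintro ⟨i, a⟩ hi ⟨j, b⟩ hj h
    rw [Finset.mem_coe, Finset.mem_product, Finset.mem_range] at hi hj
    have hi2 : a < m := hi.2
    have hj2 : b < m := hj.2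
    have h2 : i + ((a : ℕ) : Lab m) = j + ((b : ℕ) : Lab m) := h
    have h3 : i - j = (((b : ℤ) - a : ℤ) : Lab m) := by
      push_cast
      rw [sub_eq_sub_iff_add_eq_add, h2, add_comm]
    have h4 : cd (i - j) = ((b : ℤ) - a).natAbs := by
      rw [h3]
      exact cd_intCast _ (by omega)
    have h5 : i = j := by
      by_contra hij
      have h6 := hs i hi.1 j hj.1 hij
      omega
    subst h5
    rw [sub_self, cd_zero] at h4
    have h6 : a = b := by omega
    rw [h6]
  rw [Finset.card_product, Finset.card_range, Finset.card_univ, card_lab] at h1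
  by_contra h2
  have h3 : 9 * m ≤ s.card * m := Nat.mul_le_mul_right m (by omega)
  omega

end URW
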