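import Pool.Agent.URW.Q.Fam
import Pool.Agent.URW.Q.Mart

/-!
# URW Q/Read (package, 1.5 h): reading the pieces one after the other; few families have many bad vertices

The pieces start from the arrival darts `P 0, P 1, …`; all have length `r`. At the time `t` we are at the
arrival dart `rd nb r P c t`: position `t % r` on the piece `t / r`; `rv` is its vertex, where `c` is read.

PROOF of `adapt_rv`. `rd c t = (stp c)^[t % r] (P (t / r))`, and for `j < t % r` the vertex of
`(stp c)^[j] (P (t / r))` is `rv c (t - t % r + j)` (`(t - t % r + j) / r = t / r` and `% r = j`): induction on `j`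
shows `(stp c')^[j] (P (t / r)) = (stp c)^[j] (P (t / r))` for `j ≤ t % r`.

PROOF of `ld_count`. Put `X c = Vis rv c T`, `u j c = if rv c j ∈ Vis c j then 1 else if cd (c (rv c j)) < 2 m then
3/2 else 3/4`. `u j` is `Meas (j + 1)`. RESAMPLING: for `c' = ov (Vis c j) c ω`: `rv c' j = rv c j = x`,
`Vis c' j = Vis c j`; if `x` is not in it, then `c' x = ω x` and
`∑ ω, u j c' = card (V → Rot m) * (3/4) * (1 + (2 m) / (6 m + 2)) ≤ card (V → Rot m)` (`card_rot`,
`card_rot_bad`; to count the `ω` with `ω x` bad use `sum_update` at `x`). `mart_markov` with `τ j = j`, `M = T`: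
`∏_{j<T} u j c = (3/4)^{#X} 2^{b}`, `b` = number of bad vertices of `X c` (each vertex of `X c` is fresh exactly once;
induction on `T`: `Vis c (T+1) = insert (rv c T) (Vis c T)`), and the square of this is
`(9/16)^{#X} 4^b ≥ (9/8)^{#X} ≥ (9/8)^{x0}` if `#X ≤ 2 b`, `x0 ≤ #X`.
-/

set_option autoImplicit false

open Finset

namespace URW

variable {m : ℕ} {V : Type}

/-- The arrival dart at the time `t`. -/
def rd (nb : V → Lab m → V) (r : ℕ) (P : ℕ → V × Lab m) (c : V → Rot m) (t : ℕ) : V × Lab m :=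
  (stp nb c)^[t % r] (P (t / r))

/-- The vertex read at the time `t`. -/
def rv (nb : V → Lab m → V) (r : ℕ) (P : ℕ → V × Lab m) (c : V → Rot m) (t : ℕ) : V :=
  (rd nb r P c t).1

theorem rd_add (nb : V → Lab m → V) (r : ℕ) (P : ℕ → V × Lab m) (c : V → Rot m) (t j : ℕ)
    (h : t % r + j < r) : rd nb r P c (t + j) = (stp nb c)^[j] (rd nb r P c t) := by
  unfold rd
  have h1 : t + j = t % r + j + r * (t / r) := by
    have := Nat.mod_add_div t r
    omega
  have hr : 0 < r := by omega
  have h2 : (t + j) / r = t / r := by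
    rw [h1, Nat.add_mul_div_left _ _ hr, Nat.div_eq_of_lt h, zero_add]
  have h3 : (t + j) % r = j + t % r := by
    rw [h1, Nat.add_mul_mod_self_left, Nat.mod_eq_of_lt h, add_comm]
  rw [h2, h3, Function.iterate_add_apply]

private theorem stp_congr (nb : V → Lab m → V) {c c' : V → Rot m} (p : V × Lab m)
    (h : c' p.1 = c p.1) : stp nb c' p = stp nb c p := by
  unfold stp
  rw [h]

variable [Fintype V] [DecidableEq V]

theorem adapt_rd (nb : V → Lab m → V) {r : ℕ} (hr : 1 ≤ r) (P : ℕ → V × Lab m)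
    (c c' : V → Rot m) (t : ℕ)
    (h : ∀ s < t, c' (rv nb r P c s) = c (rv nb r P c s)) : rd nb r P c' t = rd nb r P c t := by
  have hr0 : 0 < r := hr
  have key : ∀ j ≤ t % r, (stp nb c')^[j] (P (t / r)) = (stp nb c)^[j] (P (t / r)) := by
    intro j
    induction j with
    | zero => intro _; rfl
    | succ j ih =>
      intro hj
      rw [Function.iterate_succ_apply', Function.iterate_succ_apply', ih (by omega)]
      have h1 : t % r < r := Nat.mod_lt _ hr0
      have h2 : t % r + r * (t / r) = t := Nat.mod_add_div t r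
      have h3 : j < r := by omega
      have h4 : (j + r * (t / r)) / r = t / r := by
        rw [Nat.add_mul_div_left _ _ hr0, Nat.div_eq_of_lt h3, zero_add]
      have h5 : (j + r * (t / r)) % r = j := by
        rw [Nat.add_mul_mod_self_left, Nat.mod_eq_of_lt h3]
      have h6 := h (j + r * (t / r)) (by omega)
      unfold rv rd at h6
      rw [h4, h5] at h6
      exact stp_congr nb _ h6
  exact key _ le_rfl

theorem adapt_rv (nb : V → Lab m → V) {r : ℕ} (hr : 1 ≤ r) (P : ℕ → V × Lab m) :
    Adapt (rv nb r P) := by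
  intro c c' t h
  exact congrArg Prod.fst (adapt_rd nb hr P c c' t h)

/-- Reading all the pieces of a list reads all the vertices of the family. -/
theorem vis_list (nb : V → Lab m → V) {r : ℕ} (hr : 1 ≤ r) (c : V → Rot m)
    (L : List (V × Lab m)) (d0 : V × Lab m) (x : V) :
    x ∈ Vis (rv nb r fun i => L.getD i d0) c (L.length * r) ↔ ∃ p ∈ L, Thr nb c r x p := by
  have hr0 : 0 < r := hr
  unfold Vis
  rw [mem_image]
  constructor
  · rintro ⟨t, ht, rfl⟩
    rw [mem_range] at ht
    have h1 : t / r < L.length := Nat.div_lt_of_lt_mul (by rw [mul_comm]; exact ht)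
    refine ⟨L[t / r], List.getElem_mem h1, t % r, Nat.mod_lt _ hr0, ?_⟩
    unfold rv rd
    beta_reduce
    rw [List.getD_eq_getElem L d0 h1]
  · rintro ⟨p, hp, j, hj, rfl⟩
    obtain ⟨i, hi, rfl⟩ := List.getElem_of_mem hp
    have h4 : (j + r * i) / r = i := by
      rw [Nat.add_mul_div_left _ _ hr0, Nat.div_eq_of_lt hj, zero_add]
    have h5 : (j + r * i) % r = j := by
      rw [Nat.add_mul_mod_self_left, Nat.mod_eq_of_lt hj]
    refine ⟨j + r * i, ?_, ?_⟩
    · rw [mem_range]
      calc j + r * i < r + r * i := by omega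
        _ = (i + 1) * r := by ring
        _ ≤ L.length * r := Nat.mul_le_mul_right r hi
    · unfold rv rd
      beta_reduce
      rw [h4, h5, List.getD_eq_getElem L d0 hi]

section helpers

/-- The factor of the time `j`. -/
private noncomputable def rdU (m : ℕ) {V : Type} [DecidableEq V] (pos : (V → Rot m) → ℕ → V)
    (j : ℕ) (c : V → Rot m) : ℝ :=
  if pos c j ∈ Vis pos c j then 1 else if cd (c (pos c j)).1 < 2 * m then 3 / 2 else 3 / 4

private theorem rdU_nonneg {m : ℕ} {V : Type} [DecidableEq V] (pos : (V → Rot m) → ℕ → V)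
    (j : ℕ) (c : V → Rot m) : 0 ≤ rdU m pos j c := by
  unfold rdU
  split_ifs <;> norm_num

private theorem rdU_meas {m : ℕ} {V : Type} [Fintype V] [DecidableEq V]
    {pos : (V → Rot m) → ℕ → V} (hp : Adapt pos) (j : ℕ) : Meas pos (j + 1) (rdU m pos j) := by
  intro c c' h
  have h0 : ∀ s < j, c' (pos c s) = c (pos c s) := fun s hs => h s (by omega)
  have h1 : pos c' j = pos c j := pos_congr hp h0 j le_rfl
  have h2 : Vis pos c' j = Vis pos c j := vis_congr hp h0 j (by omega)
  unfold rdU
  rw [h2, h1, h j (by omega)]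

private theorem rdU_sum {m : ℕ} {V : Type} [Fintype V] [DecidableEq V] (hm : 1 ≤ m)
    {pos : (V → Rot m) → ℕ → V} (hp : Adapt pos) (j : ℕ) (c : V → Rot m) :
    ∑ ω, rdU m pos j (ov (Vis pos c j) c ω) ≤ (Fintype.card (V → Rot m) : ℝ) := by
  have key : ∀ ω : V → Rot m, rdU m pos j (ov (Vis pos c j) c ω) =
      if pos c j ∈ Vis pos c j then 1 else
        if cd (ω (pos c j)).1 < 2 * m then 3 / 2 else 3 / 4 := by
    intro ω
    have h0 := ov_eq pos c ω j
    have h1 : pos (ov (Vis pos c j) c ω) j = pos c j := pos_congr hp h0 j le_rfl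
    have h2 : Vis pos (ov (Vis pos c j) c ω) j = Vis pos c j := vis_congr hp h0 j (by omega)
    unfold rdU
    rw [h2, h1]
    by_cases hx : pos c j ∈ Vis pos c j
    · rw [if_pos hx, if_pos hx]
    · rw [if_neg hx, if_neg hx]
      have h3 : ov (Vis pos c j) c ω (pos c j) = ω (pos c j) := by
        unfold ov
        rw [if_neg hx]
      rw [h3]
  rw [Finset.sum_congr rfl fun ω _ => key ω]
  by_cases hx : pos c j ∈ Vis pos c j
  · rw [Finset.sum_congr rfl fun ω _ => if_pos hx]
    simp
  · rw [Finset.sum_congr rfl fun ω _ => if_neg hx]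
    have h4 := sum_update (C := Rot m) (pos c j)
      (fun ω : V → Rot m => if cd (ω (pos c j)).1 < 2 * m then (3 / 2 : ℝ) else 3 / 4)
    simp only [Function.update_self, Finset.sum_const, Finset.card_univ, nsmul_eq_mul] at h4
    have h5 : (Finset.univ.filter fun t : Rot m => ¬ cd t.1 < 2 * m).card = 4 * m + 2 := by
      have h6 := Finset.card_filter_add_card_filter_not (s := (Finset.univ : Finset (Rot m)))
        (fun t : Rot m => cd t.1 < 2 * m)
      rw [card_rot_bad hm, Finset.card_univ, card_rot hm] at h6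
      omega
    have h8 : ∑ t : Rot m, (if cd t.1 < 2 * m then (3 / 2 : ℝ) else 3 / 4) =
        (2 * m : ℕ) * (3 / 2) + (4 * m + 2 : ℕ) * (3 / 4) := by
      rw [Finset.sum_ite, Finset.sum_const, Finset.sum_const, card_rot_bad hm, h5,
        nsmul_eq_mul, nsmul_eq_mul]
    rw [← Finset.mul_sum, h8, card_rot hm] at h4
    have hN : (0 : ℝ) ≤ Fintype.card (V → Rot m) := Nat.cast_nonneg _
    have hm0 : (0 : ℝ) ≤ m := Nat.cast_nonneg _
    have h7 : (0 : ℝ) < ((6 * m + 2 : ℕ) : ℝ) := by positivity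
    refine le_of_mul_le_mul_left ?_ h7
    rw [h4, mul_comm ((6 * m + 2 : ℕ) : ℝ)]
    refine mul_le_mul_of_nonneg_left ?_ hN
    push_cast
    linarith

private theorem vis_succ {m : ℕ} {V : Type} [Fintype V] [DecidableEq V]
    (pos : (V → Rot m) → ℕ → V) (c : V → Rot m) (t : ℕ) :
    Vis pos c (t + 1) = insert (pos c t) (Vis pos c t) := by
  unfold Vis
  rw [Finset.range_add_one, Finset.image_insert]

private theorem rdU_prod {m : ℕ} {V : Type} [Fintype V] [DecidableEq V]
    (pos : (V → Rot m) → ℕ → V) (c : V → Rot m) (T : ℕ) :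
    ∏ j ∈ range T, rdU m pos j c = (3 / 4) ^ (Vis pos c T).card *
      2 ^ ((Vis pos c T).filter fun x => cd (c x).1 < 2 * m).card := by
  induction T with
  | zero => simp [Vis]
  | succ T ih =>
    rw [Finset.prod_range_succ, ih, vis_succ]
    by_cases hx : pos c T ∈ Vis pos c T
    · rw [Finset.insert_eq_of_mem hx]
      unfold rdU
      rw [if_pos hx, mul_one]
    · rw [Finset.card_insert_of_notMem hx, Finset.filter_insert]
      unfold rdU
      rw [if_neg hx]
      by_cases hb : cd (c (pos c T)).1 < 2 * m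
      · rw [if_pos hb, if_pos hb, Finset.card_insert_of_notMem fun h => hx (mem_filter.1 h).1]
        ring
      · rw [if_neg hb, if_neg hb]
        ring

private theorem rd_num (x0 X b : ℕ) (h1 : x0 ≤ X) (h2 : X ≤ 2 * b) :
    Real.sqrt ((9 / 8) ^ x0) ≤ (3 / 4) ^ X * 2 ^ b := by
  rw [Real.sqrt_le_iff]
  refine ⟨by positivity, ?_⟩
  have e1 : ((3 / 4 : ℝ) ^ X * 2 ^ b) ^ 2 = (9 / 16) ^ X * 2 ^ (2 * b) := by
    rw [mul_pow, ← pow_mul, ← pow_mul, mul_comm X 2, pow_mul, mul_comm b 2]
    norm_num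
  have e2 : (9 / 8 : ℝ) ^ X = (9 / 16) ^ X * 2 ^ X := by
    rw [← mul_pow]
    norm_num
  rw [e1]
  calc (9 / 8 : ℝ) ^ x0 ≤ (9 / 8) ^ X := pow_le_pow_right₀ (by norm_num) h1
    _ = (9 / 16) ^ X * 2 ^ X := e2
    _ ≤ (9 / 16) ^ X * 2 ^ (2 * b) :=
      mul_le_mul_of_nonneg_left (pow_le_pow_right₀ (by norm_num) h2) (by positivity)

end helpers

open Classical in
theorem ld_count (hm : 1 ≤ m) (nb : V → Lab m → V) {r : ℕ} (hr : 1 ≤ r) (P : ℕ → V × Lab m)
    (T x0 : ℕ) (E : Finset (V → Rot m))
    (hE : ∀ c ∈ E, x0 ≤ (Vis (rv nb r P) c T).card ∧ (Vis (rv nb r P) c T).card ≤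
      2 * ((Vis (rv nb r P) c T).filter fun x => cd (c x).1 < 2 * m).card) :
    Real.sqrt ((9 / 8) ^ x0) * (E.card : ℝ) ≤ (Fintype.card (V → Rot m) : ℝ) := by
  have hp : Adapt (rv nb r P) := adapt_rv nb hr P
  refine mart_markov hp (fun j => j) (fun a b h => h) (rdU m (rv nb r P)) (rdU_nonneg _)
    (rdU_meas hp) (fun j c => rdU_sum hm hp j c) T E _ fun c hc => ?_
  have h1 := hE c hc
  rw [rdU_prod]
  exact rd_num _ _ _ h1.1 h1.2

end URW
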